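import Pool.Agent.K1H81.RN.Sym

/-!
# Semistable curves with full rational 2-torsion (helper81)

`count_node` is taken from `Pool/Agent/Y667/PA/Root.lean`, `int_root`, `full_int` and `invariants` from
`Pool/Agent/H925R/Szpiro/Semi.lean`.
-/

set_option autoImplicit false

namespace Pool.Agent.K1H81.RN

open Finset

/-- `p + 1 - #W(𝔽_p)`: `p` minus the number of the affine solutions of the equation modulo `p` -/
noncomputable def ap (W : WeierstrassCurve ℤ) (p : ℕ) : ℤ :=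
  p - Nat.card {z : ZMod p × ZMod p // z.2 ^ 2 + W.a₁ * z.1 * z.2 + W.a₃ * z.2 =
    z.1 ^ 3 + W.a₂ * z.1 ^ 2 + W.a₄ * z.1 + W.a₆}

/-- the equation is semistable at every prime (then it is globally minimal) -/
def Semistable (W : WeierstrassCurve ℤ) : Prop :=
  W.Δ ≠ 0 ∧ ∀ p : ℕ, p.Prime → (p : ℤ) ∣ W.Δ → ¬ (p : ℤ) ∣ W.c₄

/-- the conductor -/
def cond (W : WeierstrassCurve ℤ) : ℕ := ∏ p ∈ W.Δ.natAbs.primeFactors, p

/-- the root number -/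
noncomputable def wSemi (W : WeierstrassCurve ℤ) : ℤ := -∏ p ∈ W.Δ.natAbs.primeFactors, (-ap W p)

/-- all the 2-torsion points are rational -/
def Full (W : WeierstrassCurve ℤ) : Prop :=
  ∃ r₁ r₂ r₃ : ℚ, ∀ x : ℚ,
    4 * x ^ 3 + W.b₂ * x ^ 2 + 2 * W.b₄ * x + W.b₆ = 4 * (x - r₁) * (x - r₂) * (x - r₃)

theorem int_root (b c d : ℤ) (r : ℚ) (h : r ^ 3 + b * r ^ 2 + c * r + d = 0) : ∃ z : ℤ, (z : ℚ) = r := by
  have hm : (Polynomial.X ^ 3 + Polynomial.C b * Polynomial.X ^ 2 + Polynomial.C c * Polynomial.X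
      + Polynomial.C d : Polynomial ℤ).Monic := by
    monicity!
  have := isInteger_of_is_root_of_monic hm (r := r) (by simpa using h)
  obtain ⟨z, hz⟩ := this
  exact ⟨z, by simpa using hz⟩

theorem full_int (W : WeierstrassCurve ℤ) (h : Full W) :
    ∃ e₁ e₂ e₃ : ℤ, W.b₂ = -(e₁ + e₂ + e₃) ∧ 8 * W.b₄ = e₁ * e₂ + e₁ * e₃ + e₂ * e₃ ∧
      16 * W.b₆ = -(e₁ * e₂ * e₃) := by
  obtain ⟨r₁, r₂, r₃, hr⟩ := h
  have h0 := hr 0
  have h1 := hr 1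
  have h2 := hr (-1)
  have c0 : (W.b₆ : ℚ) = -4 * r₁ * r₂ * r₃ := by linear_combination h0
  have c2 : (W.b₂ : ℚ) = -4 * (r₁ + r₂ + r₃) := by linear_combination (h1 + h2) / 2 - h0
  have c1 : (W.b₄ : ℚ) = 2 * (r₁ * r₂ + r₁ * r₃ + r₂ * r₃) := by
    linear_combination (h1 - h2) / 4
  have key : ∀ r : ℚ, (r = r₁ ∨ r = r₂ ∨ r = r₃) → ∃ z : ℤ, (z : ℚ) = 4 * r := by
    intro r hh
    refine int_root W.b₂ (8 * W.b₄) (16 * W.b₆) (4 * r) ?_
    push_cast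
    rw [c0, c1, c2]
    rcases hh with rfl | rfl | rfl <;> ring
  obtain ⟨e₁, he₁⟩ := key r₁ (by simp)
  obtain ⟨e₂, he₂⟩ := key r₂ (by simp)
  obtain ⟨e₃, he₃⟩ := key r₃ (by simp)
  refine ⟨e₁, e₂, e₃, ?_, ?_, ?_⟩
  · have : (W.b₂ : ℚ) = ((-(e₁ + e₂ + e₃) : ℤ) : ℚ) := by
      push_cast; rw [he₁, he₂, he₃, c2]; ring
    exact_mod_cast this
  · have : ((8 * W.b₄ : ℤ) : ℚ) = ((e₁ * e₂ + e₁ * e₃ + e₂ * e₃ : ℤ) : ℚ) := by
      push_cast; rw [he₁, he₂, he₃, c1]; ring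
    exact_mod_cast this
  · have : ((16 * W.b₆ : ℤ) : ℚ) = ((-(e₁ * e₂ * e₃) : ℤ) : ℚ) := by
      push_cast; rw [he₁, he₂, he₃, c0]; ring
    exact_mod_cast this

theorem invariants (W : WeierstrassCurve ℤ) (e₁ e₂ e₃ : ℤ) (h2 : W.b₂ = -(e₁ + e₂ + e₃))
    (h4 : 8 * W.b₄ = e₁ * e₂ + e₁ * e₃ + e₂ * e₃) (h6 : 16 * W.b₆ = -(e₁ * e₂ * e₃)) :
    W.c₄ = (e₂ - e₁) ^ 2 + (e₂ - e₁) * (e₃ - e₂) + (e₃ - e₂) ^ 2 ∧
      256 * W.Δ = ((e₂ - e₁) * (e₃ - e₂) * ((e₂ - e₁) + (e₃ - e₂))) ^ 2 := by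
  constructor
  · unfold WeierstrassCurve.c₄
    have : 24 * W.b₄ = 3 * (e₁ * e₂ + e₁ * e₃ + e₂ * e₃) := by linarith
    rw [this, h2]
    ring
  · have h8 := W.b_relation
    have hd : W.Δ = -W.b₂ ^ 2 * W.b₈ - 8 * W.b₄ ^ 3 - 27 * W.b₆ ^ 2 + 9 * W.b₂ * W.b₄ * W.b₆ := rfl
    have e : 256 * W.Δ = -W.b₂ ^ 2 * (64 * (W.b₂ * W.b₆ - W.b₄ ^ 2)) - 4 * (8 * W.b₄) ^ 3
        - 27 * (16 * W.b₆) ^ 2 + 18 * W.b₂ * (8 * W.b₄) * (16 * W.b₆) := by
      rw [hd]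
      linear_combination (-64 * W.b₂ ^ 2) * h8
    have e2 : 64 * (W.b₂ * W.b₆ - W.b₄ ^ 2) = 4 * W.b₂ * (16 * W.b₆) - (8 * W.b₄) ^ 2 := by ring
    rw [e, e2, h4, h6, h2]
    ring

section count

variable {F : Type*} [Field F] [Fintype F] [DecidableEq F]

/-- points of a nodal cubic -/
lemma count_node (hF : ringChar F ≠ 2) (u α β : F) (hα : α ≠ 0) :
    (Nat.card {z : F × F // z.2 ^ 2 = (z.1 - u) ^ 2 * (α * z.1 + β)} : ℤ) =
      Fintype.card F - quadraticChar F (α * u + β) := by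
  classical
  have h1 : Nat.card {z : F × F // z.2 ^ 2 = (z.1 - u) ^ 2 * (α * z.1 + β)} =
      ∑ x : F, ({y : F | y ^ 2 = (x - u) ^ 2 * (α * x + β)} : Set F).toFinset.card := by
    rw [Nat.card_congr (Equiv.subtypeProdEquivSigmaSubtype
      (fun x y : F => y ^ 2 = (x - u) ^ 2 * (α * x + β))), Nat.card_sigma]
    apply sum_congr rfl
    intro x _
    rw [Nat.card_eq_fintype_card, Set.toFinset_card]
    rfl
  rw [h1]
  push_cast
  simp only [quadraticChar_card_sqrts hF]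
  rw [sum_add_distrib]
  have h3 : ∑ x : F, quadraticChar F ((x - u) ^ 2 * (α * x + β)) =
      ∑ x : F, quadraticChar F (α * x + β) - quadraticChar F (α * u + β) := by
    rw [eq_sub_iff_add_eq, ← add_sum_erase univ _ (mem_univ u),
      ← add_sum_erase univ (fun x => quadraticChar F (α * x + β)) (mem_univ u)]
    have h4 : quadraticChar F ((u - u) ^ 2 * (α * u + β)) = 0 := by
      rw [sub_self]; simp
    rw [h4, zero_add, add_comm]
    congr 1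
    apply sum_congr rfl
    intro x hx
    rw [map_mul, quadraticChar_sq_one' (sub_ne_zero.2 (ne_of_mem_erase hx)), one_mul]
  have h5 : ∑ x : F, quadraticChar F (α * x + β) = 0 := by
    rw [← quadraticChar_sum_zero hF]
    apply Fintype.sum_bijective (fun x => α * x + β)
    · constructor
      · intro x y h
        have : α * x = α * y := add_right_cancel h
        exact mul_left_cancel₀ hα this
      · intro y
        exact ⟨α⁻¹ * (y - β), by field_simp; ring⟩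
    · intro x; rfl
  rw [h3, h5, sum_const, card_univ]
  simp
  ring

end count

section odd

variable {p : ℕ} [Fact p.Prime]

lemma two_ne (hp2 : p ≠ 2) : (2 : ZMod p) ≠ 0 := by
  intro h
  have h3 : ((2 : ℕ) : ZMod p) = 0 := by exact_mod_cast h
  rw [ZMod.natCast_eq_zero_iff] at h3
  exact hp2 ((Nat.prime_dvd_prime_iff_eq (Fact.out : p.Prime) Nat.prime_two).1 h3)

/-- completing the square -/
lemma npts_odd {W : WeierstrassCurve ℤ} {e₁ e₂ e₃ : ℤ} (h2 : W.b₂ = -(e₁ + e₂ + e₃))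
    (h4 : 8 * W.b₄ = e₁ * e₂ + e₁ * e₃ + e₂ * e₃) (h6 : 16 * W.b₆ = -(e₁ * e₂ * e₃))
    (hp2 : p ≠ 2) :
    Nat.card {z : ZMod p × ZMod p // z.2 ^ 2 + W.a₁ * z.1 * z.2 + W.a₃ * z.2 =
      z.1 ^ 3 + W.a₂ * z.1 ^ 2 + W.a₄ * z.1 + W.a₆} = Nat.card {z : ZMod p × ZMod p //
      z.2 ^ 2 = (z.1 - e₁) * (z.1 - e₂) * (z.1 - e₃)} := by
  have h2' := two_ne hp2
  have h4' : (4 : ZMod p) ≠ 0 := by
    have : (4 : ZMod p) = 2 * 2 := by norm_num
    rw [this]; exact mul_ne_zero h2' h2'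
  have h8' : (8 : ZMod p) ≠ 0 := by
    have : (8 : ZMod p) = 2 * 4 := by norm_num
    rw [this]; exact mul_ne_zero h2' h4'
  have h64' : (64 : ZMod p) ≠ 0 := by
    have : (64 : ZMod p) = 8 * 8 := by norm_num
    rw [this]; exact mul_ne_zero h8' h8'
  have k2 := congrArg (Int.cast : ℤ → ZMod p) h2
  have k4 := congrArg (Int.cast : ℤ → ZMod p) h4
  have k6 := congrArg (Int.cast : ℤ → ZMod p) h6
  unfold WeierstrassCurve.b₂ at k2
  unfold WeierstrassCurve.b₄ at k4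
  unfold WeierstrassCurve.b₆ at k6
  push_cast at k2 k4 k6
  refine Nat.card_congr (Equiv.subtypeEquiv
    ⟨fun z => (4 * z.1, 4 * (2 * z.2 + W.a₁ * z.1 + W.a₃)),
      fun z => (z.1 / 4, (z.2 / 4 - W.a₁ * (z.1 / 4) - W.a₃) / 2), ?_, ?_⟩ ?_)
  · intro z
    ext
    · show 4 * z.1 / 4 = z.1
      field_simp
    · show (4 * (2 * z.2 + W.a₁ * z.1 + W.a₃) / 4 - W.a₁ * (4 * z.1 / 4) - W.a₃) / 2 = z.2
      field_simp
      ring
  · intro z
    ext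
    · show 4 * (z.1 / 4) = z.1
      field_simp
    · show 4 * (2 * ((z.2 / 4 - W.a₁ * (z.1 / 4) - W.a₃) / 2) + W.a₁ * (z.1 / 4) + W.a₃) = z.2
      field_simp
      ring
  · intro z
    show z.2 ^ 2 + (W.a₁ : ZMod p) * z.1 * z.2 + (W.a₃ : ZMod p) * z.2 =
      z.1 ^ 3 + (W.a₂ : ZMod p) * z.1 ^ 2 + (W.a₄ : ZMod p) * z.1 + (W.a₆ : ZMod p) ↔
      (4 * (2 * z.2 + W.a₁ * z.1 + W.a₃)) ^ 2 = (4 * z.1 - e₁) * (4 * z.1 - e₂) * (4 * z.1 - e₃)
    constructor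
    · intro h
      linear_combination 64 * h + 16 * z.1 ^ 2 * k2 + 4 * z.1 * k4 + k6
    · intro h
      apply mul_left_cancel₀ h64'
      linear_combination h - 16 * z.1 ^ 2 * k2 - 4 * z.1 * k4 - k6

lemma ap_node {W : WeierstrassCurve ℤ} {e₁ e₂ e₃ : ℤ} (h2 : W.b₂ = -(e₁ + e₂ + e₃))
    (h4 : 8 * W.b₄ = e₁ * e₂ + e₁ * e₃ + e₂ * e₃) (h6 : 16 * W.b₆ = -(e₁ * e₂ * e₃))
    (hp2 : p ≠ 2) (u v : ℤ)
    (hg : ∀ x : ZMod p, (x - e₁) * (x - e₂) * (x - e₃) = (x - u) ^ 2 * (1 * x + -v)) :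
    ap W p = jacobiSym (u - v) p := by
  classical
  have h1 : ringChar (ZMod p) ≠ 2 := by
    rw [ZMod.ringChar_zmod_n]; exact hp2
  unfold ap
  rw [npts_odd h2 h4 h6 hp2]
  have h3 : (Nat.card {z : ZMod p × ZMod p //
      z.2 ^ 2 = (z.1 - e₁) * (z.1 - e₂) * (z.1 - e₃)} : ℤ) =
      Fintype.card (ZMod p) - quadraticChar (ZMod p) (1 * (u : ZMod p) + -(v : ZMod p)) := by
    rw [← count_node h1 (u : ZMod p) 1 (-(v : ZMod p)) one_ne_zero]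
    congr 1
    apply Nat.card_congr
    exact Equiv.subtypeEquivRight fun z => by rw [hg]
  have e : 1 * (u : ZMod p) + -(v : ZMod p) = ((u - v : ℤ) : ZMod p) := by push_cast; ring
  rw [h3, ZMod.card, e, ← jacobiSym.legendreSym.to_jacobiSym]
  unfold legendreSym
  ring

end odd

lemma two_dec : ∀ a₂ a₃ a₄ a₆ : ZMod 2, (⟨1, a₂, a₃, a₄, a₆⟩ : WeierstrassCurve (ZMod 2)).Δ = 0 →
    Fintype.card {z : ZMod 2 × ZMod 2 // z.2 ^ 2 + 1 * z.1 * z.2 + a₃ * z.2 =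
      z.1 ^ 3 + a₂ * z.1 ^ 2 + a₄ * z.1 + a₆} = if a₂ + a₃ = 0 then 1 else 3 := by
  unfold WeierstrassCurve.Δ WeierstrassCurve.b₂ WeierstrassCurve.b₄ WeierstrassCurve.b₆
    WeierstrassCurve.b₈
  decide

lemma ap_two {W : WeierstrassCurve ℤ} (h1 : W.a₁ % 2 = 1) (hΔ : (2 : ℤ) ∣ W.Δ) :
    ap W 2 = if (W.a₂ + W.a₃) % 2 = 0 then 1 else -1 := by
  have e1 : (W.a₁ : ZMod 2) = 1 := by
    have : ((W.a₁ - 1 : ℤ) : ZMod 2) = 0 := (ZMod.intCast_zmod_eq_zero_iff_dvd _ 2).2 (by omega)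
    push_cast at this
    exact sub_eq_zero.1 this
  have e2 : (⟨1, (W.a₂ : ZMod 2), (W.a₃ : ZMod 2), (W.a₄ : ZMod 2), (W.a₆ : ZMod 2)⟩ :
      WeierstrassCurve (ZMod 2)).Δ = 0 := by
    have h3 : (W.map (Int.castRingHom (ZMod 2))).Δ = 0 := by
      rw [WeierstrassCurve.map_Δ]
      exact (ZMod.intCast_zmod_eq_zero_iff_dvd _ 2).2 hΔ
    have h4 : W.map (Int.castRingHom (ZMod 2)) =
        ⟨1, (W.a₂ : ZMod 2), (W.a₃ : ZMod 2), (W.a₄ : ZMod 2), (W.a₆ : ZMod 2)⟩ := by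
      ext
      · simpa using e1
      all_goals simp
    rwa [h4] at h3
  have h5 := two_dec _ _ _ _ e2
  unfold ap
  have h6 : Nat.card {z : ZMod 2 × ZMod 2 // z.2 ^ 2 + (W.a₁ : ZMod 2) * z.1 * z.2 +
      (W.a₃ : ZMod 2) * z.2 = z.1 ^ 3 + (W.a₂ : ZMod 2) * z.1 ^ 2 + (W.a₄ : ZMod 2) * z.1 +
        (W.a₆ : ZMod 2)} = if (W.a₂ : ZMod 2) + (W.a₃ : ZMod 2) = 0 then 1 else 3 := by
    rw [← h5, Nat.card_eq_fintype_card]
    simp only [e1]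
  rw [h6]
  have h7 : ((W.a₂ : ZMod 2) + (W.a₃ : ZMod 2) = 0) ↔ (W.a₂ + W.a₃) % 2 = 0 := by
    have : (W.a₂ : ZMod 2) + (W.a₃ : ZMod 2) = ((W.a₂ + W.a₃ : ℤ) : ZMod 2) := by push_cast; rfl
    rw [this, ZMod.intCast_zmod_eq_zero_iff_dvd]
    push_cast
    exact Int.dvd_iff_emod_eq_zero
  simp only [h7]
  split_ifs <;> norm_num

/-- the parameters -/
def Adm (b c : ℤ) : Prop := b % 4 = 1 ∧ c ≠ 0 ∧ b + 16 * c ≠ 0 ∧ IsCoprime b c

/-- `c₄` -/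
def C4 (b c : ℤ) : ℤ := b ^ 2 + 16 * b * c + 256 * c ^ 2

/-- `c₆` -/
def C6 (b c : ℤ) : ℤ := -((b - 16 * c) * (b ^ 2 + 40 * b * c + 256 * c ^ 2))

/-- the discriminant -/
def Di (b c : ℤ) : ℤ := ((b + 16 * c) * b * c) ^ 2

lemma cop16 {m : ℤ} (h : m % 2 = 1) : IsCoprime (16 : ℤ) m := by
  have h1 : IsCoprime (2 : ℤ) m := by
    rw [Int.isCoprime_iff_gcd_eq_one]
    have h1 : Int.gcd 2 m ∣ 2 := by exact_mod_cast Int.gcd_dvd_left 2 m
    rcases (Nat.dvd_prime Nat.prime_two).1 h1 with h | h'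
    · exact h
    · exfalso
      have h2 : ((2 : ℕ) : ℤ) ∣ m := by rw [← h']; exact Int.gcd_dvd_right 2 m
      omega
  have := h1.pow_left (m := 4)
  norm_num at this
  exact this

lemma Adm.ab {b c : ℤ} (h : Adm b c) : IsCoprime (b + 16 * c) b := by
  have h1 : IsCoprime b (16 * c) := (cop16 (by have := h.1; omega)).symm.mul_right h.2.2.2
  have := (IsCoprime.add_mul_left_left h1.symm 1)
  rw [mul_one] at this
  rw [add_comm]
  exact this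

lemma Adm.ac {b c : ℤ} (h : Adm b c) : IsCoprime (b + 16 * c) c := by
  have := (IsCoprime.add_mul_left_left h.2.2.2 16)
  rwa [mul_comm] at this

lemma mem_pf {n : ℤ} {p : ℕ} (hp : p ∈ n.natAbs.primeFactors) : p.Prime ∧ (p : ℤ) ∣ n :=
  ⟨Nat.prime_of_mem_primeFactors hp, Int.natCast_dvd.2 (Nat.dvd_of_mem_primeFactors hp)⟩

lemma natAbs_cop {a b : ℤ} (h : IsCoprime a b) : Nat.Coprime a.natAbs b.natAbs := by
  rw [Int.isCoprime_iff_gcd_eq_one] at h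
  exact h

lemma pf_Di {b c : ℤ} (h : Adm b c) : (Di b c).natAbs.primeFactors =
    (b + 16 * c).natAbs.primeFactors ∪ b.natAbs.primeFactors ∪ c.natAbs.primeFactors := by
  unfold Di
  have hb0 : b ≠ 0 := by have := h.1; omega
  rw [Int.natAbs_pow, Nat.primeFactors_pow _ two_ne_zero, Int.natAbs_mul, Int.natAbs_mul,
    Nat.primeFactors_mul (mul_ne_zero (Int.natAbs_ne_zero.2 h.2.2.1) (Int.natAbs_ne_zero.2 hb0))
      (Int.natAbs_ne_zero.2 h.2.1),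
    Nat.primeFactors_mul (Int.natAbs_ne_zero.2 h.2.2.1) (Int.natAbs_ne_zero.2 hb0)]

lemma prod_Di {b c : ℤ} (h : Adm b c) {M : Type*} [CommMonoid M] (f : ℕ → M) :
    ∏ p ∈ (Di b c).natAbs.primeFactors, f p = (∏ p ∈ (b + 16 * c).natAbs.primeFactors, f p) *
      (∏ p ∈ b.natAbs.primeFactors, f p) * ∏ p ∈ c.natAbs.primeFactors, f p := by
  rw [pf_Di h, prod_union, prod_union]
  · exact (natAbs_cop h.ab).disjoint_primeFactors
  · rw [disjoint_union_left]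
    exact ⟨(natAbs_cop h.ac).disjoint_primeFactors, (natAbs_cop h.2.2.2).disjoint_primeFactors⟩

/-- the case in which the roots are numbered suitably -/
theorem cls_aux {W : WeierstrassCurve ℤ} (hs : Semistable W) {e₁ e₂ e₃ c : ℤ}
    (h2 : W.b₂ = -(e₁ + e₂ + e₃)) (h4 : 8 * W.b₄ = e₁ * e₂ + e₁ * e₃ + e₂ * e₃)
    (h6 : 16 * W.b₆ = -(e₁ * e₂ * e₃)) (hb2 : W.b₂ % 2 = 1) (hc : e₃ - e₂ = 16 * c) (hc0 : 0 < c) :
    ∃ b : ℤ, Adm b c ∧ W.c₄ = C4 b c ∧ W.c₆ = C6 b c ∧ W.Δ = Di b c ∧ wSemi W = w b c := by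
  obtain ⟨hc4, hD⟩ := invariants W e₁ e₂ e₃ h2 h4 h6
  have he3 : e₃ = e₂ + 16 * c := by linarith
  have he1 : e₁ % 2 = 1 := by omega
  -- `4 ∣ e₂`
  obtain ⟨κ, hκ⟩ : (4 : ℤ) ∣ e₂ := by
    have h7 : (16 : ℤ) ∣ e₁ * (e₂ * e₃) := ⟨-W.b₆, by linarith⟩
    have h8 : (16 : ℤ) ∣ e₂ * e₃ := (cop16 he1).dvd_of_dvd_mul_left h7
    rw [he3] at h8
    have h9 : (16 : ℤ) ∣ e₂ ^ 2 := by
      have e : e₂ ^ 2 = e₂ * (e₂ + 16 * c) - 16 * (c * e₂) := by ring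
      rw [e]
      exact dvd_sub h8 (dvd_mul_right _ _)
    have h10 : (4 : ℤ) ^ 2 ∣ e₂ ^ 2 := by norm_num; exact h9
    exact (Int.pow_dvd_pow_iff two_ne_zero).1 h10
  have ha1 : W.a₁ % 2 = 1 := by
    have : W.b₂ = W.a₁ ^ 2 + 4 * W.a₂ := rfl
    rcases Int.even_or_odd W.a₁ with ⟨t, ht⟩ | ⟨t, ht⟩
    · exfalso
      rw [this, ht] at hb2
      have : (t + t) ^ 2 = 4 * t ^ 2 := by ring
      omega
    · omega
  have ha1' : ∃ t : ℤ, W.a₁ ^ 2 = 8 * t + 1 := by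
    obtain ⟨t, ht⟩ : ∃ t, W.a₁ = 2 * t + 1 := ⟨W.a₁ / 2, by omega⟩
    rcases Int.even_or_odd t with ⟨s, hs⟩ | ⟨s, hs⟩
    · exact ⟨s * (2 * s + 1), by rw [ht, hs]; ring⟩
    · exact ⟨(2 * s + 1) * (s + 1), by rw [ht, hs]; ring⟩
  obtain ⟨t, ht⟩ := ha1'
  have hb2e : W.b₂ = 8 * t + 1 + 4 * W.a₂ := by
    have : W.b₂ = W.a₁ ^ 2 + 4 * W.a₂ := rfl
    rw [this, ht]
  obtain ⟨b, hb⟩ : ∃ b, b = e₂ - e₁ := ⟨_, rfl⟩
  have hb2' : b = W.b₂ + 3 * e₂ + 16 * c := by rw [h2, hb, he3]; ring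
  have hb4 : b % 4 = 1 := by omega
  have hb0 : b ≠ 0 := by omega
  have ha0 : b + 16 * c ≠ 0 := by omega
  have hΔ : W.Δ = Di b c := by
    have : (256 : ℤ) * W.Δ = 256 * Di b c := by
      rw [hD, hc, ← hb]
      unfold Di
      ring
    linarith
  have hc4' : W.c₄ = C4 b c := by
    rw [hc4, hc, ← hb]
    unfold C4
    ring
  have hc6' : W.c₆ = C6 b c := by
    have e : 2 * W.c₆ = -2 * W.b₂ ^ 3 + 9 * W.b₂ * (8 * W.b₄) - 27 * (16 * W.b₆) := by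
      unfold WeierstrassCurve.c₆
      ring
    have e2 : 2 * W.c₆ = 2 * C6 b c := by
      rw [e, h4, h6, h2, he3]
      have : e₁ = e₂ - b := by rw [hb]; ring
      rw [this]
      unfold C6
      ring
    linarith
  have hcop : IsCoprime b c := by
    rw [Int.isCoprime_iff_gcd_eq_one]
    by_contra hne
    obtain ⟨q, hq, hqd⟩ := Nat.exists_prime_and_dvd hne
    have h11 : (q : ℤ) ∣ b := (Int.natCast_dvd_natCast.2 hqd).trans (Int.gcd_dvd_left b c)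
    have h12 : (q : ℤ) ∣ c := (Int.natCast_dvd_natCast.2 hqd).trans (Int.gcd_dvd_right b c)
    refine hs.2 q hq ?_ ?_
    · rw [hΔ]
      unfold Di
      exact dvd_pow (h12.mul_left _) two_ne_zero
    · rw [hc4']
      unfold C4
      have e : b ^ 2 + 16 * b * c + 256 * c ^ 2 = b * (b + 16 * c) + c * (256 * c) := by ring
      rw [e]
      exact dvd_add (h11.mul_right _) (h12.mul_right _)
  have hadm : Adm b c := ⟨hb4, hc0.ne', ha0, hcop⟩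
  refine ⟨b, hadm, hc4', hc6', hΔ, ?_⟩
  unfold wSemi w
  rw [hΔ, prod_Di hadm]
  congr 1
  have o2 : ∀ {n : ℤ} {p : ℕ}, n % 2 = 1 → (p : ℤ) ∣ n → p ≠ 2 := by
    intro n p hn hd h
    rw [h] at hd
    omega
  congr 1
  congr 1
  · unfold U
    refine prod_congr rfl fun p hp => ?_
    obtain ⟨hpp, hpd⟩ := mem_pf hp
    have : Fact p.Prime := ⟨hpp⟩
    have hp2 : p ≠ 2 := o2 (by omega) hpd
    have h13 : ((b + 16 * c : ℤ) : ZMod p) = 0 := (ZMod.intCast_zmod_eq_zero_iff_dvd _ p).2 hpd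
    have e1 : e₃ = e₁ + (b + 16 * c) := by rw [he3, hb]; ring
    rw [ap_node h2 h4 h6 hp2 e₁ e₂ (fun x => by
      rw [e1]; push_cast at h13 ⊢; rw [h13]; ring)]
    unfold kap
    rw [if_neg hp2]
    have : e₁ - e₂ = -b := by rw [hb]; ring
    rw [this]
  · unfold U
    refine prod_congr rfl fun p hp => ?_
    obtain ⟨hpp, hpd⟩ := mem_pf hp
    have : Fact p.Prime := ⟨hpp⟩
    have hp2 : p ≠ 2 := o2 (by omega) hpd
    have h13 : (b : ZMod p) = 0 := (ZMod.intCast_zmod_eq_zero_iff_dvd _ p).2 hpd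
    have e1 : e₁ = e₂ - b := by rw [hb]; ring
    rw [ap_node h2 h4 h6 hp2 e₂ e₃ (fun x => by
      rw [e1]; push_cast; rw [h13]; ring)]
    unfold kap
    rw [if_neg hp2]
    have h14 : (e₂ - e₃) % (p : ℤ) = (-(b + 16 * c)) % (p : ℤ) := by
      apply Int.ModEq.eq
      rw [Int.modEq_iff_dvd, he3]
      have : -(b + 16 * c) - (e₂ - (e₂ + 16 * c)) = -b := by ring
      rw [this]
      exact hpd.neg_right
    rw [jacobiSym.mod_left' h14]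
  · unfold U
    refine prod_congr rfl fun p hp => ?_
    obtain ⟨hpp, hpd⟩ := mem_pf hp
    have : Fact p.Prime := ⟨hpp⟩
    by_cases hp2 : p = 2
    · subst hp2
      have hΔ2 : (2 : ℤ) ∣ W.Δ := by
        rw [hΔ]
        unfold Di
        exact dvd_pow (Dvd.dvd.mul_left hpd _) two_ne_zero
      rw [ap_two ha1 hΔ2]
      unfold kap
      rw [if_pos rfl]
      -- `a₃ ≡ κ` modulo 2
      have h15 : W.b₄ = e₁ * (κ + 2 * c) + 2 * (κ * (κ + 4 * c)) := by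
        have : 8 * W.b₄ = 8 * (e₁ * (κ + 2 * c) + 2 * (κ * (κ + 4 * c))) := by
          rw [h4, he3, hκ]; ring
        linarith
      have h16 : W.b₄ = 2 * W.a₄ + W.a₁ * W.a₃ := rfl
      obtain ⟨x, hx⟩ : ∃ x, e₁ = 2 * x + 1 := ⟨e₁ / 2, by omega⟩
      obtain ⟨y, hy⟩ : ∃ y, W.a₁ = 2 * y + 1 := ⟨W.a₁ / 2, by omega⟩
      have h17 : (2 : ℤ) ∣ W.a₃ - κ := by
        refine ⟨x * (κ + 2 * c) + c + κ * (κ + 4 * c) - W.a₄ - y * W.a₃, ?_⟩
        have h18 : 2 * W.a₄ + W.a₁ * W.a₃ = e₁ * (κ + 2 * c) + 2 * (κ * (κ + 4 * c)) :=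
          h16.symm.trans h15
        rw [hx, hy] at h18
        linear_combination h18
      have h19 : ((W.a₂ + W.a₃) % 2 = 0) ↔ b % 8 = 1 := by omega
      simp only [h19]
    · have h13 : (c : ZMod p) = 0 := (ZMod.intCast_zmod_eq_zero_iff_dvd _ p).2 hpd
      rw [ap_node h2 h4 h6 hp2 e₂ e₁ (fun x => by
        rw [he3]; push_cast; rw [h13]; ring)]
      unfold kap
      rw [if_neg hp2, ← hb]

/-- **classification** -/
theorem cls {W : WeierstrassCurve ℤ} (hs : Semistable W) (hf : Full W) :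
    ∃ b c : ℤ, Adm b c ∧ 0 < c ∧ W.c₄ = C4 b c ∧ W.c₆ = C6 b c ∧ W.Δ = Di b c ∧
      wSemi W = w b c := by
  obtain ⟨e₁, e₂, e₃, h2, h4, h6⟩ := full_int W hf
  obtain ⟨hc4, hD⟩ := invariants W e₁ e₂ e₃ h2 h4 h6
  obtain ⟨x, hx⟩ : ∃ x, x = e₂ - e₁ := ⟨_, rfl⟩
  obtain ⟨y, hy⟩ : ∃ y, y = e₃ - e₂ := ⟨_, rfl⟩
  rw [← hx, ← hy] at hc4 hD
  have par : ∀ u v : ℤ, (2 : ℤ) ∣ u ^ 2 + u * v + v ^ 2 → (2 : ℤ) ∣ u ∧ (2 : ℤ) ∣ v := by
    intro u v h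
    rcases Int.even_or_odd' u with ⟨s, hs | hs⟩ <;> rcases Int.even_or_odd' v with ⟨t, ht | ht⟩
    · exact ⟨⟨s, hs⟩, ⟨t, ht⟩⟩
    · exfalso
      have e : u ^ 2 + u * v + v ^ 2 = 2 * (2 * s ^ 2 + s * (2 * t + 1) + 2 * t ^ 2 + 2 * t) + 1 := by
        rw [hs, ht]; ring
      omega
    · exfalso
      have e : u ^ 2 + u * v + v ^ 2 = 2 * (2 * s ^ 2 + 2 * s + t * (2 * s + 1) + 2 * t ^ 2) + 1 := by
        rw [hs, ht]; ring
      omega
    · exfalso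
      have e : u ^ 2 + u * v + v ^ 2 =
          2 * (2 * s ^ 2 + 2 * s + 2 * s * t + s + t + 2 * t ^ 2 + 2 * t + 1) + 1 := by
        rw [hs, ht]; ring
      omega
  have hb2 : W.b₂ % 2 = 1 := by
    by_contra hcon
    have hb2 : W.b₂ % 2 = 0 := by omega
    have e0 : W.b₂ = W.a₁ ^ 2 + 4 * W.a₂ := rfl
    have e1 : W.b₄ = 2 * W.a₄ + W.a₁ * W.a₃ := rfl
    obtain ⟨s, hs'⟩ : ∃ s, W.a₁ = 2 * s := by
      rcases Int.even_or_odd' W.a₁ with ⟨s, hs | hs⟩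
      · exact ⟨s, hs⟩
      · exfalso
        rw [e0, hs] at hb2
        have : (2 * s + 1) ^ 2 = 2 * (2 * s ^ 2 + 2 * s) + 1 := by ring
        omega
    have hc4e : W.c₄ = 16 * ((s ^ 2 + W.a₂) ^ 2 - 3 * (W.a₄ + s * W.a₃)) := by
      unfold WeierstrassCurve.c₄
      rw [e0, e1, hs']
      ring
    have g1 : (2 : ℤ) ∣ x ^ 2 + x * y + y ^ 2 := by
      rw [← hc4, hc4e]
      exact ⟨8 * ((s ^ 2 + W.a₂) ^ 2 - 3 * (W.a₄ + s * W.a₃)), by ring⟩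
    obtain ⟨⟨x1, hx1⟩, ⟨y1, hy1⟩⟩ := par x y g1
    have g2 : (2 : ℤ) ∣ x1 ^ 2 + x1 * y1 + y1 ^ 2 := by
      refine ⟨2 * ((s ^ 2 + W.a₂) ^ 2 - 3 * (W.a₄ + s * W.a₃)), ?_⟩
      rw [hx1, hy1, hc4e] at hc4
      linarith
    obtain ⟨⟨x2, hx2⟩, ⟨y2, hy2⟩⟩ := par x1 y1 g2
    refine hs.2 2 Nat.prime_two ?_ ?_
    · have : W.Δ = 2 * (8 * (x2 * y2 * (x2 + y2)) ^ 2) := by
        rw [hx1, hy1, hx2, hy2] at hD
        linarith
      rw [this]
      exact dvd_mul_right _ _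
    · rw [hc4e]
      exact ⟨8 * ((s ^ 2 + W.a₂) ^ 2 - 3 * (W.a₄ + s * W.a₃)), by push_cast; ring⟩
  have hne : x * y * (x + y) ≠ 0 := by
    intro h0
    rw [h0] at hD
    apply hs.1
    have : 256 * W.Δ = 0 := by rw [hD]; norm_num
    omega
  have h16 : (16 : ℤ) ∣ x * y * (x + y) := by
    have : (16 : ℤ) ^ 2 ∣ (x * y * (x + y)) ^ 2 := by
      rw [← hD]
      norm_num
    exact (Int.pow_dvd_pow_iff two_ne_zero).1 this
  have hodd : ¬ (x % 2 = 0 ∧ y % 2 = 0) := by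
    rintro ⟨h, h'⟩
    have e : e₁ + e₂ + e₃ = 3 * e₂ - x + y := by rw [hx, hy]; ring
    have hc : (2 : ℤ) ∣ W.c₄ := by
      rw [hc4]
      obtain ⟨s, hs⟩ : (2 : ℤ) ∣ x := by omega
      obtain ⟨t, ht⟩ : (2 : ℤ) ∣ y := by omega
      exact ⟨2 * s ^ 2 + 2 * s * t + 2 * t ^ 2, by rw [hs, ht]; ring⟩
    have h5 : W.c₄ = W.b₂ ^ 2 - 24 * W.b₄ := rfl
    obtain ⟨s, hs⟩ : ∃ s, W.b₂ = 2 * s + 1 := ⟨W.b₂ / 2, by omega⟩
    rw [h5, hs] at hc
    have : (2 * s + 1) ^ 2 - 24 * W.b₄ = 2 * (2 * s ^ 2 + 2 * s - 12 * W.b₄) + 1 := by ring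
    omega
  -- finish: given numbering with difference divisible by 16
  have fin : ∀ f₁ f₂ f₃ : ℤ, W.b₂ = -(f₁ + f₂ + f₃) → 8 * W.b₄ = f₁ * f₂ + f₁ * f₃ + f₂ * f₃ →
      16 * W.b₆ = -(f₁ * f₂ * f₃) → (16 : ℤ) ∣ f₃ - f₂ → f₃ ≠ f₂ →
      ∃ b c : ℤ, Adm b c ∧ 0 < c ∧ W.c₄ = C4 b c ∧ W.c₆ = C6 b c ∧ W.Δ = Di b c ∧
        wSemi W = w b c := by
    rintro f₁ f₂ f₃ k2 k4 k6 ⟨c, hc⟩ hne'
    rcases lt_trichotomy c 0 with h | h | h
    · obtain ⟨b, hb⟩ := cls_aux hs (e₁ := f₁) (e₂ := f₃) (e₃ := f₂) (c := -c) (by linarith)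
        (by linarith) (by linarith) hb2 (by linarith) (by linarith)
      exact ⟨b, -c, hb.1, by linarith, hb.2⟩
    · exfalso
      rw [h] at hc
      exact hne' (by linarith)
    · obtain ⟨b, hb⟩ := cls_aux hs k2 k4 k6 hb2 hc h
      exact ⟨b, c, hb.1, h, hb.2⟩
  have hx0 : x ≠ 0 := fun h => hne (by rw [h]; ring)
  have hy0 : y ≠ 0 := fun h => hne (by rw [h]; ring)
  have hxy0 : x + y ≠ 0 := fun h => hne (by rw [h]; ring)
  rcases Int.emod_two_eq_zero_or_one x with hx2 | hx2 <;>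
    rcases Int.emod_two_eq_zero_or_one y with hy2 | hy2
  · exact absurd ⟨hx2, hy2⟩ hodd
  · -- `16 ∣ x`
    have h20 : (16 : ℤ) ∣ x := by
      have e : x * y * (x + y) = y * ((x + y) * x) := by ring
      rw [e] at h16
      exact (cop16 (by omega : (x + y) % 2 = 1)).dvd_of_dvd_mul_left
        ((cop16 hy2).dvd_of_dvd_mul_left h16)
    exact fin e₃ e₁ e₂ (by linarith) (by linarith) (by linarith) (by rw [← hx]; exact h20)
      (fun h => hx0 (by rw [hx, h]; ring))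
  · have h20 : (16 : ℤ) ∣ y := by
      have e : x * y * (x + y) = x * ((x + y) * y) := by ring
      rw [e] at h16
      exact (cop16 (by omega : (x + y) % 2 = 1)).dvd_of_dvd_mul_left
        ((cop16 hx2).dvd_of_dvd_mul_left h16)
    exact fin e₁ e₂ e₃ h2 h4 h6 (by rw [← hy]; exact h20) (fun h => hy0 (by rw [hy, h]; ring))
  · have h20 : (16 : ℤ) ∣ x + y := by
      have e : x * y * (x + y) = x * (y * (x + y)) := by ring
      rw [e] at h16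
      exact (cop16 hy2).dvd_of_dvd_mul_left ((cop16 hx2).dvd_of_dvd_mul_left h16)
    have e : x + y = e₃ - e₁ := by rw [hx, hy]; ring
    exact fin e₂ e₁ e₃ (by linarith) (by linarith) (by linarith) (by rw [← e]; exact h20)
      (fun h => hxy0 (by rw [e, h]; ring))

/-- the curve -/
def Vc (b c : ℤ) : WeierstrassCurve ℤ := ⟨1, (b - 1) / 4 - 4 * c, 0, -(b * c), 0⟩

lemma Vc_b2 {b c : ℤ} (hb : b % 4 = 1) : (Vc b c).b₂ = b - 16 * c := by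
  have : 4 * ((b - 1) / 4) = b - 1 := by omega
  unfold WeierstrassCurve.b₂ Vc
  linear_combination this

lemma Vc_b4 (b c : ℤ) : (Vc b c).b₄ = -(2 * b * c) := by
  unfold WeierstrassCurve.b₄ Vc
  ring

lemma Vc_b6 (b c : ℤ) : (Vc b c).b₆ = 0 := by
  unfold WeierstrassCurve.b₆ Vc
  ring

lemma Vc_b8 (b c : ℤ) : (Vc b c).b₈ = -(b ^ 2 * c ^ 2) := by
  unfold WeierstrassCurve.b₈ Vc
  ring

lemma Vc_c4 {b c : ℤ} (hb : b % 4 = 1) : (Vc b c).c₄ = C4 b c := by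
  unfold WeierstrassCurve.c₄ C4
  rw [Vc_b2 hb, Vc_b4]
  ring

lemma Vc_c6 {b c : ℤ} (hb : b % 4 = 1) : (Vc b c).c₆ = C6 b c := by
  unfold WeierstrassCurve.c₆ C6
  rw [Vc_b2 hb, Vc_b4, Vc_b6]
  ring

lemma Vc_disc {b c : ℤ} (hb : b % 4 = 1) : (Vc b c).Δ = Di b c := by
  unfold WeierstrassCurve.Δ Di
  rw [Vc_b2 hb, Vc_b4, Vc_b6, Vc_b8]
  ring

lemma Vc_full {b c : ℤ} (hb : b % 4 = 1) : Full (Vc b c) := by
  refine ⟨0, -(b : ℚ) / 4, 4 * (c : ℚ), fun x => ?_⟩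
  rw [Vc_b2 hb, Vc_b4, Vc_b6]
  push_cast
  ring

lemma Vc_semi {b c : ℤ} (h : Adm b c) : Semistable (Vc b c) := by
  obtain ⟨hb, hc0, ha0, hbc⟩ := h
  have hab := Adm.ab ⟨hb, hc0, ha0, hbc⟩
  have hb0 : b ≠ 0 := by omega
  constructor
  · rw [Vc_disc hb]
    unfold Di
    exact pow_ne_zero 2 (mul_ne_zero (mul_ne_zero ha0 hb0) hc0)
  · intro p hp hd h4
    rw [Vc_disc hb] at hd
    rw [Vc_c4 hb] at h4
    unfold Di at hd
    unfold C4 at h4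
    have hpi := Nat.prime_iff_prime_int.1 hp
    have hunit : ∀ x y : ℤ, IsCoprime x y → (p : ℤ) ∣ x → (p : ℤ) ∣ y → False := by
      intro x y h hx hy
      exact hpi.not_isUnit (h.isUnit_of_dvd' hx hy)
    have h2b : (p : ℤ) ∣ 2 → (p : ℤ) ∣ b → False := by
      intro h2 h3
      have h5 : p ∣ 2 := by exact_mod_cast h2
      have h6 : p = 2 := (Nat.prime_dvd_prime_iff_eq hp Nat.prime_two).1 h5
      rw [h6] at h3
      push_cast at h3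
      omega
    rcases hpi.dvd_or_dvd (hpi.dvd_of_dvd_pow hd) with h | h
    · rcases hpi.dvd_or_dvd h with h | h
      · refine hunit _ _ hab h (hpi.dvd_of_dvd_pow (n := 2) ?_)
        have e : b ^ 2 = (b ^ 2 + 16 * b * c + 256 * c ^ 2) - (b + 16 * c) * (16 * c) := by ring
        rw [e]
        exact dvd_sub h4 (h.mul_right _)
      · have e : 256 * c ^ 2 = (b ^ 2 + 16 * b * c + 256 * c ^ 2) - b * (b + 16 * c) := by ring
        have h5 : (p : ℤ) ∣ 256 * c ^ 2 := by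
          rw [e]
          exact dvd_sub h4 (h.mul_right _)
        rcases hpi.dvd_or_dvd h5 with h6 | h6
        · refine h2b (hpi.dvd_of_dvd_pow (n := 8) ?_) h
          norm_num
          exact h6
        · exact hunit _ _ hbc h (hpi.dvd_of_dvd_pow h6)
    · refine hunit _ _ hbc (hpi.dvd_of_dvd_pow (n := 2) ?_) h
      have e : b ^ 2 = (b ^ 2 + 16 * b * c + 256 * c ^ 2) - c * (16 * b + 256 * c) := by ring
      rw [e]
      exact dvd_sub h4 (h.mul_right _)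

/-- **the parameters are unique** -/
theorem inj {b c b' c' : ℤ} (h : Adm b c) (h' : Adm b' c') (hc : 0 < c) (hc' : 0 < c')
    (e4 : C4 b c = C4 b' c') (e6 : C6 b c = C6 b' c') : b = b' ∧ c = c' := by
  have key : ∀ t : ℤ, (t - (b - 16 * c)) * (t - (-2 * b - 16 * c)) * (t - (b + 32 * c)) =
      (t - (b' - 16 * c')) * (t - (-2 * b' - 16 * c')) * (t - (b' + 32 * c')) := by
    intro t
    have i1 : (t - (b - 16 * c)) * (t - (-2 * b - 16 * c)) * (t - (b + 32 * c)) =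
        t ^ 3 - 3 * C4 b c * t - 2 * C6 b c := by unfold C4 C6; ring
    have i2 : (t - (b' - 16 * c')) * (t - (-2 * b' - 16 * c')) * (t - (b' + 32 * c')) =
        t ^ 3 - 3 * C4 b' c' * t - 2 * C6 b' c' := by unfold C4 C6; ring
    rw [i1, i2, e4, e6]
  have hb := h.1
  have hb' := h'.1
  -- the even root
  have k1 := key (-2 * b' - 16 * c')
  have k1' : (-2 * b' - 16 * c' - (b - 16 * c)) * (-2 * b' - 16 * c' - (-2 * b - 16 * c)) *
      (-2 * b' - 16 * c' - (b + 32 * c)) = 0 := by rw [k1]; ring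
  have r2 : -2 * b' - 16 * c' = -2 * b - 16 * c := by
    rcases mul_eq_zero.1 k1' with h1 | h1
    · rcases mul_eq_zero.1 h1 with h2 | h2
      · omega
      · omega
    · omega
  have k3 := key (b' - 16 * c')
  have k3' : (b' - 16 * c' - (b - 16 * c)) * (b' - 16 * c' - (-2 * b - 16 * c)) *
      (b' - 16 * c' - (b + 32 * c)) = 0 := by rw [k3]; ring
  rcases mul_eq_zero.1 k3' with h1 | h1
  · rcases mul_eq_zero.1 h1 with h2 | h2
    · constructor <;> omega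
    · omega
  · omega

/-- the root number of the model -/
lemma Vc_w {b c : ℤ} (h : Adm b c) (hc : 0 < c) : wSemi (Vc b c) = w b c := by
  obtain ⟨b', c', h', hc', e4, e6, -, hw⟩ := cls (Vc_semi h) (Vc_full h.1)
  rw [Vc_c4 h.1] at e4
  rw [Vc_c6 h.1] at e6
  obtain ⟨rfl, rfl⟩ := inj h h' hc hc' e4 e6
  exact hw

end Pool.Agent.K1H81.RN
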