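import Pool.Agent.K1H81.RN.Cnt
import Pool.Agent.K1H81.RN.Cls

/-!
# From the boxes to the families (helper81)
-/

set_option autoImplicit false

namespace Pool.Agent.K1H81.RN

open Finset Filter Topology

lemma tame_pos : Tame 1 (fun _ y => 0 < y) := by
  refine ((PolyFn.cmul (-1) PolyFn.snd).tame (-1)).congr fun x y => ?_
  constructor <;> intro h <;> linarith

lemma emod_mem {M : ℕ} (hM : 0 < M) (b : ℤ) : b % M ∈ Ico (0 : ℤ) M := by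
  rw [mem_Ico]
  have h : (0 : ℤ) < M := by exact_mod_cast hM
  exact ⟨Int.emod_nonneg _ h.ne', Int.emod_lt_of_pos _ h⟩

/-- splitting into residue classes -/
lemma split_cls {M : ℕ} (hM : 0 < M) (Q : ℤ → ℤ → Prop) (G : ℤ → ℤ → Prop) (b c : ℤ)
    (G' : ℤ → ℤ → Prop) (hG : ∀ β γ, G' β γ ↔ (b % M = β ∧ c % M = γ ∧ G β γ)) :
    ind (Q (b % M) (c % M) ∧ G (b % M) (c % M)) =
      ∑ β ∈ Ico (0 : ℤ) M, ∑ γ ∈ Ico (0 : ℤ) M, ind (Q β γ) * ind (G' β γ) := by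
  rw [sum_eq_single (b % M)]
  · rw [sum_eq_single (c % M)]
    · rw [ind_and]
      congr 1
      refine ind_congr ?_
      rw [hG]
      simp
    · intro γ _ hne
      rw [ind_neg (P := G' (b % M) γ), mul_zero]
      intro h
      exact hne ((hG _ _).1 h).2.1.symm
    · intro h
      exact absurd (emod_mem hM c) h
  · intro β _ hne
    refine sum_eq_zero fun γ _ => ?_
    rw [ind_neg (P := G' β γ), mul_zero]
    intro h
    exact hne ((hG _ _).1 h).1.symm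
  · intro h
    exact absurd (emod_mem hM b) h

lemma bound_cls {M : ℕ} {X : ℕ} {ε : ℝ} (hM : 0 < M)
    {Q : ℤ → ℤ → Prop} {f : ℤ → ℤ → ℝ} {g : ℤ → ℤ → ℤ → ℤ → ℝ}
    (hf : ∀ b c, f b c = ∑ β ∈ Ico (0 : ℤ) M, ∑ γ ∈ Ico (0 : ℤ) M, ind (Q β γ) * g β γ b c)
    (hg : ∀ β γ, |∑ b ∈ Bx X, ∑ c ∈ Bx X, g β γ b c| ≤ ε / M ^ 2 * X ^ 2) :
    |∑ b ∈ Bx X, ∑ c ∈ Bx X, f b c| ≤ ε * X ^ 2 := by
  have hMr : (0 : ℝ) < M := by exact_mod_cast hM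
  have e : ∑ b ∈ Bx X, ∑ c ∈ Bx X, f b c = ∑ β ∈ Ico (0 : ℤ) M, ∑ γ ∈ Ico (0 : ℤ) M,
      ind (Q β γ) * ∑ b ∈ Bx X, ∑ c ∈ Bx X, g β γ b c := by
    simp only [hf]
    have sw : ∀ (h : ℤ → ℤ → ℤ → ℝ), ∑ b ∈ Bx X, ∑ c ∈ Bx X, ∑ β ∈ Ico (0 : ℤ) M, h β b c =
        ∑ β ∈ Ico (0 : ℤ) M, ∑ b ∈ Bx X, ∑ c ∈ Bx X, h β b c := by
      intro h
      have : ∀ b ∈ Bx X, ∑ c ∈ Bx X, ∑ β ∈ Ico (0 : ℤ) M, h β b c =
          ∑ β ∈ Ico (0 : ℤ) M, ∑ c ∈ Bx X, h β b c := fun b _ => sum_comm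
      rw [sum_congr rfl this, sum_comm]
    rw [sw]
    refine sum_congr rfl fun β _ => ?_
    rw [sw]
    refine sum_congr rfl fun γ _ => ?_
    simp only [mul_sum]
  rw [e]
  calc |∑ β ∈ Ico (0 : ℤ) M, ∑ γ ∈ Ico (0 : ℤ) M, ind (Q β γ) * ∑ b ∈ Bx X, ∑ c ∈ Bx X, g β γ b c|
      ≤ ∑ β ∈ Ico (0 : ℤ) M, ∑ γ ∈ Ico (0 : ℤ) M, ε / M ^ 2 * X ^ 2 := by
        refine (abs_sum_le_sum_abs _ _).trans (sum_le_sum fun β _ => ?_)
        refine (abs_sum_le_sum_abs _ _).trans (sum_le_sum fun γ _ => ?_)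
        rw [abs_mul]
        calc |ind (Q β γ)| * |∑ b ∈ Bx X, ∑ c ∈ Bx X, g β γ b c| ≤
            1 * |∑ b ∈ Bx X, ∑ c ∈ Bx X, g β γ b c| :=
              mul_le_mul_of_nonneg_right (ind_abs _) (abs_nonneg _)
          _ ≤ _ := by rw [one_mul]; exact hg β γ
    _ = ε * X ^ 2 := by
        simp only [sum_const, Int.card_Ico, nsmul_eq_mul]
        have : ((((M : ℤ) - 0).toNat : ℕ) : ℝ) = M := by simp
        rw [this]
        field_simp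

/-- **cancellation in the boxes** -/
theorem boxP {M : ℕ} (hM : 0 < M) (m : ℕ) {ε : ℝ} (hε : 0 < ε) :
    ∃ X0 : ℕ, ∀ X : ℕ, X0 ≤ X → ∀ (Q : ℤ → ℤ → Prop) (R : ℤ → ℤ → ℤ → ℤ → Prop),
      (∀ β γ, Tame m (R β γ)) →
      |∑ b ∈ Bx X, ∑ c ∈ Bx X, ind (Q (b % M) (c % M) ∧ (Adm b c ∧ 0 < c ∧
        R (b % M) (c % M) b c)) * (w b c : ℝ)| ≤ ε * X ^ 2 := by
  have hMr : (0 : ℝ) < M := by exact_mod_cast hM
  obtain ⟨X0, h0⟩ := boxA hM (1 + m) (ε := ε / M ^ 2) (by positivity)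
  refine ⟨X0, fun X hX Q R hR => ?_⟩
  refine bound_cls hM (Q := Q) (g := fun β γ b c =>
    ind (Fm M β γ (fun b c => 0 < c ∧ R β γ b c) b c) * (w b c : ℝ)) (fun b c => ?_)
    (fun β γ => h0 X hX β γ _ (tame_pos.and (hR β γ)))
  rw [split_cls hM Q (fun β γ => Adm b c ∧ 0 < c ∧ R β γ b c) b c
    (fun β γ => Fm M β γ (fun b c => 0 < c ∧ R β γ b c) b c), sum_mul]
  · refine sum_congr rfl fun β _ => ?_
    rw [sum_mul]
    refine sum_congr rfl fun γ _ => ?_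
    rw [mul_assoc]
  · intro β γ
    unfold Fm Adm
    tauto

/-- **cancellation in the boxes, given quotients by the radicals** -/
theorem boxK {k l j M : ℕ} (hl : 0 < l) (hM : 0 < M) (m : ℕ) {ε : ℝ} (hε : 0 < ε) :
    ∃ X0 : ℕ, ∀ X : ℕ, X0 ≤ X → ∀ (Q : ℤ → ℤ → Prop) (R : ℤ → ℤ → ℤ → ℤ → Prop),
      (∀ β γ, Tame m (R β γ)) →
      |∑ b ∈ Bx X, ∑ c ∈ Bx X, ind (Q (b % M) (c % M) ∧ (Adm b c ∧ 0 < c ∧
        (q2 b = k ∧ q2 (b + 16 * c) = l ∧ q2 c = j) ∧ R (b % M) (c % M) b c)) * (w b c : ℝ)|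
        ≤ ε * X ^ 2 := by
  have hMr : (0 : ℝ) < M := by exact_mod_cast hM
  obtain ⟨X0, h0⟩ := core (k := k) (j := j) hl hM (1 + (m + 1)) (ε := ε / M ^ 2 / 2) (by positivity)
  refine ⟨X0, fun X hX Q R hR => ?_⟩
  have key : ∀ (s : ℤ) (β γ : ℤ), |∑ b ∈ Bx X, ∑ c ∈ Bx X,
      ind (Cd k l j M β γ (fun b c => 0 < c ∧ R β γ b c ∧ (s < 0 ↔ b + 16 * c < 0)) b c) *
      (w b c : ℝ)| ≤ ε / M ^ 2 / 2 * X ^ 2 := fun s β γ =>
    h0 X hX β γ s _ (tame_pos.and ((hR β γ).and (tame_sign s))) fun b c h => h.2.2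
  refine bound_cls hM (Q := Q) (g := fun β γ b c =>
    ind (Cd k l j M β γ (fun b c => 0 < c ∧ R β γ b c ∧ ((1 : ℤ) < 0 ↔ b + 16 * c < 0)) b c) *
      (w b c : ℝ) +
    ind (Cd k l j M β γ (fun b c => 0 < c ∧ R β γ b c ∧ ((-1 : ℤ) < 0 ↔ b + 16 * c < 0)) b c) *
      (w b c : ℝ)) (fun b c => ?_) (fun β γ => ?_)
  · by_cases ha : b + 16 * c < 0
    · rw [split_cls hM Q (fun β γ => Adm b c ∧ 0 < c ∧
        (q2 b = k ∧ q2 (b + 16 * c) = l ∧ q2 c = j) ∧ R β γ b c) b c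
        (fun β γ => Cd k l j M β γ (fun b c => 0 < c ∧ R β γ b c ∧
          ((-1 : ℤ) < 0 ↔ b + 16 * c < 0)) b c), sum_mul]
      · refine sum_congr rfl fun β _ => ?_
        rw [sum_mul]
        refine sum_congr rfl fun γ _ => ?_
        rw [ind_neg (P := Cd k l j M β γ (fun b c => 0 < c ∧ R β γ b c ∧
          ((1 : ℤ) < 0 ↔ b + 16 * c < 0)) b c), zero_mul, zero_add, mul_assoc]
        intro h
        have := h.2.2.2.2.2.2.2.2.2.2.2.2 ha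
        omega
      · intro β γ
        have h1 : ((-1 : ℤ) < 0 ↔ b + 16 * c < 0) := by simp [ha]
        unfold Cd Adm
        tauto
    · rw [split_cls hM Q (fun β γ => Adm b c ∧ 0 < c ∧
        (q2 b = k ∧ q2 (b + 16 * c) = l ∧ q2 c = j) ∧ R β γ b c) b c
        (fun β γ => Cd k l j M β γ (fun b c => 0 < c ∧ R β γ b c ∧
          ((1 : ℤ) < 0 ↔ b + 16 * c < 0)) b c), sum_mul]
      · refine sum_congr rfl fun β _ => ?_
        rw [sum_mul]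
        refine sum_congr rfl fun γ _ => ?_
        rw [ind_neg (P := Cd k l j M β γ (fun b c => 0 < c ∧ R β γ b c ∧
          ((-1 : ℤ) < 0 ↔ b + 16 * c < 0)) b c), zero_mul, add_zero, mul_assoc]
        intro h
        exact ha (h.2.2.2.2.2.2.2.2.2.2.2.1 (by norm_num))
      · intro β γ
        have h1 : ((1 : ℤ) < 0 ↔ b + 16 * c < 0) := by simp [ha]
        unfold Cd Adm
        tauto
  · simp only [sum_add_distrib]
    refine (abs_add_le _ _).trans ?_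
    have h1 := key 1 β γ
    have h2 := key (-1) β γ
    have : ε / M ^ 2 * (X : ℝ) ^ 2 = ε / M ^ 2 / 2 * X ^ 2 + ε / M ^ 2 / 2 * X ^ 2 := by ring
    rw [this]
    exact add_le_add h1 h2

/-- a sum over a finite set of pairs as a sum over a box -/
lemma sum_F {P : ℤ → ℤ → Prop} {F : Finset (ℤ × ℤ)} (hF : ∀ b c, (b, c) ∈ F ↔ P b c) {N : ℕ}
    (hN : ∀ b c, P b c → b ∈ Bx N ∧ c ∈ Bx N) (f : ℤ → ℤ → ℝ) :
    ∑ z ∈ F, f z.1 z.2 = ∑ b ∈ Bx N, ∑ c ∈ Bx N, ind (P b c) * f b c := by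
  classical
  rw [← sum_product']
  have e : F = (Bx N ×ˢ Bx N).filter (fun z => P z.1 z.2) := by
    ext ⟨b, c⟩
    rw [mem_filter, mem_product, hF]
    constructor
    · intro h; exact ⟨hN b c h, h⟩
    · rintro ⟨-, h⟩; exact h
  rw [e, sum_filter]
  refine sum_congr rfl fun z _ => ?_
  by_cases h : P z.1 z.2
  · rw [if_pos h, ind_pos h, one_mul]
  · rw [if_neg h, ind_neg h, zero_mul]

/-- the congruence conditions -/
def Cg (m : ℕ) (r s : ℤ) (b c : ℤ) : Prop := C4 b c ≡ r [ZMOD m] ∧ C6 b c ≡ s [ZMOD m]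

lemma C4_mod {n b c b' c' : ℤ} (hb : b ≡ b' [ZMOD n]) (hc : c ≡ c' [ZMOD n]) :
    C4 b c ≡ C4 b' c' [ZMOD n] := by
  unfold C4
  exact ((hb.pow 2).add ((hb.mul_left 16).mul hc)).add ((hc.pow 2).mul_left 256)

lemma C6_mod {n b c b' c' : ℤ} (hb : b ≡ b' [ZMOD n]) (hc : c ≡ c' [ZMOD n]) :
    C6 b c ≡ C6 b' c' [ZMOD n] := by
  unfold C6
  exact (((hb.sub (hc.mul_left 16))).mul
    (((hb.pow 2).add ((hb.mul_left 40).mul hc)).add ((hc.pow 2).mul_left 256))).neg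

lemma Cg_mod {m : ℕ} {r s b c b' c' : ℤ} (hb : b ≡ b' [ZMOD m]) (hc : c ≡ c' [ZMOD m])
    (h : Cg m r s b' c') : Cg m r s b c :=
  ⟨(C4_mod hb hc).trans h.1, (C6_mod hb hc).trans h.2⟩

lemma Cg_emod {m M : ℕ} (hmM : m ∣ M) {r s b c : ℤ} : Cg m r s (b % M) (c % M) ↔ Cg m r s b c := by
  have hd : (m : ℤ) ∣ (M : ℤ) := Int.natCast_dvd_natCast.2 hmM
  have h1 : b % M ≡ b [ZMOD m] := (Int.mod_modEq b M).of_dvd hd
  have h2 : c % M ≡ c [ZMOD m] := (Int.mod_modEq c M).of_dvd hd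
  exact ⟨fun h => Cg_mod h1.symm h2.symm h, fun h => Cg_mod h1 h2 h⟩

/-- **many curves in a residue class** -/
theorem low {m : ℕ} (hm : 0 < m) {r s b0 c0 : ℤ} (h0 : Adm b0 c0) (hcg : Cg m r s b0 c0) :
    ∃ δ : ℝ, 0 < δ ∧ ∃ Y0 : ℕ, ∀ Y : ℕ, Y0 ≤ Y → ∀ F : Finset (ℤ × ℤ),
      (∀ b c : ℤ, Adm b c → 0 < b → b ≤ Y → 0 < c → c ≤ Y → (b, c) ∈ F) →
      δ * (Y : ℝ) ^ 2 ≤ ∑ z ∈ F, ind (Cg m r s z.1 z.2) := by
  classical
  have hmr : (0 : ℝ) < m := by exact_mod_cast hm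
  obtain ⟨Y0, hY0⟩ := many (M := 4 * m) (by omega) (β := b0) (γ := c0) (by have := h0.1; omega)
    ⟨2 * m, by ring⟩ (by
      rintro p hp - ⟨h1, h2⟩
      exact (Nat.prime_iff_prime_int.1 hp).not_isUnit (h0.2.2.2.isUnit_of_dvd' h1 h2))
  refine ⟨1 / (4 * (4 * m : ℝ) ^ 2), by positivity, Y0, fun Y hY F hF => ?_⟩
  have h1 := hY0 Y hY
  push_cast at h1
  have e : 1 / (4 * (4 * (m : ℝ)) ^ 2) * (Y : ℝ) ^ 2 = (Y : ℝ) ^ 2 / (4 * (4 * (m : ℝ)) ^ 2) := by ring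
  rw [e]
  refine h1.trans ?_
  rw [← sum_product']
  have h2 : ∑ z ∈ Ioc (0 : ℤ) Y ×ˢ Ioc (0 : ℤ) Y,
      ind (z.1 ≡ b0 [ZMOD 4 * m] ∧ z.2 ≡ c0 [ZMOD 4 * m] ∧ IsCoprime z.1 z.2) =
      ∑ z ∈ (Ioc (0 : ℤ) Y ×ˢ Ioc (0 : ℤ) Y).filter (fun z => z.1 ≡ b0 [ZMOD 4 * m] ∧
        z.2 ≡ c0 [ZMOD 4 * m] ∧ IsCoprime z.1 z.2), 1 := by
    rw [sum_filter]
    refine sum_congr rfl fun z _ => ?_
    by_cases h : z.1 ≡ b0 [ZMOD 4 * m] ∧ z.2 ≡ c0 [ZMOD 4 * m] ∧ IsCoprime z.1 z.2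
    · rw [if_pos h, ind_pos h]
    · rw [if_neg h, ind_neg h]
  rw [h2]
  have h3 : ∀ z ∈ (Ioc (0 : ℤ) Y ×ˢ Ioc (0 : ℤ) Y).filter (fun z => z.1 ≡ b0 [ZMOD 4 * m] ∧
        z.2 ≡ c0 [ZMOD 4 * m] ∧ IsCoprime z.1 z.2), z ∈ F ∧ (1 : ℝ) = ind (Cg m r s z.1 z.2) := by
    rintro ⟨b, c⟩ hz
    rw [mem_filter, mem_product, mem_Ioc, mem_Ioc] at hz
    obtain ⟨⟨hb, hc⟩, hb', hc', hbc⟩ := hz
    simp only at hb hc hb' hc' hbc
    have hb4 : b ≡ b0 [ZMOD 4] := hb'.of_dvd ⟨m, rfl⟩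
    have hbm : b ≡ b0 [ZMOD m] := hb'.of_dvd ⟨4, by ring⟩
    have hcm : c ≡ c0 [ZMOD m] := hc'.of_dvd ⟨4, by ring⟩
    have hadm : Adm b c := ⟨by rw [hb4]; exact h0.1, by omega, by omega, hbc⟩
    exact ⟨hF b c hadm hb.1 hb.2 hc.1 hc.2, (ind_pos (Cg_mod hbm hcm hcg)).symm⟩
  rw [sum_congr rfl fun z hz => (h3 z hz).2]
  exact sum_le_sum_of_subset_of_nonneg (fun z hz => (h3 z hz).1) fun _ _ _ => ind_nonneg _

lemma kap_pm {x : ℤ} {p : ℕ} (hp : p.Prime) (hx : ¬ (p : ℤ) ∣ x) : kap x p = 1 ∨ kap x p = -1 := by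
  unfold kap
  split_ifs with h1 h2
  · exact Or.inl rfl
  · exact Or.inr rfl
  · have hg : x.gcd p = 1 := by
      rw [← Int.isCoprime_iff_gcd_eq_one]
      exact ((Nat.prime_iff_prime_int.1 hp).coprime_iff_not_dvd.2 hx).symm
    exact jacobiSym.eq_one_or_neg_one hg

lemma U_pm {n x : ℤ} (h : IsCoprime n x) : U n x = 1 ∨ U n x = -1 := by
  unfold U
  have : ∀ S ⊆ n.natAbs.primeFactors, ∏ p ∈ S, (-kap x p) = 1 ∨ ∏ p ∈ S, (-kap x p) = -1 := by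
    classical
    intro S
    induction S using Finset.induction_on with
    | empty => intro _; left; simp
    | insert p S hp ih =>
      intro hS
      obtain ⟨hpp, hpd⟩ := mem_pf (hS (mem_insert_self _ _))
      have hx : ¬ (p : ℤ) ∣ x := fun hx =>
        (Nat.prime_iff_prime_int.1 hpp).not_isUnit (h.isUnit_of_dvd' hpd hx)
      rw [prod_insert hp]
      rcases ih (fun q hq => hS (mem_insert_of_mem hq)) with h1 | h1 <;>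
        rcases kap_pm hpp hx with h2 | h2 <;> rw [h1, h2] <;> norm_num
  exact this _ (Subset.refl _)

lemma w_pm {b c : ℤ} (h : Adm b c) : w b c = 1 ∨ w b c = -1 := by
  unfold w
  have h1 := U_pm (h.ab.neg_right)
  have h2 := U_pm (h.ab.symm.neg_right)
  have h3 := U_pm (h.2.2.2.symm)
  rcases h1 with h1 | h1 <;> rcases h2 with h2 | h2 <;> rcases h3 with h3 | h3 <;>
    rw [h1, h2, h3] <;> norm_num

end Pool.Agent.K1H81.RN
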