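import Pool.Agent.K1H81.RN.Cdr2

/-!
# The pairs `(c₄, c₆)` are the isomorphism classes (helper81)
-/

set_option autoImplicit false

namespace Pool.Agent.K1H81.RN

open Finset Filter Topology

lemma three_not {b c : ℤ} (h : Adm b c) (h3 : (3 : ℤ) ∣ b - c) : ¬ (9 : ℤ) ∣ C4 b c := by
  intro h9
  obtain ⟨x, e1, -, e3⟩ := three_C4 h3
  have hx : (3 : ℤ) ∣ x := by
    rw [e1] at h9
    have e : (9 : ℤ) = 3 * 3 := by norm_num
    rw [e] at h9
    exact Int.dvd_of_mul_dvd_mul_left (by norm_num) h9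
  have hc : (3 : ℤ) ∣ c ^ 2 := by
    have := dvd_sub hx e3
    have e : x - (x - c ^ 2) = c ^ 2 := by ring
    rwa [e] at this
  have hc' : (3 : ℤ) ∣ c := Int.prime_three.dvd_of_dvd_pow hc
  have hb' : (3 : ℤ) ∣ b := by
    have := dvd_add h3 hc'
    rwa [sub_add_cancel] at this
  exact Int.prime_three.not_isUnit (h.2.2.2.isUnit_of_dvd' hb' hc')

lemma SA_neg {b c : ℤ} (h : Adm b c) : SA b c < 0 := by
  have h1 := C4_pos h
  by_cases h3 : (3 : ℤ) ∣ b - c
  · have := SA_eq h3; omega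
  · have := SA_eq' h3; omega

/-- a short equation of `W` is a multiple of the minimal one -/
lemma short_mult {W : WeierstrassCurve ℤ} {b c : ℤ} (h : Adm b c) (h4 : W.c₄ = C4 b c)
    (h6 : W.c₆ = C6 b c) {A B : ℤ} {C : WeierstrassCurve.VariableChange ℚ}
    (hC : C • (W.map (Int.castRingHom ℚ)) = (⟨0, 0, 0, (A : ℚ), (B : ℚ)⟩ : WeierstrassCurve ℚ)) :
    ∃ u : ℤ, u ≠ 0 ∧ A = u ^ 4 * SA b c ∧ B = u ^ 6 * SB b c := by
  obtain ⟨t0, ht0, hA0, hB0⟩ := S_spec b c
  obtain ⟨t, ht, hA, hB⟩ := short_inv hC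
  rw [h4] at hA
  rw [h6] at hB
  obtain ⟨v, hv⟩ : ∃ v : ℚ, v = t / t0 := ⟨_, rfl⟩
  have hv0 : v ≠ 0 := by rw [hv]; exact div_ne_zero ht ht0
  have htv : t = v * t0 := by rw [hv]; field_simp
  have eA : (A : ℚ) = v ^ 4 * SA b c := by
    rw [htv] at hA
    linear_combination (1 / 48) * hA - (v ^ 4 / 48) * hA0
  have eB : (B : ℚ) = v ^ 6 * SB b c := by
    rw [htv] at hB
    linear_combination (1 / 864) * hB - (v ^ 6 / 864) * hB0
  have hden := S_dvd h eA eB
  have hvn : v = (v.num : ℚ) := (Rat.den_eq_one_iff v).1 hden |>.symm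
  refine ⟨v.num, Rat.num_ne_zero.2 hv0, ?_, ?_⟩
  · rw [hvn] at eA
    exact_mod_cast eA
  · rw [hvn] at eB
    exact_mod_cast eB

/-- **isomorphism** -/
theorem iso_iff {W W' : WeierstrassCurve ℤ} (hs : Semistable W) (hf : Full W) (hs' : Semistable W')
    (hf' : Full W') : (∃ C : WeierstrassCurve.VariableChange ℚ,
      C • (W.map (Int.castRingHom ℚ)) = W'.map (Int.castRingHom ℚ)) ↔
      (W.c₄ = W'.c₄ ∧ W.c₆ = W'.c₆) := by
  obtain ⟨b, c, hadm, hc, e4, e6, -, -⟩ := cls hs hf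
  obtain ⟨b', c', hadm', hc', e4', e6', -, -⟩ := cls hs' hf'
  obtain ⟨t, ht, hA, hB⟩ := S_spec b c
  obtain ⟨C₁, hC₁⟩ := short_exists W t ht _ _ (by rw [e4]; exact hA) (by rw [e6]; exact hB)
  obtain ⟨t', ht', hA', hB'⟩ := S_spec b' c'
  obtain ⟨C₂, hC₂⟩ := short_exists W' t' ht' _ _ (by rw [e4']; exact hA') (by rw [e6']; exact hB')
  constructor
  · rintro ⟨C, hC⟩
    -- the minimal short equations are multiples of one another
    have k1 : (C₁ * C⁻¹) • (W'.map (Int.castRingHom ℚ)) =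
        (⟨0, 0, 0, (SA b c : ℚ), (SB b c : ℚ)⟩ : WeierstrassCurve ℚ) := by
      rw [← hC, mul_smul, inv_smul_smul, hC₁]
    have k2 : (C₂ * C) • (W.map (Int.castRingHom ℚ)) =
        (⟨0, 0, 0, (SA b' c' : ℚ), (SB b' c' : ℚ)⟩ : WeierstrassCurve ℚ) := by
      rw [mul_smul, hC, hC₂]
    obtain ⟨u, hu, uA, uB⟩ := short_mult hadm' e4' e6' k1
    obtain ⟨v, hv, vA, vB⟩ := short_mult hadm e4 e6 k2
    have hn := SA_neg hadm
    have hn' := SA_neg hadm'
    have hu4 : 1 ≤ u ^ 4 := by have : 0 < u ^ 4 := by positivity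
                               omega
    have hv4 : 1 ≤ v ^ 4 := by have : 0 < v ^ 4 := by positivity
                               omega
    have hAA : SA b c = SA b' c' := by nlinarith
    have hu1 : u ^ 4 = 1 := by
      have : (u ^ 4 - 1) * SA b' c' = 0 := by rw [sub_mul, ← uA, hAA]; ring
      rcases mul_eq_zero.1 this with h | h
      · linarith
      · omega
    have hu6 : u ^ 6 = 1 := by
      have h2 : u ^ 2 = 1 := by
        have h3 : (u ^ 2 - 1) * (u ^ 2 + 1) = 0 := by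
          have e : (u ^ 2 - 1) * (u ^ 2 + 1) = u ^ 4 - 1 := by ring
          rw [e, hu1]; norm_num
        rcases mul_eq_zero.1 h3 with h | h
        · linarith
        · nlinarith [sq_nonneg u]
      have e : u ^ 6 = (u ^ 2) ^ 3 := by ring
      rw [e, h2]; norm_num
    have hBB : SB b c = SB b' c' := by rw [uB, hu6, one_mul]
    rw [e4, e4', e6, e6']
    by_cases g : (3 : ℤ) ∣ b - c <;> by_cases g' : (3 : ℤ) ∣ b' - c'
    · have := SA_eq g
      have := SA_eq g'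
      have := SB_eq g
      have := SB_eq g'
      constructor <;> linarith
    · exfalso
      apply three_not hadm g
      have i1 := SA_eq g
      have i2 := SA_eq' g'
      exact ⟨9 * C4 b' c', by linarith⟩
    · exfalso
      apply three_not hadm' g'
      have i1 := SA_eq' g
      have i2 := SA_eq g'
      exact ⟨9 * C4 b c, by linarith⟩
    · have := SA_eq' g
      have := SA_eq' g'
      have := SB_eq' g
      have := SB_eq' g'
      constructor <;> linarith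
  · rintro ⟨g4, g6⟩
    obtain ⟨rfl, rfl⟩ := inj hadm hadm' hc hc' (by rw [← e4, ← e4', g4]) (by rw [← e6, ← e6', g6])
    refine ⟨C₂⁻¹ * C₁, ?_⟩
    rw [mul_smul, hC₁, ← hC₂, inv_smul_smul]

/-- **the invariants of the isomorphism class** -/
theorem invariant {W W' : WeierstrassCurve ℤ} (hs : Semistable W) (hf : Full W) (hs' : Semistable W')
    (hf' : Full W') (g4 : W.c₄ = W'.c₄) (g6 : W.c₆ = W'.c₆) :
    wSemi W = wSemi W' ∧ height W = height W' ∧ W.Δ = W'.Δ ∧ cond W = cond W' := by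
  obtain ⟨b, c, hadm, hc, e4, e6, eD, ew⟩ := cls hs hf
  obtain ⟨b', c', hadm', hc', e4', e6', eD', ew'⟩ := cls hs' hf'
  obtain ⟨rfl, rfl⟩ := inj hadm hadm' hc hc' (by rw [← e4, ← e4', g4]) (by rw [← e6, ← e6', g6])
  refine ⟨by rw [ew, ew'], ?_, by rw [eD, eD'], ?_⟩
  · rw [height_eq hadm e4 e6, height_eq hadm e4' e6']
  · rw [cond_eq hadm eD, cond_eq hadm eD']

/-- **The theorem.** -/
theorem main {H : WeierstrassCurve ℤ → ℕ}
    (hH : H = height ∨ H = (fun W => W.Δ.natAbs) ∨ H = cond) {m : ℕ} (hm : 0 < m) {r s : ℤ}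
    (hex : ∃ W : WeierstrassCurve ℤ, Semistable W ∧ Full W ∧ W.c₄ ≡ r [ZMOD m] ∧ W.c₆ ≡ s [ZMOD m]) :
    (∀ Z, (Fam H m r s (fun _ => True) Z).Finite) ∧
    Tendsto (fun Z => (Fam H m r s (fun _ => True) Z).ncard) atTop atTop ∧
    ∀ e : ℤ, e = 1 ∨ e = -1 →
      Tendsto (fun Z => ((Fam H m r s (fun w => w = e) Z).ncard : ℝ) /
        ((Fam H m r s (fun _ => True) Z).ncard : ℝ)) atTop (𝓝 (1 / 2)) := by
  obtain ⟨W, hs, hf, h4, h6⟩ := hex
  obtain ⟨b, c, hadm, hc, e4, e6, -, -⟩ := cls hs hf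
  have hcg : Cg m r s b c := ⟨by rw [← e4]; exact h4, by rw [← e6]; exact h6⟩
  rcases hH with rfl | rfl | rfl
  · exact main_height hm hadm hcg
  · exact main_disc hm hadm hcg
  · exact main_cond hm hadm hcg

theorem nonempty : ∃ W : WeierstrassCurve ℤ, Semistable W ∧ Full W :=
  ⟨Vc 1 1, Vc_semi ⟨by norm_num, by norm_num, by norm_num, isCoprime_one_left⟩, Vc_full (by norm_num)⟩

end Pool.Agent.K1H81.RN
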