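import Pool.Agent.K1H81.RN.Dsc
import Pool.Agent.Y679.Dist

/-!
# The conductor: few curves whose discriminant is much larger than the square of the conductor
(helper81; the estimate is `Pool.Agent.Y679.Par.Ml_le` of the library)
-/

set_option autoImplicit false

namespace Pool.Agent.K1H81.RN

open Finset Filter Topology Pool.Agent.H925R.Szpiro Pool.Agent.Y679.Cur Pool.Agent.Y679.Par

/-- the conductor in terms of the parameters -/
def cnd (b c : ℤ) : ℕ := rd (b + 16 * c) * rd b * rd c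

lemma cond_eq {W : WeierstrassCurve ℤ} {b c : ℤ} (h : Adm b c) (hD : W.Δ = Di b c) :
    cond W = cnd b c := by
  unfold cond cnd rd
  rw [hD, prod_Di h]

lemma cnd_pos (b c : ℤ) : 0 < cnd b c := Nat.mul_pos (Nat.mul_pos (rd_pos _) (rd_pos _)) (rd_pos _)

lemma cnd_mul {b c : ℤ} (h : Adm b c) : ((cnd b c * (q2 b * q2 (b + 16 * c) * q2 c) : ℕ) : ℤ) =
    |b| * |c| * |b + 16 * c| := by
  have h1 := rd_mul_q2 h.b0
  have h2 := rd_mul_q2 h.2.1
  have h3 := rd_mul_q2 h.2.2.1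
  rw [Int.abs_eq_natAbs, Int.abs_eq_natAbs, Int.abs_eq_natAbs, ← h1, ← h2, ← h3]
  unfold cnd
  push_cast
  ring

/-- the model of the library -/
def mA (b c : ℤ) : ℤ := -SA b c

/-- the model of the library -/
def mB (b c : ℤ) : ℤ := -SB b c

lemma mD {b c : ℤ} : ∃ κ : ℤ, 16 ≤ κ ∧ D (mA b c) (mB b c) = κ ^ 2 * Di b c ∧
    ∀ p : ℕ, p.Prime → 5 ≤ p → ¬ (p : ℤ) ∣ κ := by
  have hp' : ∀ (p : ℕ), p.Prime → 5 ≤ p → ∀ i j : ℕ, ¬ (p : ℤ) ∣ 2 ^ i * 3 ^ j := by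
    intro p hp h5 i j h
    have h1 : p ∣ 2 ^ i * 3 ^ j := by exact_mod_cast h
    rcases (Nat.Prime.dvd_mul hp).1 h1 with h2 | h2
    · have := Nat.le_of_dvd (by norm_num) (hp.dvd_of_dvd_pow h2); omega
    · have := Nat.le_of_dvd (by norm_num) (hp.dvd_of_dvd_pow h2); omega
  have e := C4_C6 b c
  by_cases h3 : (3 : ℤ) ∣ b - c
  · refine ⟨16, le_rfl, ?_, fun p hp h5 => by simpa using hp' p hp h5 4 0⟩
    have e1 := SA_eq h3
    have e2 := SB_eq h3
    unfold D mA mB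
    have f1 : C4 b c = -3 * SA b c := by linarith
    have f2 : 2 * C6 b c = -27 * SB b c := by linarith
    have f3 : 4 * C4 b c ^ 3 - (2 * C6 b c) ^ 2 = 6912 * Di b c := by linarith
    rw [f1, f2] at f3
    linarith
  · refine ⟨11664, by norm_num, ?_, fun p hp h5 => by simpa using hp' p hp h5 4 6⟩
    unfold D mA mB
    rw [SA_eq' h3, SB_eq' h3]
    linear_combination 78732 * e

lemma m_min {b c : ℤ} (h : Adm b c) : IsMin (mA b c) (mB b c) := by
  obtain ⟨κ, hκ, hD, -⟩ := mD (b := b) (c := c)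
  have hDi : 0 < Di b c := by
    unfold Di
    have := h.b0
    have := h.2.1
    have := h.2.2.1
    positivity
  have hD0 : 0 < D (mA b c) (mB b c) := by rw [hD]; positivity
  refine ⟨hD0.ne', fun u a' b' hu ha hb => ?_⟩
  have hden := S_dvd h (v := u) (A := -a') (B := -b') (by push_cast; rw [ha]; unfold mA; push_cast; ring)
    (by push_cast; rw [hb]; unfold mB; push_cast; ring)
  have hun : u = (u.num : ℚ) := (Rat.den_eq_one_iff u).1 hden |>.symm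
  have hn0 : u.num ≠ 0 := Rat.num_ne_zero.2 hu
  have ea : a' = u.num ^ 4 * mA b c := by
    rw [hun] at ha
    exact_mod_cast ha
  have eb : b' = u.num ^ 6 * mB b c := by
    rw [hun] at hb
    exact_mod_cast hb
  have e : D a' b' = u.num ^ 12 * D (mA b c) (mB b c) := by
    rw [ea, eb]
    unfold D
    ring
  rw [e, abs_mul]
  have h1 : 1 ≤ |u.num ^ 12| := by
    have : 0 < |u.num ^ 12| := abs_pos.2 (pow_ne_zero _ hn0)
    omega
  have h2 := abs_nonneg (D (mA b c) (mB b c))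
  nlinarith

lemma m_full (b c : ℤ) : FullS (mA b c) (mB b c) := by
  by_cases h3 : (3 : ℤ) ∣ b - c
  · refine ⟨((b : ℚ) - 16 * c) / 3, (-2 * b - 16 * c) / 3, (b + 32 * c) / 3, fun x => ?_⟩
    have e1 : (3 : ℚ) * SA b c = -C4 b c := by exact_mod_cast SA_eq h3
    have e2 : (27 : ℚ) * SB b c = -(2 * C6 b c) := by exact_mod_cast SB_eq h3
    unfold mA mB
    have f1 : (SA b c : ℚ) = -(((b : ℚ) ^ 2 + 16 * b * c + 256 * c ^ 2)) / 3 := by
      have : ((C4 b c : ℤ) : ℚ) = (b : ℚ) ^ 2 + 16 * b * c + 256 * c ^ 2 := by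
        unfold C4; push_cast; ring
      rw [← this]
      linarith
    have f2 : (SB b c : ℚ) = 2 * (((b : ℚ) - 16 * c) * (b ^ 2 + 40 * b * c + 256 * c ^ 2)) / 27 := by
      have : ((C6 b c : ℤ) : ℚ) = -(((b : ℚ) - 16 * c) * (b ^ 2 + 40 * b * c + 256 * c ^ 2)) := by
        unfold C6; push_cast; ring
      have h5 : (27 : ℚ) * SB b c = 2 * (((b : ℚ) - 16 * c) * (b ^ 2 + 40 * b * c + 256 * c ^ 2)) := by
        rw [e2, this]; ring
      linarith
    push_cast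
    rw [f1, f2]
    ring
  · refine ⟨3 * ((b : ℚ) - 16 * c), 3 * (-2 * b - 16 * c), 3 * (b + 32 * c), fun x => ?_⟩
    unfold mA mB
    rw [SA_eq' h3, SB_eq' h3]
    unfold C4 C6
    push_cast
    ring

lemma m_cond {b c : ℤ} (h : Adm b c) : condS (mA b c) (mB b c) ≤ cnd b c := by
  obtain ⟨κ, hκ, hD, hp5⟩ := mD (b := b) (c := c)
  have hDi : 0 < Di b c := by
    unfold Di
    have := h.b0
    have := h.2.1
    have := h.2.2.1
    positivity
  have e1 : cnd b c = ∏ p ∈ (Di b c).natAbs.primeFactors, p := by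
    rw [prod_Di h]
    rfl
  rw [e1]
  unfold condS
  have key : ∀ p ∈ (D (mA b c) (mB b c)).natAbs.primeFactors.filter (fun p => 5 ≤ p),
      p ∈ (Di b c).natAbs.primeFactors ∧ (if (p : ℤ) ∣ mA b c then p ^ 2 else p) = p := by
    intro p hp
    obtain ⟨hp1, h5⟩ := mem_filter.1 hp
    obtain ⟨hpp, hpd⟩ := mem_pf hp1
    have hpi := Nat.prime_iff_prime_int.1 hpp
    have hd : (p : ℤ) ∣ Di b c := by
      rw [hD] at hpd
      rcases hpi.dvd_or_dvd hpd with h6 | h6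
      · exact absurd (hpi.dvd_of_dvd_pow h6) (hp5 p hpp h5)
      · exact h6
    have hn4 : ¬ (p : ℤ) ∣ C4 b c := by
      have := (Vc_semi h).2 p hpp (by rw [Vc_disc h.1]; exact hd)
      rwa [Vc_c4 h.1] at this
    refine ⟨Nat.mem_primeFactors.2 ⟨hpp, Int.natCast_dvd.1 hd, by
      have := hDi.ne'
      exact Int.natAbs_ne_zero.2 this⟩, ?_⟩
    rw [if_neg]
    intro hA
    apply hn4
    unfold mA at hA
    rw [dvd_neg] at hA
    by_cases h3 : (3 : ℤ) ∣ b - c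
    · have e := SA_eq h3
      have : (p : ℤ) ∣ -C4 b c := by rw [← e]; exact hA.mul_left _
      exact (dvd_neg).1 this
    · rw [SA_eq' h3, dvd_neg] at hA
      rcases hpi.dvd_or_dvd hA with h6 | h6
      · exfalso
        have h7 : (p : ℤ) ∣ 3 ^ 3 := by norm_num; exact h6
        have h8 : p ∣ 3 ^ 3 := by exact_mod_cast h7
        have := Nat.le_of_dvd (by norm_num) (hpp.dvd_of_dvd_pow h8)
        omega
      · exact h6
  rw [prod_congr rfl fun p hp => (key p hp).2]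
  exact prod_le_prod_of_subset_of_one_le' (fun p hp => (key p hp).1)
    fun p hp _ => (Nat.prime_of_mem_primeFactors hp).one_lt.le

lemma m_inj {b c b' c' : ℤ} (h : Adm b c) (h' : Adm b' c') (hc : 0 < c) (hc' : 0 < c')
    (h3 : (3 : ℤ) ∣ b - c ↔ (3 : ℤ) ∣ b' - c') (eA : mA b c = mA b' c') (eB : mB b c = mB b' c') :
    b = b' ∧ c = c' := by
  unfold mA at eA
  unfold mB at eB
  by_cases g : (3 : ℤ) ∣ b - c
  · have g' := h3.1 g
    have := SA_eq g
    have := SA_eq g'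
    have := SB_eq g
    have := SB_eq g'
    exact inj h h' hc hc' (by linarith) (by linarith)
  · have g' : ¬ (3 : ℤ) ∣ b' - c' := fun x => g (h3.2 x)
    have := SA_eq' g
    have := SA_eq' g'
    have := SB_eq' g
    have := SB_eq' g'
    exact inj h h' hc hc' (by linarith) (by linarith)

/-- at most two parameters for each model -/
lemma card_le_two {F : Finset (ℤ × ℤ)} (hF : ∀ z ∈ F, Adm z.1 z.2 ∧ 0 < z.2) {S : Set (ℤ × ℤ)}
    (hS : S.Finite) (hFS : ∀ z ∈ F, (mA z.1 z.2, mB z.1 z.2) ∈ S) : F.card ≤ 2 * S.ncard := by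
  classical
  have hone : ∀ G ⊆ F, (∀ z ∈ G, ∀ z' ∈ G, ((3 : ℤ) ∣ z.1 - z.2 ↔ (3 : ℤ) ∣ z'.1 - z'.2)) →
      G.card ≤ S.ncard := by
    intro G hG h3
    have h1 : G.card = (G.image (fun z => (mA z.1 z.2, mB z.1 z.2))).card := by
      refine (card_image_of_injOn ?_).symm
      rintro ⟨b, c⟩ hz ⟨b', c'⟩ hz' he
      rw [mem_coe] at hz hz'
      simp only [Prod.mk.injEq] at he
      obtain ⟨a1, a2⟩ := hF _ (hG hz)
      obtain ⟨a1', a2'⟩ := hF _ (hG hz')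
      obtain ⟨g1, g2⟩ := m_inj a1 a1' a2 a2' (h3 _ hz _ hz') he.1 he.2
      exact Prod.ext g1 g2
    rw [h1, ← Set.ncard_coe_finset]
    refine Set.ncard_le_ncard ?_ hS
    intro x hx
    obtain ⟨z, hz, rfl⟩ := mem_image.1 (mem_coe.1 hx)
    exact hFS z (hG hz)
  have h1 := hone (F.filter (fun z => (3 : ℤ) ∣ z.1 - z.2)) (filter_subset _ _)
    (fun z hz z' hz' => by simp [(mem_filter.1 hz).2, (mem_filter.1 hz').2])
  have h2 := hone (F.filter (fun z => ¬ (3 : ℤ) ∣ z.1 - z.2)) (filter_subset _ _)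
    (fun z hz z' hz' => by simp [(mem_filter.1 hz).2, (mem_filter.1 hz').2])
  have h3 := card_filter_add_card_filter_not (s := F) (fun z : ℤ × ℤ => (3 : ℤ) ∣ z.1 - z.2)
  omega

/-- the finite sets -/
theorem cnd_finite (Z : ℕ) : {z : ℤ × ℤ | Adm z.1 z.2 ∧ 0 < z.2 ∧ cnd z.1 z.2 ≤ Z}.Finite := by
  by_contra hinf
  have hN : (1 : ℝ) ≤ (Z : ℝ) + 1 := by
    have : (0 : ℝ) ≤ Z := Nat.cast_nonneg _
    linarith
  have hfin := all_finite ((Z : ℝ) + 1) hN
  obtain ⟨F, hF, hcard⟩ := Set.Infinite.exists_subset_card_eq hinf (2 * (All ((Z : ℝ) + 1)).ncard + 1)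
  have := card_le_two (F := F) (fun z hz => ⟨(hF (mem_coe.2 hz)).1, (hF (mem_coe.2 hz)).2.1⟩) hfin
    (fun z hz => by
      obtain ⟨h1, h2, h3⟩ := hF (mem_coe.2 hz)
      refine ⟨m_min h1, m_full _ _, ?_⟩
      have h4 : condS (mA z.1 z.2) (mB z.1 z.2) ≤ Z := (m_cond h1).trans h3
      have h5 : (condS (mA z.1 z.2) (mB z.1 z.2) : ℝ) ≤ Z := by exact_mod_cast h4
      show (condS (mA z.1 z.2) (mB z.1 z.2) : ℝ) ≤ Z + 1
      linarith)
  omega

/-- **few curves with a large quotient** -/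
theorem tail_cond {ε : ℝ} (hε : 0 < ε) : ∃ V : ℕ, 0 < V ∧ ∃ Z0 : ℕ, ∀ Z : ℕ, Z0 ≤ Z →
    ∀ F : Finset (ℤ × ℤ), (∀ z ∈ F, Adm z.1 z.2 ∧ 0 < z.2 ∧ cnd z.1 z.2 ≤ Z ∧
      V < q2 z.1 * q2 (z.1 + 16 * z.2) * q2 z.2) → (F.card : ℝ) ≤ ε * (Z : ℝ) ^ ((2 : ℝ) / 3) := by
  classical
  obtain ⟨η, C, hη, hC, hMl⟩ := Ml_le (σ := 1 / 4) (by norm_num) (by norm_num)
  -- the choice of `V`
  have hlim : Tendsto (fun x : ℝ => x ^ (-(1 / 4 : ℝ))) atTop (𝓝 0) := tendsto_rpow_neg_atTop (by norm_num)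
  have hV' : ∀ᶠ V : ℕ in atTop, ((V : ℝ)) ^ (-(1 / 4 : ℝ)) < ε / (4 * C) :=
    (hlim.comp tendsto_natCast_atTop_atTop).eventually (gt_mem_nhds (by positivity))
  obtain ⟨V, hV, hV1⟩ := (hV'.and (eventually_ge_atTop 1)).exists
  have hlim2 : Tendsto (fun x : ℝ => x ^ (-η)) atTop (𝓝 0) := tendsto_rpow_neg_atTop hη
  have hZ' : ∀ᶠ Z : ℕ in atTop, ((Z : ℝ)) ^ (-η) < ε / (4 * C) :=
    (hlim2.comp tendsto_natCast_atTop_atTop).eventually (gt_mem_nhds (by positivity))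
  obtain ⟨Z0, hZ0⟩ := (hZ'.and (eventually_ge_atTop 1)).exists_forall_of_atTop
  refine ⟨V, hV1, Z0, fun Z hZ F hF => ?_⟩
  obtain ⟨hZ1, hZ2⟩ := hZ0 Z hZ
  have hZr : (1 : ℝ) ≤ Z := by exact_mod_cast hZ2
  have hVr : (1 : ℝ) ≤ V := by exact_mod_cast hV1
  have h1 := hMl (fun _ => 1) (fun _ _ _ => le_rfl) Z V hZr hVr
  have hfin : (Ml (fun _ => 1) V Z).Finite := by
    refine (all_finite Z hZr).subset ?_
    rintro q ⟨⟨g1, g2, g3⟩, -⟩
    refine ⟨g1, g2, ?_⟩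
    rwa [one_mul] at g3
  have h2 := card_le_two (F := F) (fun z hz => ⟨(hF z hz).1, (hF z hz).2.1⟩) hfin (by
    rintro ⟨b, c⟩ hz
    obtain ⟨g1, g2, g3, g4⟩ := hF _ hz
    simp only at g1 g2 g3 g4
    have g5 := m_cond g1
    refine ⟨⟨m_min g1, m_full _ _, ?_⟩, ?_⟩
    · rw [one_mul]
      exact_mod_cast g5.trans g3
    · show ((V : ℝ) * (condS (mA b c) (mB b c) : ℝ)) ^ 2 < |((D (mA b c) (mB b c) : ℤ) : ℝ)|
      obtain ⟨κ, hκ, hD, -⟩ := mD (b := b) (c := c)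
      have g6 := cnd_mul g1
      have g7 := cnd_pos b c
      have g8 : ((V * condS (mA b c) (mB b c) : ℕ) : ℤ) < |b| * |c| * |b + 16 * c| := by
        rw [← g6]
        have : V * condS (mA b c) (mB b c) < cnd b c * (q2 b * q2 (b + 16 * c) * q2 c) := by
          calc V * condS (mA b c) (mB b c) ≤ V * cnd b c := Nat.mul_le_mul_left _ g5
            _ < (q2 b * q2 (b + 16 * c) * q2 c) * cnd b c := Nat.mul_lt_mul_of_pos_right g4 g7
            _ = _ := mul_comm _ _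
        exact_mod_cast this
      have g9 : ((V * condS (mA b c) (mB b c) : ℕ) : ℤ) ^ 2 < D (mA b c) (mB b c) := by
        rw [hD, Di_eq]
        have i1 : ((V * condS (mA b c) (mB b c) : ℕ) : ℤ) ^ 2 <
            (|b| * |c| * |b + 16 * c|) ^ 2 := pow_lt_pow_left₀ g8 (by positivity) (by norm_num)
        have i2 : 0 ≤ (|b| * |c| * |b + 16 * c|) ^ 2 := by positivity
        have i3 : 1 ≤ κ ^ 2 := by nlinarith
        have i4 := mul_le_mul_of_nonneg_right i3 i2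
        linarith
      have g10 : (((V * condS (mA b c) (mB b c) : ℕ) : ℤ) : ℝ) ^ 2 < ((D (mA b c) (mB b c) : ℤ) : ℝ) := by
        exact_mod_cast g9
      refine lt_of_lt_of_le ?_ (le_abs_self _)
      push_cast at g10
      exact g10)
  have h3 : (F.card : ℝ) ≤ 2 * ((Ml (fun _ => 1) V Z).ncard : ℝ) := by exact_mod_cast h2
  have hZp : 0 < (Z : ℝ) ^ ((2 : ℝ) / 3) := by positivity
  have e1 : (Z : ℝ) ^ (2 / 3 - η) = (Z : ℝ) ^ ((2 : ℝ) / 3) * (Z : ℝ) ^ (-η) := by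
    rw [← Real.rpow_add (by linarith)]
    congr 1
  have h4 : ((Ml (fun _ => 1) V Z).ncard : ℝ) ≤ C * (ε / (4 * C) * (Z : ℝ) ^ ((2 : ℝ) / 3) +
      (Z : ℝ) ^ ((2 : ℝ) / 3) * (ε / (4 * C))) := by
    refine h1.trans ?_
    rw [e1]
    gcongr
  calc (F.card : ℝ) ≤ 2 * (C * (ε / (4 * C) * (Z : ℝ) ^ ((2 : ℝ) / 3) +
      (Z : ℝ) ^ ((2 : ℝ) / 3) * (ε / (4 * C)))) := h3.trans (by linarith)
    _ = ε * (Z : ℝ) ^ ((2 : ℝ) / 3) := by field_simp; ring

end Pool.Agent.K1H81.RN
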