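import Pool.Agent.K1H81.RN.Cdr

/-!
# Equidistribution by conductor (helper81)
-/

set_option autoImplicit false

namespace Pool.Agent.K1H81.RN

open Finset Filter Topology

/-- the finite sets -/
noncomputable def Fc (Z : ℕ) : Finset (ℤ × ℤ) := (cnd_finite Z).toFinset

lemma mem_Fc {Z : ℕ} {b c : ℤ} : (b, c) ∈ Fc Z ↔ (Adm b c ∧ 0 < c ∧ cnd b c ≤ Z) := by
  unfold Fc
  rw [Set.Finite.mem_toFinset]
  rfl

/-- the triples of quotients -/
def Tr (V : ℕ) : Finset (ℕ × ℕ × ℕ) :=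
  (Icc 1 V ×ˢ Icc 1 V ×ˢ Icc 1 V).filter (fun t => t.1 * t.2.1 * t.2.2 ≤ V)

/-- the region for given quotients -/
def Rk (V : ℕ) (b c : ℤ) : Prop := |b| * |c| * |b + 16 * c| ≤ (V : ℤ)

lemma Rk_tame (V : ℕ) : Tame 6 (Rk V) := by
  refine (poly_Di.tame ((V : ℤ) ^ 2)).congr fun x y => ?_
  unfold Rk
  rw [Di_eq]
  exact (sq_le_sq₀ (by positivity) (by positivity)).symm

/-- the contribution of one triple -/
theorem one_triple {m : ℕ} (hm : 0 < m) (r s : ℤ) (V : ℕ) (t : ℕ × ℕ × ℕ) (ht : t ∈ Tr V) {ε : ℝ}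
    (hε : 0 < ε) : ∀ᶠ Z in atTop,
    |∑ z ∈ Fc Z, ind (q2 z.1 = t.1 ∧ q2 (z.1 + 16 * z.2) = t.2.1 ∧ q2 z.2 = t.2.2) *
      (ind (Cg m r s z.1 z.2) * (w z.1 z.2 : ℝ))| ≤ ε * ((rt 3 Z : ℝ) + 1) ^ 2 := by
  classical
  obtain ⟨k, l, j⟩ := t
  unfold Tr at ht
  rw [mem_filter, mem_product, mem_product, mem_Icc, mem_Icc, mem_Icc] at ht
  simp only at ht
  obtain ⟨⟨hk, hl, hj⟩, hV⟩ := ht
  obtain ⟨K, hK, hpiece⟩ := piece (ε := ε / 2) (by positivity) V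
  obtain ⟨ε', hε'⟩ : ∃ ε', ε' = ε / 2 / (33 * K) ^ 2 := ⟨_, rfl⟩
  have hKr : (0 : ℝ) < K := by exact_mod_cast hK
  have hε'0 : 0 < ε' := by rw [hε']; positivity
  obtain ⟨X0, hX0⟩ := boxK (k := k) (l := l) (j := j) (M := 4 * m) (by omega) (by omega) 6 hε'0
  filter_upwards [(rt_tendsto (k := 3) (by norm_num)).eventually_ge_atTop X0] with Z hZ
  obtain ⟨X, hX⟩ : ∃ X, X = rt 3 Z := ⟨_, rfl⟩
  have hZX : Z < (X + 1) ^ 3 := by rw [hX]; exact lt_rt (k := 3) (by norm_num) Z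
  rw [← hX] at hZ ⊢
  have hX1 : 0 < K * (X + 1) := by positivity
  have h1 := hX0 (32 * (K * (X + 1)) + 1) (by nlinarith) (Cg m r s)
    (fun _ _ => Rk (k * l * j * Z)) (fun _ _ => Rk_tame _)
  -- everything lies in a box
  obtain ⟨N, hN, hin⟩ : ∃ N : ℕ, 32 * (K * (X + 1)) + 1 ≤ N ∧
      ∀ b c : ℤ, (Adm b c ∧ 0 < c ∧ cnd b c ≤ Z) → b ∈ Bx N ∧ c ∈ Bx N := by
    refine ⟨32 * (K * (X + 1)) + 1 + ∑ z ∈ Fc Z, (z.1.natAbs + z.2.natAbs + 1), by omega, ?_⟩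
    intro b c h
    have h2 := single_le_sum (f := fun z : ℤ × ℤ => z.1.natAbs + z.2.natAbs + 1)
      (fun _ _ => Nat.zero_le _) (mem_Fc.2 h)
    simp only at h2
    rw [mem_Bx, mem_Bx]
    push_cast
    obtain ⟨S, hS⟩ : ∃ S : ℕ, S = ∑ z ∈ Fc Z, (z.1.natAbs + z.2.natAbs + 1) := ⟨_, rfl⟩
    have hS' : (∑ z ∈ Fc Z, (|z.1| + |z.2| + 1) : ℤ) = S := by
      rw [hS]; push_cast; rfl
    rw [hS']
    rw [← hS] at h2
    have hKX : (0 : ℤ) ≤ K * (X + 1) := by positivity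
    omega
  rw [sum_F (fun b c => mem_Fc) hin (fun b c => ind (q2 b = k ∧ q2 (b + 16 * c) = l ∧ q2 c = j) *
    (ind (Cg m r s b c) * (w b c : ℝ)))]
  have hiff : ∀ b c : ℤ, Adm b c → (q2 b = k ∧ q2 (b + 16 * c) = l ∧ q2 c = j) →
      (cnd b c ≤ Z ↔ Rk (k * l * j * Z) b c) := by
    intro b c h hq
    unfold Rk
    rw [← cnd_mul h, hq.1, hq.2.1, hq.2.2, mul_comm (k * l * j) Z]
    constructor
    · intro h2
      exact_mod_cast Nat.mul_le_mul_right _ h2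
    · intro h2
      have h3 : cnd b c * (k * l * j) ≤ Z * (k * l * j) := by exact_mod_cast h2
      exact Nat.le_of_mul_le_mul_right h3 (Nat.mul_pos (Nat.mul_pos (by omega) (by omega)) (by omega))
  have e : ∀ b c : ℤ, ind (Adm b c ∧ 0 < c ∧ cnd b c ≤ Z) *
      (ind (q2 b = k ∧ q2 (b + 16 * c) = l ∧ q2 c = j) * (ind (Cg m r s b c) * (w b c : ℝ))) =
      ind (Cg m r s (b % (4 * m : ℕ)) (c % (4 * m : ℕ)) ∧ (Adm b c ∧ 0 < c ∧
        (q2 b = k ∧ q2 (b + 16 * c) = l ∧ q2 c = j) ∧ Rk (k * l * j * Z) b c)) * (w b c : ℝ) := by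
    intro b c
    rw [← mul_assoc, ← mul_assoc, ← ind_and, ← ind_and]
    congr 1
    refine ind_congr ?_
    rw [Cg_emod ⟨4, by ring⟩]
    constructor
    · rintro ⟨⟨⟨h1, h2, h3⟩, h4⟩, h5⟩
      exact ⟨h5, h1, h2, h4, (hiff b c h1 h4).1 h3⟩
    · rintro ⟨h5, h1, h2, h4, h3⟩
      exact ⟨⟨⟨h1, h2, (hiff b c h1 h4).2 h3⟩, h4⟩, h5⟩
  simp only [e]
  refine (cut (T := V * Z) hX1 hN (P := fun b c => Adm b c ∧ 0 < c ∧ Rk (k * l * j * Z) b c)
    (fun b c h => ⟨h.1.b0, h.1.2.1, h.1.2.2.1, ?_⟩) (fun b c => ?_)).trans ?_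
  · refine h.2.2.trans ?_
    exact_mod_cast Nat.mul_le_mul_right _ hV
  · rw [abs_mul, abs_of_nonneg (ind_nonneg _)]
    refine (mul_le_mul_of_nonneg_left (w_abs b c) (ind_nonneg _)).trans ?_
    rw [mul_one]
    exact ind_le_of fun h => ⟨h.2.1, h.2.2.1, h.2.2.2.2⟩
  · have h2 := hpiece X (V * Z) (Nat.mul_le_mul_left _ hZX.le)
    have h3 : ((32 * (K * (X + 1)) + 1 : ℕ) : ℝ) ≤ 33 * K * ((X : ℝ) + 1) := by
      have : 32 * (K * (X + 1)) + 1 ≤ 33 * (K * (X + 1)) := by omega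
      have h4 : ((32 * (K * (X + 1)) + 1 : ℕ) : ℝ) ≤ ((33 * (K * (X + 1)) : ℕ) : ℝ) := by
        exact_mod_cast this
      refine h4.trans (le_of_eq ?_)
      push_cast
      ring
    have h5 : ε' * ((32 * (K * (X + 1)) + 1 : ℕ) : ℝ) ^ 2 ≤ ε / 2 * ((X : ℝ) + 1) ^ 2 := by
      calc ε' * ((32 * (K * (X + 1)) + 1 : ℕ) : ℝ) ^ 2 ≤ ε' * (33 * K * ((X : ℝ) + 1)) ^ 2 := by
            gcongr
        _ = ε / 2 * ((X : ℝ) + 1) ^ 2 := by rw [hε']; field_simp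
    calc _ ≤ ε' * ((32 * (K * (X + 1)) + 1 : ℕ) : ℝ) ^ 2 + ε / 2 * ((X : ℝ) + 1) ^ 2 :=
          add_le_add h1 h2
      _ ≤ ε / 2 * ((X : ℝ) + 1) ^ 2 + ε / 2 * ((X : ℝ) + 1) ^ 2 := add_le_add h5 le_rfl
      _ = ε * ((X : ℝ) + 1) ^ 2 := by ring

/-- **Equidistribution of the root numbers by conductor.** -/
theorem main_cond {m : ℕ} (hm : 0 < m) {r s b0 c0 : ℤ} (h0 : Adm b0 c0) (hcg : Cg m r s b0 c0) :
    (∀ Z, (Fam cond m r s (fun _ => True) Z).Finite) ∧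
    Tendsto (fun Z => (Fam cond m r s (fun _ => True) Z).ncard) atTop atTop ∧
    ∀ e : ℤ, e = 1 ∨ e = -1 →
      Tendsto (fun Z => ((Fam cond m r s (fun w => w = e) Z).ncard : ℝ) /
        ((Fam cond m r s (fun _ => True) Z).ncard : ℝ)) atTop (𝓝 (1 / 2)) := by
  classical
  obtain ⟨δ, hδ, hlow⟩ := low_fam hm h0 hcg (F := Fc) (k := 3) (K := 3) (by norm_num) (by norm_num)
    (by
      intro Z Y b c hY hadm hb hb' hc hc'
      rw [mem_Fc]
      refine ⟨hadm, hc, ?_⟩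
      have hZ := rt_le (k := 3) (by norm_num) Z
      have h1 : ((3 * Y : ℕ) : ℤ) ^ 3 ≤ Z := by
        have : (3 * Y) ^ 3 ≤ Z := (Nat.pow_le_pow_left hY 3).trans hZ
        exact_mod_cast this
      push_cast at h1
      obtain ⟨y, hy⟩ : ∃ y : ℤ, y = Y := ⟨_, rfl⟩
      rw [← hy] at hb' hc' h1
      have hy0 : 0 < y := by omega
      have g0 := cnd_mul hadm
      rw [abs_of_pos hb, abs_of_pos hc, abs_of_pos (by omega : 0 < b + 16 * c)] at g0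
      have g1 : b * c * (b + 16 * c) ≤ y * y * (17 * y) := by
        have i1 : b + 16 * c ≤ 17 * y := by omega
        exact mul_le_mul (mul_le_mul hb' hc' hc.le (by positivity)) i1 (by omega) (by positivity)
      have g2 : (cnd b c : ℤ) ≤ b * c * (b + 16 * c) := by
        rw [← g0]
        have : 0 < q2 b * q2 (b + 16 * c) * q2 c :=
          Nat.mul_pos (Nat.mul_pos (q2_pos hadm.b0) (q2_pos hadm.2.2.1)) (q2_pos hadm.2.1)
        exact_mod_cast Nat.le_mul_of_pos_right _ this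
      have e1 : y * y * (17 * y) = 17 * y ^ 3 := by ring
      have e2 : (3 * y) ^ 3 = 27 * y ^ 3 := by ring
      have g4 : 0 ≤ y ^ 3 := by positivity
      rw [e1] at g1
      rw [e2] at h1
      have : (cnd b c : ℤ) ≤ (Z : ℤ) := by linarith
      exact_mod_cast this)
  refine limit (R := fun Z b c => cnd b c ≤ Z) (fun Z W b c _ hadm _ _ _ hD => by rw [cond_eq hadm hD])
    (F := Fc) (fun Z b c => mem_Fc) (g_tendsto (k := 3) (by norm_num)) ?_ hδ hlow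
  intro ε hε
  obtain ⟨V, hV, Z0, htail⟩ := tail_cond (ε := ε / 2) (by positivity)
  obtain ⟨ε1, hε1⟩ : ∃ ε1 : ℝ, ε1 = ε / 2 / ((Tr V).card + 1) := ⟨_, rfl⟩
  have hε10 : 0 < ε1 := by rw [hε1]; positivity
  have hall : ∀ᶠ Z in atTop, ∀ t ∈ Tr V,
      |∑ z ∈ Fc Z, ind (q2 z.1 = t.1 ∧ q2 (z.1 + 16 * z.2) = t.2.1 ∧ q2 z.2 = t.2.2) *
        (ind (Cg m r s z.1 z.2) * (w z.1 z.2 : ℝ))| ≤ ε1 * ((rt 3 Z : ℝ) + 1) ^ 2 := by
    rw [Finset.eventually_all]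
    intro t ht
    exact one_triple hm r s V t ht hε10
  filter_upwards [hall, eventually_ge_atTop Z0] with Z h1 hZ0
  obtain ⟨X, hX⟩ : ∃ X, X = rt 3 Z := ⟨_, rfl⟩
  have hZX : Z < (X + 1) ^ 3 := by rw [hX]; exact lt_rt (k := 3) (by norm_num) Z
  rw [← hX] at h1 ⊢
  -- splitting
  have e : ∑ z ∈ Fc Z, ind (Cg m r s z.1 z.2) * (w z.1 z.2 : ℝ) =
      ∑ t ∈ Tr V, (∑ z ∈ Fc Z, ind (q2 z.1 = t.1 ∧ q2 (z.1 + 16 * z.2) = t.2.1 ∧ q2 z.2 = t.2.2) *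
        (ind (Cg m r s z.1 z.2) * (w z.1 z.2 : ℝ))) +
      ∑ z ∈ Fc Z, ind (V < q2 z.1 * q2 (z.1 + 16 * z.2) * q2 z.2) *
        (ind (Cg m r s z.1 z.2) * (w z.1 z.2 : ℝ)) := by
    rw [sum_comm, ← sum_add_distrib]
    refine sum_congr rfl fun z hz => ?_
    obtain ⟨b, c⟩ := z
    have hadm := (mem_Fc.1 hz).1
    simp only
    rw [← sum_mul, ← add_mul]
    have : ∑ t ∈ Tr V, ind (q2 b = t.1 ∧ q2 (b + 16 * c) = t.2.1 ∧ q2 c = t.2.2) +
        ind (V < q2 b * q2 (b + 16 * c) * q2 c) = 1 := by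
      by_cases h : V < q2 b * q2 (b + 16 * c) * q2 c
      · rw [ind_pos h, sum_eq_zero, zero_add]
        intro t ht
        apply ind_neg
        rintro ⟨g1, g2, g3⟩
        unfold Tr at ht
        have := (mem_filter.1 ht).2
        rw [← g1, ← g2, ← g3] at this
        omega
      · rw [ind_neg h, add_zero, sum_eq_single (q2 b, q2 (b + 16 * c), q2 c)]
        · exact ind_pos ⟨rfl, rfl, rfl⟩
        · intro t _ hne
          apply ind_neg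
          rintro ⟨g1, g2, g3⟩
          apply hne
          rw [g1, g2, g3]
        · intro hmem
          exfalso
          apply hmem
          push Not at h
          have p1 := q2_pos hadm.b0
          have p2 := q2_pos hadm.2.2.1
          have p3 := q2_pos hadm.2.1
          unfold Tr
          rw [mem_filter, mem_product, mem_product, mem_Icc, mem_Icc, mem_Icc]
          have l1 : q2 b ≤ q2 b * (q2 (b + 16 * c) * q2 c) := Nat.le_mul_of_pos_right _ (by positivity)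
          have l2 : q2 (b + 16 * c) ≤ q2 (b + 16 * c) * (q2 b * q2 c) :=
            Nat.le_mul_of_pos_right _ (by positivity)
          have l3 : q2 c ≤ q2 c * (q2 b * q2 (b + 16 * c)) := Nat.le_mul_of_pos_right _ (by positivity)
          have m1 : q2 b * (q2 (b + 16 * c) * q2 c) = q2 b * q2 (b + 16 * c) * q2 c := by ring
          have m2 : q2 (b + 16 * c) * (q2 b * q2 c) = q2 b * q2 (b + 16 * c) * q2 c := by ring
          have m3 : q2 c * (q2 b * q2 (b + 16 * c)) = q2 b * q2 (b + 16 * c) * q2 c := by ring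
          simp only
          refine ⟨⟨⟨p1, by omega⟩, ⟨p2, by omega⟩, ⟨p3, by omega⟩⟩, h⟩
    rw [this, one_mul]
  rw [e]
  refine (abs_add_le _ _).trans ?_
  have hY0 : (0 : ℝ) < (X : ℝ) + 1 := by positivity
  have b1 : |∑ t ∈ Tr V, (∑ z ∈ Fc Z, ind (q2 z.1 = t.1 ∧ q2 (z.1 + 16 * z.2) = t.2.1 ∧
      q2 z.2 = t.2.2) * (ind (Cg m r s z.1 z.2) * (w z.1 z.2 : ℝ)))| ≤ ε / 2 * ((X : ℝ) + 1) ^ 2 := by
    calc _ ≤ ∑ t ∈ Tr V, ε1 * ((X : ℝ) + 1) ^ 2 :=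
          (abs_sum_le_sum_abs _ _).trans (sum_le_sum fun t ht => h1 t ht)
      _ = (Tr V).card * ε1 * ((X : ℝ) + 1) ^ 2 := by rw [sum_const, nsmul_eq_mul]; ring
      _ ≤ _ := by
          apply mul_le_mul_of_nonneg_right _ (by positivity)
          rw [hε1]
          have hc : (0 : ℝ) ≤ (Tr V).card := Nat.cast_nonneg _
          rw [mul_div_assoc', div_le_iff₀ (by positivity)]
          nlinarith
  have b2 : |∑ z ∈ Fc Z, ind (V < q2 z.1 * q2 (z.1 + 16 * z.2) * q2 z.2) *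
        (ind (Cg m r s z.1 z.2) * (w z.1 z.2 : ℝ))| ≤ ε / 2 * ((X : ℝ) + 1) ^ 2 := by
    have c1 : |∑ z ∈ Fc Z, ind (V < q2 z.1 * q2 (z.1 + 16 * z.2) * q2 z.2) *
        (ind (Cg m r s z.1 z.2) * (w z.1 z.2 : ℝ))| ≤
        (((Fc Z).filter (fun z => V < q2 z.1 * q2 (z.1 + 16 * z.2) * q2 z.2)).card : ℝ) := by
      rw [card_filter]
      push_cast
      refine (abs_sum_le_sum_abs _ _).trans (sum_le_sum fun z _ => ?_)
      rw [abs_mul]
      have h2 : |ind (Cg m r s z.1 z.2) * (w z.1 z.2 : ℝ)| ≤ 1 := by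
        rw [abs_mul]
        calc _ ≤ (1 : ℝ) * 1 := mul_le_mul (ind_abs _) (w_abs _ _) (abs_nonneg _) (by norm_num)
          _ = 1 := one_mul _
      by_cases h : V < q2 z.1 * q2 (z.1 + 16 * z.2) * q2 z.2
      · rw [if_pos h, ind_pos h, abs_one, one_mul]; exact h2
      · rw [if_neg h, ind_neg h, abs_zero, zero_mul]
    refine c1.trans ((htail Z hZ0 _ ?_).trans ?_)
    · intro z hz
      obtain ⟨hz1, hz2⟩ := mem_filter.1 hz
      obtain ⟨g1, g2, g3⟩ := mem_Fc.1 (show (z.1, z.2) ∈ Fc Z from hz1)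
      exact ⟨g1, g2, g3, hz2⟩
    · apply mul_le_mul_of_nonneg_left _ (by positivity)
      have hZr : (Z : ℝ) ≤ ((X : ℝ) + 1) ^ 3 := by exact_mod_cast hZX.le
      calc (Z : ℝ) ^ ((2 : ℝ) / 3) ≤ (((X : ℝ) + 1) ^ 3) ^ ((2 : ℝ) / 3) :=
            Real.rpow_le_rpow (Nat.cast_nonneg _) hZr (by norm_num)
        _ = ((X : ℝ) + 1) ^ 2 := by
            rw [← Real.rpow_natCast, ← Real.rpow_mul hY0.le, ← Real.rpow_natCast]
            norm_num
  calc _ ≤ ε / 2 * ((X : ℝ) + 1) ^ 2 + ε / 2 * ((X : ℝ) + 1) ^ 2 := add_le_add b1 b2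
    _ = ε * ((X : ℝ) + 1) ^ 2 := by ring

end Pool.Agent.K1H81.RN
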