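import Pool.Agent.K1H81.RN.Tail

/-!
# Many coprime pairs in a residue class; few points in the cusps (helper81)
-/

set_option autoImplicit false

namespace Pool.Agent.K1H81.RN

open Finset Filter

/-- a residue class in an interval -/
lemma card_class {Y M : ℕ} (hM : 0 < M) (v : ℤ) :
    |∑ b ∈ Ioc (0 : ℤ) Y, ind (b ≡ v [ZMOD M]) - (Y : ℝ) / M| ≤ 1 := by
  classical
  have hMz : (0 : ℤ) < M := by exact_mod_cast hM
  have hMq : (0 : ℚ) < ((M : ℤ) : ℚ) := by exact_mod_cast hM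
  rw [sum_ind]
  have h1 := Int.Ioc_filter_modEq_card (0 : ℤ) Y hMz v
  have hmono : ⌊(((0 : ℤ) : ℚ) - v) / ((M : ℤ) : ℚ)⌋ ≤ ⌊((((Y : ℤ) : ℚ)) - v) / ((M : ℤ) : ℚ)⌋ := by
    apply Int.floor_le_floor
    apply div_le_div_of_nonneg_right _ hMq.le
    have : (0 : ℚ) ≤ ((Y : ℤ) : ℚ) := by positivity
    push_cast
    push_cast at this
    linarith
  rw [max_eq_left (by omega)] at h1
  have h2 : (((filter (fun x => x ≡ v [ZMOD M]) (Ioc (0 : ℤ) Y)).card : ℤ) : ℚ) =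
      (⌊((((Y : ℤ) : ℚ)) - v) / ((M : ℤ) : ℚ)⌋ : ℚ) - (⌊(((0 : ℤ) : ℚ) - v) / ((M : ℤ) : ℚ)⌋ : ℚ) := by
    rw [h1]
    push_cast
    rfl
  have a1 := Int.floor_le (((((Y : ℤ) : ℚ)) - v) / ((M : ℤ) : ℚ))
  have a2 := Int.lt_floor_add_one (((((Y : ℤ) : ℚ)) - v) / ((M : ℤ) : ℚ))
  have a3 := Int.floor_le ((((0 : ℤ) : ℚ) - v) / ((M : ℤ) : ℚ))
  have a4 := Int.lt_floor_add_one ((((0 : ℤ) : ℚ) - v) / ((M : ℤ) : ℚ))
  have h3 : |(((filter (fun x => x ≡ v [ZMOD M]) (Ioc (0 : ℤ) Y)).card : ℤ) : ℚ) -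
      ((Y : ℤ) : ℚ) / ((M : ℤ) : ℚ)| ≤ 1 := by
    have e : ((Y : ℤ) : ℚ) / ((M : ℤ) : ℚ) = ((((Y : ℤ) : ℚ)) - v) / ((M : ℤ) : ℚ) -
        (((0 : ℤ) : ℚ) - v) / ((M : ℤ) : ℚ) := by
      field_simp
      push_cast
      ring
    rw [h2, e, abs_le]
    constructor <;> linarith
  have h4 : ((|(((filter (fun x => x ≡ v [ZMOD M]) (Ioc (0 : ℤ) Y)).card : ℤ) : ℚ) -
      ((Y : ℤ) : ℚ) / ((M : ℤ) : ℚ)| : ℚ) : ℝ) ≤ ((1 : ℚ) : ℝ) := by exact_mod_cast h3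
  push_cast at h4
  exact h4

lemma card_class_dvd {Y M p : ℕ} (hM : 0 < M) (hp : p.Prime) (hpM : ¬ p ∣ M) (v : ℤ) :
    ∑ b ∈ Ioc (0 : ℤ) Y, ind (b ≡ v [ZMOD M] ∧ (p : ℤ) ∣ b) ≤ (Y : ℝ) / (M * p) + 1 := by
  classical
  by_cases h : ∃ b0 : ℤ, b0 ≡ v [ZMOD M] ∧ (p : ℤ) ∣ b0
  · obtain ⟨b0, h1, h2⟩ := h
    have h3 := (abs_le.1 (card_class (Y := Y) (Nat.mul_pos hM hp.pos) b0)).2
    push_cast at h3
    refine le_trans (sum_le_sum fun b _ => ind_le_of ?_) (by linarith)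
    rintro ⟨g1, g2⟩
    have hcop : IsCoprime (M : ℤ) (p : ℤ) :=
      Nat.isCoprime_iff_coprime.2 ((Nat.Prime.coprime_iff_not_dvd hp).2 hpM).symm
    have g3 : (M : ℤ) ∣ b0 - b := (g1.trans h1.symm).dvd
    have g4 : (p : ℤ) ∣ b0 - b := dvd_sub h2 g2
    have g5 := hcop.mul_dvd g3 g4
    exact Int.modEq_iff_dvd.2 (by push_cast; exact g5)
  · push Not at h
    rw [sum_eq_zero fun b _ => ind_neg fun hh => h b hh.1 hh.2]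
    positivity

lemma card_mult (Y : ℕ) {p : ℕ} (hp : 0 < p) :
    ∑ b ∈ Ioc (0 : ℤ) Y, ind ((p : ℤ) ∣ b) ≤ (Y : ℝ) / p := by
  classical
  have hpz : (0 : ℤ) < p := by exact_mod_cast hp
  have hpq : (0 : ℚ) < ((p : ℤ) : ℚ) := by exact_mod_cast hp
  rw [sum_ind]
  have h1 := Int.Ioc_filter_dvd_card (0 : ℤ) Y hpz
  have h0 : ⌊((0 : ℤ) : ℚ) / ((p : ℤ) : ℚ)⌋ = 0 := by simp
  rw [h0, sub_zero] at h1
  have hnn : 0 ≤ ⌊((Y : ℤ) : ℚ) / ((p : ℤ) : ℚ)⌋ := Int.floor_nonneg.2 (by positivity)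
  rw [max_eq_left hnn] at h1
  have h2 := Int.floor_le (((Y : ℤ) : ℚ) / ((p : ℤ) : ℚ))
  rw [← h1] at h2
  have h3 : (((((filter (fun x => (p : ℤ) ∣ x) (Ioc (0 : ℤ) Y)).card : ℤ) : ℚ)) : ℝ) ≤
      (((((Y : ℤ) : ℚ) / ((p : ℤ) : ℚ)) : ℚ) : ℝ) := by exact_mod_cast h2
  push_cast at h3
  exact h3

/-- the sum of `1 / n ^ 2` over the odd `n ≥ 3` is at most `1 / 4` -/
lemma sum_odd_sq (D : ℕ) : ∑ p ∈ (Icc 3 D).filter (fun p => p % 2 = 1), 1 / (p : ℝ) ^ 2 ≤ 1 / 4 := by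
  classical
  have h1 : ∀ N : ℕ, ∑ n ∈ range N, 1 / (2 * (n : ℝ) + 3) ^ 2 ≤ 1 / 4 - 1 / (4 * ((N : ℝ) + 1)) := by
    intro N
    induction N with
    | zero => simp
    | succ N ih =>
      rw [sum_range_succ]
      have h2 : 1 / (2 * (N : ℝ) + 3) ^ 2 ≤ 1 / (4 * ((N : ℝ) + 1)) - 1 / (4 * ((N : ℝ) + 2)) := by
        rw [div_sub_div _ _ (by positivity) (by positivity), div_le_div_iff₀ (by positivity)
          (by positivity)]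
        nlinarith
      push_cast
      have e : (N : ℝ) + 1 + 1 = N + 2 := by ring
      rw [e]
      linarith
  have h2 : (Icc 3 D).filter (fun p => p % 2 = 1) ⊆ (range D).image (fun n : ℕ => 2 * n + 3) := by
    intro p hp
    rw [mem_filter, mem_Icc] at hp
    rw [mem_image]
    exact ⟨(p - 3) / 2, mem_range.2 (by omega), by omega⟩
  calc ∑ p ∈ (Icc 3 D).filter (fun p => p % 2 = 1), 1 / (p : ℝ) ^ 2
      ≤ ∑ p ∈ (range D).image (fun n : ℕ => 2 * n + 3), 1 / ((p : ℕ) : ℝ) ^ 2 :=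
        sum_le_sum_of_subset_of_nonneg h2 fun _ _ _ => by positivity
    _ = ∑ n ∈ range D, 1 / (2 * (n : ℝ) + 3) ^ 2 := by
        rw [sum_image (fun a _ b _ h => by omega)]
        refine sum_congr rfl fun n _ => ?_
        push_cast
        rfl
    _ ≤ _ := h1 D
    _ ≤ 1 / 4 := by
        have : 0 ≤ 1 / (4 * ((D : ℝ) + 1)) := by positivity
        linarith

/-- **many coprime pairs in a residue class** -/
theorem many {M : ℕ} (hM : 0 < M) {β γ : ℤ} (hβ : β % 2 = 1) (h2 : 2 ∣ M)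
    (hcop : ∀ p : ℕ, p.Prime → p ∣ M → ¬ ((p : ℤ) ∣ β ∧ (p : ℤ) ∣ γ)) :
    ∃ Y0 : ℕ, ∀ Y : ℕ, Y0 ≤ Y → (Y : ℝ) ^ 2 / (4 * (M : ℝ) ^ 2) ≤
      ∑ b ∈ Ioc (0 : ℤ) Y, ∑ c ∈ Ioc (0 : ℤ) Y,
        ind (b ≡ β [ZMOD M] ∧ c ≡ γ [ZMOD M] ∧ IsCoprime b c) := by
  classical
  have hMr : (1 : ℝ) ≤ M := by exact_mod_cast hM
  obtain ⟨D, hD⟩ : ∃ D : ℕ, D = 8 * M ^ 2 := ⟨_, rfl⟩
  have hD0 : 0 < D := by rw [hD]; positivity
  refine ⟨8 * M ^ 2 * (2 * D + 2) + 1, fun Y hY => ?_⟩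
  have hYr : (1 : ℝ) ≤ Y := by
    exact_mod_cast (by omega : 1 ≤ Y)
  -- pointwise lower bound
  obtain ⟨S1, hS1⟩ : ∃ S1 : Finset ℕ, S1 = ((Icc 3 D).filter (fun p => p % 2 = 1)).filter
    (fun p => p.Prime ∧ ¬ p ∣ M) := ⟨_, rfl⟩
  have hpt : ∀ b ∈ Ioc (0 : ℤ) Y, ∀ c ∈ Ioc (0 : ℤ) Y,
      ind (b ≡ β [ZMOD M]) * ind (c ≡ γ [ZMOD M]) -
        ∑ p ∈ S1, ind (b ≡ β [ZMOD M] ∧ (p : ℤ) ∣ b) * ind (c ≡ γ [ZMOD M] ∧ (p : ℤ) ∣ c) -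
        ∑ p ∈ Ioc D (max D Y), ind ((p : ℤ) ∣ b) * ind ((p : ℤ) ∣ c) ≤
      ind (b ≡ β [ZMOD M] ∧ c ≡ γ [ZMOD M] ∧ IsCoprime b c) := by
    intro b hb c hc
    have g1 : 0 ≤ ∑ p ∈ S1, ind (b ≡ β [ZMOD M] ∧ (p : ℤ) ∣ b) * ind (c ≡ γ [ZMOD M] ∧ (p : ℤ) ∣ c) :=
      sum_nonneg fun _ _ => mul_nonneg (ind_nonneg _) (ind_nonneg _)
    have g2 : 0 ≤ ∑ p ∈ Ioc D (max D Y), ind ((p : ℤ) ∣ b) * ind ((p : ℤ) ∣ c) :=
      sum_nonneg fun _ _ => mul_nonneg (ind_nonneg _) (ind_nonneg _)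
    by_cases hb1 : b ≡ β [ZMOD M]
    swap
    · rw [ind_neg hb1, zero_mul]
      have := ind_nonneg (b ≡ β [ZMOD M] ∧ c ≡ γ [ZMOD M] ∧ IsCoprime b c)
      linarith
    by_cases hc1 : c ≡ γ [ZMOD M]
    swap
    · rw [ind_neg hc1, mul_zero]
      have := ind_nonneg (b ≡ β [ZMOD M] ∧ c ≡ γ [ZMOD M] ∧ IsCoprime b c)
      linarith
    by_cases hbc : IsCoprime b c
    · rw [ind_pos hb1, ind_pos hc1, ind_pos ⟨hb1, hc1, hbc⟩]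
      linarith
    rw [ind_pos hb1, ind_pos hc1, ind_neg fun h => hbc h.2.2]
    have hne : Int.gcd b c ≠ 1 := fun h => hbc (Int.isCoprime_iff_gcd_eq_one.2 h)
    obtain ⟨q, hq, hqd⟩ := Nat.exists_prime_and_dvd hne
    have h11 : (q : ℤ) ∣ b := (Int.natCast_dvd_natCast.2 hqd).trans (Int.gcd_dvd_left b c)
    have h12 : (q : ℤ) ∣ c := (Int.natCast_dvd_natCast.2 hqd).trans (Int.gcd_dvd_right b c)
    have hqM : ¬ q ∣ M := by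
      intro hqM
      have hqM' : (q : ℤ) ∣ (M : ℤ) := Int.natCast_dvd_natCast.2 hqM
      refine hcop q hq hqM ⟨?_, ?_⟩
      · exact (Int.ModEq.dvd_iff (hb1.of_dvd hqM')).1 h11
      · exact (Int.ModEq.dvd_iff (hc1.of_dvd hqM')).1 h12
    have hq2 : q ≠ 2 := by rintro rfl; exact hqM h2
    have hqo : q % 2 = 1 := Nat.odd_iff.1 (hq.odd_of_ne_two hq2)
    have hq3 : 3 ≤ q := by have := hq.two_le; omega
    have hqY : q ≤ Y := by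
      have hb' := mem_Ioc.1 hb
      have := Int.le_of_dvd hb'.1 h11
      omega
    rcases le_or_gt q D with hqD | hqD
    · have hmem : q ∈ S1 := by
        rw [hS1, mem_filter, mem_filter, mem_Icc]
        exact ⟨⟨⟨hq3, hqD⟩, hqo⟩, hq, hqM⟩
      have := single_le_sum (f := fun p : ℕ => ind (b ≡ β [ZMOD M] ∧ (p : ℤ) ∣ b) *
        ind (c ≡ γ [ZMOD M] ∧ (p : ℤ) ∣ c))
        (fun _ _ => mul_nonneg (ind_nonneg _) (ind_nonneg _)) hmem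
      rw [ind_pos ⟨hb1, h11⟩, ind_pos ⟨hc1, h12⟩] at this
      linarith
    · have hmem : q ∈ Ioc D (max D Y) := mem_Ioc.2 ⟨hqD, hqY.trans (le_max_right _ _)⟩
      have := single_le_sum (f := fun p : ℕ => ind ((p : ℤ) ∣ b) * ind ((p : ℤ) ∣ c))
        (fun _ _ => mul_nonneg (ind_nonneg _) (ind_nonneg _)) hmem
      rw [ind_pos h11, ind_pos h12] at this
      linarith
  refine le_trans ?_ (sum_le_sum fun b hb => sum_le_sum fun c hc => hpt b hb c hc)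
  -- evaluate
  have e1 : ∑ b ∈ Ioc (0 : ℤ) Y, ∑ c ∈ Ioc (0 : ℤ) Y, (ind (b ≡ β [ZMOD M]) * ind (c ≡ γ [ZMOD M]) -
        ∑ p ∈ S1, ind (b ≡ β [ZMOD M] ∧ (p : ℤ) ∣ b) * ind (c ≡ γ [ZMOD M] ∧ (p : ℤ) ∣ c) -
        ∑ p ∈ Ioc D (max D Y), ind ((p : ℤ) ∣ b) * ind ((p : ℤ) ∣ c)) =
      (∑ b ∈ Ioc (0 : ℤ) Y, ind (b ≡ β [ZMOD M])) * (∑ c ∈ Ioc (0 : ℤ) Y, ind (c ≡ γ [ZMOD M])) -
      ∑ p ∈ S1, (∑ b ∈ Ioc (0 : ℤ) Y, ind (b ≡ β [ZMOD M] ∧ (p : ℤ) ∣ b)) *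
        (∑ c ∈ Ioc (0 : ℤ) Y, ind (c ≡ γ [ZMOD M] ∧ (p : ℤ) ∣ c)) -
      ∑ p ∈ Ioc D (max D Y), (∑ b ∈ Ioc (0 : ℤ) Y, ind ((p : ℤ) ∣ b)) *
        (∑ c ∈ Ioc (0 : ℤ) Y, ind ((p : ℤ) ∣ c)) := by
    simp only [sum_sub_distrib, sum_mul_sum]
    have sw : ∀ (S : Finset ℕ) (f : ℕ → ℤ → ℤ → ℝ), ∑ b ∈ Ioc (0 : ℤ) Y, ∑ c ∈ Ioc (0 : ℤ) Y,
        ∑ k ∈ S, f k b c = ∑ k ∈ S, ∑ b ∈ Ioc (0 : ℤ) Y, ∑ c ∈ Ioc (0 : ℤ) Y, f k b c := by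
      intro S f
      rw [sum_comm]
      have : ∀ c ∈ Ioc (0 : ℤ) Y, ∑ b ∈ Ioc (0 : ℤ) Y, ∑ k ∈ S, f k b c =
          ∑ k ∈ S, ∑ b ∈ Ioc (0 : ℤ) Y, f k b c := fun c _ => sum_comm
      rw [sum_congr rfl this, sum_comm]
      exact sum_congr rfl fun k _ => sum_comm
    rw [sw, sw]
  rw [e1]
  have a1 : (Y : ℝ) / M - 1 ≤ ∑ b ∈ Ioc (0 : ℤ) Y, ind (b ≡ β [ZMOD M]) := by
    have := (abs_le.1 (card_class (Y := Y) hM β)).1; linarith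
  have a2 : (Y : ℝ) / M - 1 ≤ ∑ c ∈ Ioc (0 : ℤ) Y, ind (c ≡ γ [ZMOD M]) := by
    have := (abs_le.1 (card_class (Y := Y) hM γ)).1; linarith
  have hYM : (1 : ℝ) ≤ (Y : ℝ) / M := by
    rw [le_div_iff₀ (by linarith)]
    have : M ≤ Y := by nlinarith [Nat.one_le_iff_ne_zero.2 hM.ne']
    rw [one_mul]
    exact_mod_cast this
  have b1 : ((Y : ℝ) / M - 1) ^ 2 ≤ (∑ b ∈ Ioc (0 : ℤ) Y, ind (b ≡ β [ZMOD M])) *
      (∑ c ∈ Ioc (0 : ℤ) Y, ind (c ≡ γ [ZMOD M])) := by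
    rw [sq]
    exact mul_le_mul a1 a2 (by linarith) (by linarith)
  have b2 : ∑ p ∈ S1, (∑ b ∈ Ioc (0 : ℤ) Y, ind (b ≡ β [ZMOD M] ∧ (p : ℤ) ∣ b)) *
        (∑ c ∈ Ioc (0 : ℤ) Y, ind (c ≡ γ [ZMOD M] ∧ (p : ℤ) ∣ c)) ≤
      (Y / M : ℝ) ^ 2 * (1 / 4) + D * (2 * Y + 1) := by
    have hS1c : (S1.card : ℝ) ≤ D := by
      have : S1.card ≤ D := by
        rw [hS1]
        refine (card_filter_le _ _).trans ((card_filter_le _ _).trans ?_)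
        rw [Nat.card_Icc]
        omega
      exact_mod_cast this
    calc _ ≤ ∑ p ∈ S1, ((Y / M : ℝ) ^ 2 * (1 / (p : ℝ) ^ 2) + (2 * Y + 1)) := by
          refine sum_le_sum fun p hp => ?_
          rw [hS1, mem_filter] at hp
          have hp0 : (1 : ℝ) ≤ p := by exact_mod_cast hp.2.1.one_lt.le
          have c1 := card_class_dvd (Y := Y) hM hp.2.1 hp.2.2 β
          have c2 := card_class_dvd (Y := Y) hM hp.2.1 hp.2.2 γ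
          have n1 : 0 ≤ ∑ c ∈ Ioc (0 : ℤ) Y, ind (c ≡ γ [ZMOD M] ∧ (p : ℤ) ∣ c) :=
            sum_nonneg fun _ _ => ind_nonneg _
          have n2 : 0 ≤ (Y : ℝ) / (M * p) + 1 := by positivity
          calc _ ≤ ((Y : ℝ) / (M * p) + 1) * ((Y : ℝ) / (M * p) + 1) := mul_le_mul c1 c2 n1 n2
            _ = (Y / M : ℝ) ^ 2 * (1 / (p : ℝ) ^ 2) + (2 * (Y / (M * p)) + 1) := by
                field_simp
                ring
            _ ≤ _ := by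
                have : (Y : ℝ) / (M * p) ≤ Y := by
                  apply div_le_self (by positivity)
                  nlinarith
                linarith
      _ = (Y / M : ℝ) ^ 2 * ∑ p ∈ S1, 1 / (p : ℝ) ^ 2 + S1.card * (2 * Y + 1) := by
          rw [sum_add_distrib, ← mul_sum, sum_const, nsmul_eq_mul]
      _ ≤ _ := by
          have : ∑ p ∈ S1, 1 / (p : ℝ) ^ 2 ≤ 1 / 4 := by
            refine le_trans ?_ (sum_odd_sq D)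
            rw [hS1]
            exact sum_le_sum_of_subset_of_nonneg (filter_subset _ _) fun _ _ _ => by positivity
          gcongr
  have b3 : ∑ p ∈ Ioc D (max D Y), (∑ b ∈ Ioc (0 : ℤ) Y, ind ((p : ℤ) ∣ b)) *
        (∑ c ∈ Ioc (0 : ℤ) Y, ind ((p : ℤ) ∣ c)) ≤ (Y : ℝ) ^ 2 * (1 / D) := by
    calc _ ≤ ∑ p ∈ Ioc D (max D Y), (Y : ℝ) ^ 2 * ((p : ℝ) ^ 2)⁻¹ := by
          refine sum_le_sum fun p hp => ?_
          have hp0 : 0 < p := lt_of_le_of_lt (Nat.zero_le _) (mem_Ioc.1 hp).1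
          have c1 := card_mult Y hp0
          have n1 : 0 ≤ ∑ c ∈ Ioc (0 : ℤ) Y, ind ((p : ℤ) ∣ c) := sum_nonneg fun _ _ => ind_nonneg _
          calc _ ≤ ((Y : ℝ) / p) * ((Y : ℝ) / p) := mul_le_mul c1 c1 n1 (by positivity)
            _ = _ := by field_simp
      _ = (Y : ℝ) ^ 2 * ∑ p ∈ Ioc D (max D Y), ((p : ℝ) ^ 2)⁻¹ := by rw [mul_sum]
      _ ≤ _ := by
          apply mul_le_mul_of_nonneg_left _ (by positivity)
          have := sum_Ioc_inv_sq_le_sub (α := ℝ) hD0.ne' (le_max_left D Y)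
          refine this.trans ?_
          have h3 : 0 ≤ ((max D Y : ℕ) : ℝ)⁻¹ := by positivity
          rw [one_div]
          linarith
  have hDr : (D : ℝ) = 8 * (M : ℝ) ^ 2 := by rw [hD]; push_cast; ring
  have hYbig : 8 * (M : ℝ) ^ 2 * (2 * D + 2) ≤ Y := by
    have : 8 * M ^ 2 * (2 * D + 2) ≤ Y := by omega
    exact_mod_cast this
  -- final arithmetic
  obtain ⟨y, hy⟩ : ∃ y : ℝ, y = (Y : ℝ) / M := ⟨_, rfl⟩
  have hYy : (Y : ℝ) = y * M := by rw [hy]; field_simp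
  have f1 : (Y : ℝ) ^ 2 * (1 / D) = y ^ 2 / 8 := by
    rw [hDr, hYy]; field_simp
  have f2 : (Y : ℝ) ^ 2 / (4 * (M : ℝ) ^ 2) = y ^ 2 / 4 := by
    rw [hYy]; field_simp
  have f3 : (D : ℝ) * (2 * Y + 1) + 2 * y ≤ y ^ 2 * (3 / 8) := by
    -- `y² / 8 · ... `
    have g1 : 8 * (M : ℝ) * (2 * D + 2) ≤ y := by
      rw [hy, le_div_iff₀ (by linarith)]
      calc 8 * (M : ℝ) * (2 * D + 2) * M = 8 * (M : ℝ) ^ 2 * (2 * D + 2) := by ring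
        _ ≤ Y := hYbig
    have hDn : (0 : ℝ) ≤ D := Nat.cast_nonneg _
    have hy1 : 1 ≤ y := by rw [hy]; exact hYM
    have g2 : (D : ℝ) * (2 * Y + 1) + 2 * y ≤ (2 * D + 2) * M * y + D := by
      rw [hYy]
      nlinarith [mul_nonneg hDn (by linarith : (0 : ℝ) ≤ y), mul_le_mul_of_nonneg_right hMr (by linarith : (0 : ℝ) ≤ y)]
    have g3 : (2 * D + 2) * M * y ≤ y ^ 2 / 8 := by
      have : (2 * (D : ℝ) + 2) * M ≤ y / 8 := by linarith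
      calc (2 * (D : ℝ) + 2) * M * y ≤ y / 8 * y := mul_le_mul_of_nonneg_right this (by linarith)
        _ = _ := by ring
    have g4 : (D : ℝ) ≤ y ^ 2 / 8 := by
      have : (D : ℝ) ≤ y / 8 := by nlinarith
      nlinarith
    nlinarith
  rw [hy] at f1 f2 f3
  rw [f2]
  rw [f1] at b3
  have f4 : ((Y : ℝ) / M - 1) ^ 2 = ((Y : ℝ) / M) ^ 2 - 2 * ((Y : ℝ) / M) + 1 := by ring
  linarith

/-- **few points in the cusps** -/
theorem cusp {T Y0 N : ℕ} (hY : 0 < Y0) :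
    ∑ y ∈ Bx N, ∑ x ∈ Bx N, ind (x ≠ 0 ∧ (Y0 : ℤ) ≤ |y| ∧ |x| * y ^ 2 ≤ T) ≤ 8 * T / Y0 := by
  classical
  have h1 : ∀ y ∈ Bx N, ∑ x ∈ Bx N, ind (x ≠ 0 ∧ (Y0 : ℤ) ≤ |y| ∧ |x| * y ^ 2 ≤ T) ≤
      ind ((Y0 : ℤ) ≤ |y|) * (2 * T * (((y.natAbs : ℝ)) ^ 2)⁻¹) := by
    intro y _
    by_cases hy : (Y0 : ℤ) ≤ |y|
    swap
    · rw [ind_neg hy, zero_mul, sum_eq_zero fun x _ => ind_neg fun h => hy h.2.1]
    rw [ind_pos hy, one_mul]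
    obtain ⟨n, hn⟩ : ∃ n : ℕ, n = y.natAbs := ⟨_, rfl⟩
    have hyn : |y| = n := by rw [hn]; exact Int.abs_eq_natAbs y
    have hn0 : 0 < n := by
      have : (Y0 : ℤ) ≤ n := by rw [← hyn]; exact hy
      have h2 : Y0 ≤ n := by exact_mod_cast this
      omega
    rw [← hn]
    have hsub : ∑ x ∈ Bx N, ind (x ≠ 0 ∧ (Y0 : ℤ) ≤ |y| ∧ |x| * y ^ 2 ≤ T) ≤
        (((Icc (-((T / n ^ 2 : ℕ) : ℤ)) ((T / n ^ 2 : ℕ) : ℤ)).erase 0).card : ℝ) := by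
      rw [sum_ind]
      apply Nat.cast_le.2
      apply card_le_card
      intro x hx
      rw [mem_filter] at hx
      obtain ⟨-, h3, -, h5⟩ := hx
      rw [mem_erase, mem_Icc, ← abs_le]
      refine ⟨h3, ?_⟩
      have h6 : x.natAbs * n ^ 2 ≤ T := by
        have e : (x.natAbs : ℤ) = |x| := (Int.abs_eq_natAbs x).symm
        have e2 : (n : ℤ) ^ 2 = y ^ 2 := by rw [← hyn, sq_abs]
        have : (((x.natAbs * n ^ 2 : ℕ)) : ℤ) ≤ T := by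
          push_cast
          rw [e2]
          exact h5
        exact_mod_cast this
      have h7 : x.natAbs ≤ T / n ^ 2 := (Nat.le_div_iff_mul_le (by positivity)).2 h6
      rw [Int.abs_eq_natAbs]
      exact_mod_cast h7
    refine hsub.trans ?_
    have hq0 : (0 : ℤ) ≤ ((T / n ^ 2 : ℕ) : ℤ) := Int.natCast_nonneg _
    rw [card_erase_of_mem (by rw [mem_Icc]; exact ⟨by linarith, hq0⟩), Int.card_Icc]
    have e : (((T / n ^ 2 : ℕ) : ℤ) + 1 - -((T / n ^ 2 : ℕ) : ℤ)).toNat - 1 = 2 * (T / n ^ 2) := by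
      omega
    rw [e]
    push_cast
    have h8 : ((T / n ^ 2 : ℕ) : ℝ) ≤ (T : ℝ) / ((n ^ 2 : ℕ) : ℝ) := Nat.cast_div_le
    push_cast at h8
    rw [mul_assoc, ← div_eq_mul_inv]
    linarith
  refine (sum_le_sum h1).trans ?_
  -- sum over `y`
  have h2 : ∑ y ∈ Bx N, ind ((Y0 : ℤ) ≤ |y|) * (2 * T * (((y.natAbs : ℝ)) ^ 2)⁻¹) ≤
      2 * ∑ n ∈ Icc Y0 (max Y0 N), 2 * (T : ℝ) * ((n : ℝ) ^ 2)⁻¹ := by
    have e1 : ∑ y ∈ Bx N, ind ((Y0 : ℤ) ≤ |y|) * (2 * T * (((y.natAbs : ℝ)) ^ 2)⁻¹) =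
        ∑ y ∈ (Bx N).filter (fun y => (Y0 : ℤ) ≤ |y|), 2 * T * (((y.natAbs : ℝ)) ^ 2)⁻¹ := by
      rw [sum_filter]
      refine sum_congr rfl fun y _ => ?_
      by_cases h : (Y0 : ℤ) ≤ |y|
      · rw [ind_pos h, if_pos h, one_mul]
      · rw [ind_neg h, if_neg h, zero_mul]
    rw [e1]
    have e2 : (Bx N).filter (fun y => (Y0 : ℤ) ≤ |y|) ⊆
        (Icc Y0 (max Y0 N)).image (fun n : ℕ => (n : ℤ)) ∪
          (Icc Y0 (max Y0 N)).image (fun n : ℕ => -(n : ℤ)) := by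
      intro y hy
      rw [mem_filter, mem_Bx] at hy
      rw [mem_union, mem_image, mem_image]
      rcases le_total 0 y with h | h
      · left
        rw [abs_of_nonneg h] at hy
        exact ⟨y.toNat, mem_Icc.2 (by omega), by omega⟩
      · right
        rw [abs_of_nonpos h] at hy
        exact ⟨(-y).toNat, mem_Icc.2 (by omega), by omega⟩
    refine (sum_le_sum_of_subset_of_nonneg e2 fun _ _ _ => by positivity).trans ?_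
    have hnn : 0 ≤ ∑ x ∈ (Icc Y0 (max Y0 N)).image (fun n : ℕ => (n : ℤ)) ∩
        (Icc Y0 (max Y0 N)).image (fun n : ℕ => -(n : ℤ)), 2 * (T : ℝ) * (((x.natAbs : ℝ)) ^ 2)⁻¹ :=
      sum_nonneg fun _ _ => by positivity
    have hui := sum_union_inter (s₁ := (Icc Y0 (max Y0 N)).image (fun n : ℕ => (n : ℤ)))
      (s₂ := (Icc Y0 (max Y0 N)).image (fun n : ℕ => -(n : ℤ)))
      (f := fun x : ℤ => 2 * (T : ℝ) * (((x.natAbs : ℝ)) ^ 2)⁻¹)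
    have i1 : ∑ x ∈ (Icc Y0 (max Y0 N)).image (fun n : ℕ => (n : ℤ)),
        2 * (T : ℝ) * (((x.natAbs : ℝ)) ^ 2)⁻¹ = ∑ n ∈ Icc Y0 (max Y0 N), 2 * (T : ℝ) * ((n : ℝ) ^ 2)⁻¹ := by
      rw [sum_image (fun a _ b _ h => by omega)]
      simp
    have i2 : ∑ x ∈ (Icc Y0 (max Y0 N)).image (fun n : ℕ => -(n : ℤ)),
        2 * (T : ℝ) * (((x.natAbs : ℝ)) ^ 2)⁻¹ = ∑ n ∈ Icc Y0 (max Y0 N), 2 * (T : ℝ) * ((n : ℝ) ^ 2)⁻¹ := by
      rw [sum_image (fun a _ b _ h => by omega)]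
      simp
    rw [i1, i2] at hui
    linarith
  refine h2.trans ?_
  rw [← mul_sum]
  have h3 : ∑ n ∈ Icc Y0 (max Y0 N), ((n : ℝ) ^ 2)⁻¹ ≤ 2 / Y0 := by
    have hYr : (1 : ℝ) ≤ Y0 := by exact_mod_cast hY
    have e : Icc Y0 (max Y0 N) = insert Y0 (Ioc Y0 (max Y0 N)) := by
      ext n
      simp only [mem_insert, mem_Icc, mem_Ioc]
      omega
    rw [e, sum_insert (by simp)]
    have := sum_Ioc_inv_sq_le_sub (α := ℝ) hY.ne' (le_max_left Y0 N)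
    have h4 : 0 ≤ ((max Y0 N : ℕ) : ℝ)⁻¹ := by positivity
    have h5 : ((Y0 : ℝ) ^ 2)⁻¹ ≤ (Y0 : ℝ)⁻¹ := by
      apply inv_anti₀ (by linarith)
      nlinarith
    rw [div_eq_mul_inv]
    linarith
  calc 2 * (2 * (T : ℝ) * ∑ n ∈ Icc Y0 (max Y0 N), ((n : ℝ) ^ 2)⁻¹) ≤ 2 * (2 * (T : ℝ) * (2 / Y0)) := by
        gcongr
    _ = 8 * T / Y0 := by ring

end Pool.Agent.K1H81.RN
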