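import Pool.Agent.K1H81.RN.Off

/-!
# Root numbers have mean value zero in every class and in every tame region (helper81)
-/

set_option autoImplicit false

namespace Pool.Agent.K1H81.RN

open Finset Filter

lemma kap_abs (x : ℤ) (p : ℕ) : |((kap x p : ℤ) : ℝ)| ≤ 1 := by
  unfold kap
  split_ifs
  · norm_num
  · norm_num
  · exact J_abs_le _ _

lemma U_abs (n x : ℤ) : |((U n x : ℤ) : ℝ)| ≤ 1 := by
  unfold U
  push_cast
  rw [abs_prod]
  refine prod_le_one (fun _ _ => abs_nonneg _) fun p _ => ?_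
  rw [abs_neg]
  exact kap_abs x p

lemma om_abs (n : ℤ) : |((om n : ℤ) : ℝ)| ≤ 1 := by
  unfold om
  push_cast
  rw [abs_pow, abs_neg, abs_one, one_pow]

lemma eps_abs (a b : ℤ) : |((eps a b : ℤ) : ℝ)| ≤ 1 := by
  unfold eps
  split_ifs <;> norm_num

lemma w_abs (b c : ℤ) : |((w b c : ℤ) : ℝ)| ≤ 1 := by
  unfold w
  push_cast
  rw [abs_neg]
  exact abs_mul_le (abs_mul_le (U_abs _ _) (U_abs _ _)) (U_abs _ _)

lemma Psi_abs (l : ℕ) (s b c : ℤ) : |((Psi l s b c : ℤ) : ℝ)| ≤ 1 := by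
  unfold Psi
  push_cast
  exact abs_mul_le (abs_mul_le (abs_mul_le (abs_mul_le (eps_abs _ _) (J_abs_le _ _)) (J_abs_le _ _))
    (abs_mul_le (om_abs _) (J_abs_le _ _))) (U_abs _ _)

/-- the conditions -/
def Cd (k l j M : ℕ) (β γ : ℤ) (R : ℤ → ℤ → Prop) (b c : ℤ) : Prop :=
  b % 4 = 1 ∧ c ≠ 0 ∧ b + 16 * c ≠ 0 ∧ IsCoprime b c ∧ q2 b = k ∧ q2 (b + 16 * c) = l ∧ q2 c = j ∧
    b % M = β ∧ c % M = γ ∧ R b c

/-- the part without `p` -/
def Cd' (k j M : ℕ) (β b c : ℤ) : Prop :=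
  b % 4 = 1 ∧ c ≠ 0 ∧ IsCoprime b c ∧ q2 b = k ∧ q2 c = j ∧ b % M = β

lemma split_F {k l j M : ℕ} {β γ s : ℤ} {R : ℤ → ℤ → Prop}
    (hs : ∀ b c, R b c → (s < 0 ↔ b + 16 * c < 0)) {X p : ℕ} (hp : p.Prime) (hp2 : p ≠ 2)
    {b c : ℤ} (hX : (p : ℤ) * c ∈ Bx X) (hpc : ¬ (p : ℤ) ∣ c) :
    ind (Cd k l j M β γ R b (p * c)) * (w b (p * c) : ℝ) =
      (ind (Cd' k j M β b c) * (Psi l s b c : ℝ)) * Gp X k l M γ R p b c := by
  have hp0 : (p : ℤ) ≠ 0 := by exact_mod_cast hp.ne_zero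
  by_cases h : Cd k l j M β γ R b (p * c)
  · obtain ⟨h1, h2, h3, h4, h5, h6, h7, h8, h9, h10⟩ := h
    have hc : c ≠ 0 := by rintro rfl; exact h2 (mul_zero _)
    have hbc : IsCoprime b c := h4.of_isCoprime_of_dvd_right ⟨p, mul_comm _ _⟩
    have hw := w_mul hp hp2 h1 hc hpc h4 h3 (hs b _ h10)
    rw [ind_pos ⟨h1, h2, h3, h4, h5, h6, h7, h8, h9, h10⟩, hw,
      ind_pos (P := Cd' k j M β b c) ⟨h1, hc, hbc, h5, by rw [← q2_mul hp hc hpc]; exact h7, h8⟩]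
    unfold Gp
    rw [ind_pos hX, ind_pos hpc, ind_pos h9, ind_pos h10, h6, h5]
    have : gl l (b + 16 * (p * c)) = om (b + 16 * (p * c)) := if_pos ⟨h3, h6⟩
    rw [this]
    push_cast
    ring
  · rw [ind_neg h, zero_mul]
    by_cases h' : Cd' k j M β b c
    · obtain ⟨h1, hc, hbc, h5, h7, h8⟩ := h'
      have : Gp X k l M γ R p b c = 0 := by
        by_contra hne
        unfold Gp at hne
        simp only [mul_ne_zero_iff] at hne
        obtain ⟨⟨⟨⟨_, n1, _⟩, n2⟩, n3⟩, n4⟩ := hne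
        have g1 : R b (p * c) := by
          by_contra hh; exact n4 (ind_neg hh)
        have g2 : (p : ℤ) * c % M = γ := by
          by_contra hh; exact n3 (ind_neg hh)
        have g3 : b + 16 * (p * c) ≠ 0 ∧ q2 (b + 16 * (p * c)) = l := by
          by_contra hh
          apply n2
          have : gl l (b + 16 * (p * c)) = 0 := if_neg hh
          rw [this]; simp
        have g4 : IsCoprime b (p : ℤ) := by
          by_contra hh
          apply n1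
          have hne1 : b.gcd p ≠ 1 := by rwa [Ne, ← Int.isCoprime_iff_gcd_eq_one]
          have : jacobiSym b p = 0 := jacobiSym.eq_zero_iff.2 ⟨hp.ne_zero, hne1⟩
          rw [this]; simp
        exact h ⟨h1, mul_ne_zero hp0 hc, g3.1, g4.mul_right hbc, h5, g3.2,
          by rw [q2_mul hp hc hpc]; exact h7, h8, g2, g1⟩
      rw [this, mul_zero]
    · rw [ind_neg h', zero_mul, zero_mul]

/-- the sum of the reciprocals of the odd primes is unbounded -/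
lemma LL_unbdd (K : ℝ) : ∃ P : Finset ℕ, (∀ p ∈ P, p.Prime ∧ p ≠ 2) ∧ K < LL P := by
  classical
  have h1 := not_summable_one_div_on_primes
  have h2 : ¬ Summable (fun n : ℕ => Set.indicator {p : ℕ | p.Prime ∧ p ≠ 2} (fun n : ℕ => (1 : ℝ) / n) n) := by
    intro hs
    apply h1
    have h3 : Summable (fun n : ℕ => if n = 2 then (1 : ℝ) / 2 else 0) :=
      summable_of_ne_finset_zero (s := {2}) (fun b hb => if_neg (by simpa using hb))
    refine (hs.add h3).congr fun n => ?_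
    by_cases hn : n = 2
    · subst hn
      rw [Set.indicator_of_notMem (by simp), if_pos rfl,
        Set.indicator_of_mem (show (2 : ℕ) ∈ {p : ℕ | p.Prime} from Nat.prime_two)]
      norm_num
    · rw [if_neg hn, add_zero]
      by_cases hp : n.Prime
      · rw [Set.indicator_of_mem (show n ∈ {p : ℕ | p.Prime ∧ p ≠ 2} from ⟨hp, hn⟩),
          Set.indicator_of_mem (show n ∈ {p : ℕ | p.Prime} from hp)]
      · rw [Set.indicator_of_notMem (show n ∉ {p : ℕ | p.Prime ∧ p ≠ 2} from fun h => hp h.1),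
          Set.indicator_of_notMem (show n ∉ {p : ℕ | p.Prime} from hp)]
  have h4 : ∀ n : ℕ, 0 ≤ Set.indicator {p : ℕ | p.Prime ∧ p ≠ 2} (fun n : ℕ => (1 : ℝ) / n) n :=
    fun n => Set.indicator_nonneg (fun _ _ => by positivity) n
  have h5 := (not_summable_iff_tendsto_nat_atTop_of_nonneg h4).1 h2
  obtain ⟨N, hN⟩ := (h5.eventually_gt_atTop K).exists
  refine ⟨(range N).filter (fun p => p.Prime ∧ p ≠ 2), fun p hp => (mem_filter.1 hp).2, ?_⟩
  unfold LL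
  rw [sum_filter]
  refine hN.trans_le (le_of_eq (sum_congr rfl fun n _ => ?_))
  by_cases hp : n.Prime ∧ n ≠ 2
  · rw [Set.indicator_of_mem (show n ∈ {p : ℕ | p.Prime ∧ p ≠ 2} from hp), if_pos hp]
  · rw [Set.indicator_of_notMem (show n ∉ {p : ℕ | p.Prime ∧ p ≠ 2} from hp), if_neg hp]

lemma sum_sq_le (P : Finset ℕ) (hP : ∀ p ∈ P, p.Prime) : ∑ p ∈ P, 1 / (p : ℝ) ^ 2 ≤ 1 := by
  classical
  have h1 : ∀ N : ℕ, ∑ n ∈ range N, (if 2 ≤ n then 1 / (n : ℝ) ^ 2 else 0) ≤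
      1 - (if 2 ≤ N then 1 / ((N : ℝ) - 1) else 1) + (if 2 ≤ N then 0 else 0) := by
    intro N
    induction N with
    | zero => simp
    | succ N ih =>
      rw [sum_range_succ]
      rcases Nat.lt_or_ge N 2 with h | h
      · interval_cases N
        · simp at ih ⊢
        · simp at ih ⊢
          norm_num [sum_range_succ]
      · rw [if_pos h] at ih ⊢
        rw [if_pos h, add_zero] at ih
        rw [if_pos (by omega : 2 ≤ N + 1), if_pos (by omega : 2 ≤ N + 1), add_zero]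
        push_cast
        have hN : (2 : ℝ) ≤ N := by exact_mod_cast h
        have h2 : 1 / (N : ℝ) ^ 2 ≤ 1 / ((N : ℝ) - 1) - 1 / N := by
          rw [div_sub_div _ _ (by linarith) (by linarith), div_le_div_iff₀ (by positivity)
            (by nlinarith)]
          nlinarith
        have h3 : (N : ℝ) + 1 - 1 = N := by ring
        rw [h3]
        linarith
  obtain ⟨N, hN⟩ : ∃ N : ℕ, P ⊆ range N := ⟨P.sup id + 1, fun p hp => by
    rw [mem_range]
    have := le_sup (f := id) hp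
    simp only [id] at this
    omega⟩
  calc ∑ p ∈ P, 1 / (p : ℝ) ^ 2 = ∑ p ∈ P, (if 2 ≤ p then 1 / (p : ℝ) ^ 2 else 0) :=
        sum_congr rfl fun p hp => by rw [if_pos (hP p hp).two_le]
    _ ≤ ∑ n ∈ range N, (if 2 ≤ n then 1 / (n : ℝ) ^ 2 else 0) :=
        sum_le_sum_of_subset_of_nonneg hN fun n _ _ => by split_ifs <;> positivity
    _ ≤ _ := h1 N
    _ ≤ 1 := by
        split_ifs with h
        · have : (2 : ℝ) ≤ N := by exact_mod_cast h
          have h2 : 0 ≤ 1 / ((N : ℝ) - 1) := by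
            apply div_nonneg <;> linarith
          linarith
        · norm_num

/-- **the mean value of the root numbers is zero** -/
theorem core {k l j M : ℕ} (hl : 0 < l) (hM : 0 < M) (m : ℕ) {ε : ℝ} (hε : 0 < ε) :
    ∃ X0 : ℕ, ∀ X : ℕ, X0 ≤ X → ∀ (β γ s : ℤ) (R : ℤ → ℤ → Prop), Tame m R →
      (∀ b c, R b c → (s < 0 ↔ b + 16 * c < 0)) →
      |∑ b ∈ Bx X, ∑ c ∈ Bx X, ind (Cd k l j M β γ R b c) * (w b c : ℝ)| ≤ ε * X ^ 2 := by
  classical
  obtain ⟨δ, hδ⟩ : ∃ δ : ℝ, δ = ε / 16 := ⟨_, rfl⟩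
  have hδ0 : 0 < δ := by rw [hδ]; positivity
  obtain ⟨P, hP, hL⟩ := LL_unbdd (16 / ε * (1 / δ + 1) + 1)
  have hPp : ∀ p ∈ P, p.Prime := fun p hp => (hP p hp).1
  obtain ⟨L, hLL⟩ : ∃ L : ℝ, L = LL P := ⟨_, rfl⟩
  have hL1 : 1 < L := by
    rw [hLL]
    have : 0 < 16 / ε * (1 / δ + 1) := by positivity
    linarith
  have hL0 : 0 < L := by linarith
  obtain ⟨C, hC⟩ : ∃ C : ℝ, C = (P.card : ℝ) ^ 2 + P.card + 1 := ⟨_, rfl⟩
  have hC0 : 0 < C := by rw [hC]; positivity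
  obtain ⟨η, hη⟩ : ∃ η : ℝ, η = ε * δ / (4 * C) := ⟨_, rfl⟩
  have hη0 : 0 < η := by rw [hη]; positivity
  have hoff : ∀ p q : ℕ, ∃ X0 : ℕ, (p ∈ P → q ∈ P → p ≠ q → ∀ X : ℕ, X0 ≤ X →
      ∀ (γ : ℤ) (R : ℤ → ℤ → Prop), Tame m R →
      |∑ b ∈ Bx X, ∑ c ∈ Bx X, Gp X k l M γ R p b c * Gp X k l M γ R q b c| ≤ η * X ^ 2) := by
    intro p q
    by_cases h : p ∈ P ∧ q ∈ P ∧ p ≠ q
    · obtain ⟨hp, hq, hne⟩ := h
      rcases lt_or_gt_of_ne hne with hlt | hlt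
      · obtain ⟨X0, hX0⟩ := off hl hM (hPp q hq).pos (hPp p hp).pos hlt m hη0
        refine ⟨X0, fun _ _ _ X hX γ R hR => ?_⟩
        have := hX0 X hX k γ R hR
        refine le_trans (le_of_eq ?_) this
        congr 1
        exact sum_congr rfl fun b _ => sum_congr rfl fun c _ => mul_comm _ _
      · obtain ⟨X0, hX0⟩ := off hl hM (hPp p hp).pos (hPp q hq).pos hlt m hη0
        exact ⟨X0, fun _ _ _ X hX γ R hR => hX0 X hX k γ R hR⟩
    · exact ⟨0, fun hp hq hne => absurd ⟨hp, hq, hne⟩ h⟩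
  choose X1 hX1 using hoff
  obtain ⟨X2, hX2⟩ := exists_nat_ge (8 / ε * (3 * C / δ + 2 * C + C / δ))
  refine ⟨max (∑ p ∈ P, ∑ q ∈ P, X1 p q) (max X2 1), fun X hX β γ s R hR hs => ?_⟩
  have hXa : ∑ p ∈ P, ∑ q ∈ P, X1 p q ≤ X := (le_max_left _ _).trans hX
  have hXb : X2 ≤ X := ((le_max_left _ _).trans (le_max_right _ _)).trans hX
  have hXc : 1 ≤ X := ((le_max_right _ _).trans (le_max_right _ _)).trans hX
  have hXr : (1 : ℝ) ≤ X := by exact_mod_cast hXc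
  have main := katai (X := X) (by omega) hPp
    (F := fun b c => ind (Cd k l j M β γ R b c) * (w b c : ℝ))
    (Ψ := fun b c => ind (Cd' k j M β b c) * (Psi l s b c : ℝ)) (G := Gp X k l M γ R)
    (fun b c => abs_mul_le (ind_abs _) (w_abs _ _))
    (fun b c => abs_mul_le (ind_abs _) (Psi_abs _ _ _ _))
    (fun p b c => Gp_abs _ _ _ _ _ _ _ _ _)
    (fun p hp b _ c _ h1 h2 => split_F hs (hPp p hp) (hP p hp).2 h1 h2)
    (fun p _ b c h => Gp_zero h) hδ0 hη0.le (by rw [← hLL]; exact hL0)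
    (fun p hp q hq hne => hX1 p q hp hq hne X (by
      refine le_trans ?_ hXa
      exact (single_le_sum (f := fun q => X1 p q) (fun _ _ => Nat.zero_le _) hq).trans
        (single_le_sum (f := fun p => ∑ q ∈ P, X1 p q) (fun _ _ => Nat.zero_le _) hp)) γ R hR)
  rw [← hLL] at main
  refine le_of_mul_le_mul_left (main.trans ?_) hL0
  have hsq := sum_sq_le P hPp
  have e1 : ∑ p ∈ P, 2 * (X : ℝ) * (2 * X / (p : ℝ) ^ 2 + 1) ≤
      4 * (X : ℝ) ^ 2 + 2 * (X : ℝ) * (P.card : ℝ) := by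
    have : ∑ p ∈ P, 2 * (X : ℝ) * (2 * X / (p : ℝ) ^ 2 + 1) =
        4 * (X : ℝ) ^ 2 * ∑ p ∈ P, 1 / (p : ℝ) ^ 2 + 2 * (X : ℝ) * (P.card : ℝ) := by
      have h0 : ∀ p ∈ P, 2 * (X : ℝ) * (2 * X / (p : ℝ) ^ 2 + 1) =
          4 * (X : ℝ) ^ 2 * (1 / (p : ℝ) ^ 2) + 2 * (X : ℝ) := fun p _ => by ring
      rw [sum_congr rfl h0, sum_add_distrib, ← mul_sum, sum_const, nsmul_eq_mul]
      ring
    rw [this]
    have : 4 * (X : ℝ) ^ 2 * ∑ p ∈ P, 1 / (p : ℝ) ^ 2 ≤ 4 * (X : ℝ) ^ 2 * 1 :=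
      mul_le_mul_of_nonneg_left hsq (by positivity)
    linarith
  have hPC : (P.card : ℝ) ^ 2 ≤ C := by
    rw [hC]; have : (0 : ℝ) ≤ P.card := Nat.cast_nonneg _; linarith
  have hPC' : (P.card : ℝ) ≤ C := by
    rw [hC]; have : (0 : ℝ) ≤ (P.card : ℝ) ^ 2 := by positivity
    linarith
  -- the five error terms
  have t1 : 4 / δ + 4 ≤ ε / 4 * L := by
    rw [hLL]
    have : 16 / ε * (1 / δ + 1) < LL P := by linarith
    have h2 : ε / 4 * (16 / ε * (1 / δ + 1)) < ε / 4 * LL P := by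
      apply mul_lt_mul_of_pos_left this; positivity
    have h3 : ε / 4 * (16 / ε * (1 / δ + 1)) = 4 / δ + 4 := by field_simp; ring
    linarith
  have t2 : 4 * δ = ε / 4 := by rw [hδ]; ring
  have t3 : η * C / (2 * δ) ≤ ε / 8 * L := by
    have : η * C / (2 * δ) = ε / 8 := by rw [hη]; field_simp; ring
    rw [this]
    nlinarith
  have t4 : 3 * C / δ + 2 * C + C / δ ≤ ε / 8 * X := by
    have h1 : (X2 : ℝ) ≤ X := by exact_mod_cast hXb
    have h2 := hX2.trans h1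
    have h3 : ε / 8 * (8 / ε * (3 * C / δ + 2 * C + C / δ)) ≤ ε / 8 * X :=
      mul_le_mul_of_nonneg_left h2 (by positivity)
    have h4 : ε / 8 * (8 / ε * (3 * C / δ + 2 * C + C / δ)) = 3 * C / δ + 2 * C + C / δ := by
      field_simp
    linarith
  -- rewrite the bound
  have r1 : 2 * (X : ℝ) * ((2 * X * L + 3 * (P.card : ℝ) ^ 2) / (2 * (δ * L)) + X * (δ * L)) ≤
      2 * X ^ 2 / δ + 3 * C / δ * X + 2 * δ * L * X ^ 2 := by
    have e : 2 * (X : ℝ) * ((2 * X * L + 3 * (P.card : ℝ) ^ 2) / (2 * (δ * L)) + X * (δ * L)) =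
        2 * X ^ 2 / δ + 3 * (P.card : ℝ) ^ 2 / δ * X / L + 2 * δ * L * X ^ 2 := by
      field_simp
    rw [e]
    have h1 : 3 * (P.card : ℝ) ^ 2 / δ * X / L ≤ 3 * C / δ * X := by
      calc _ ≤ 3 * (P.card : ℝ) ^ 2 / δ * X := div_le_self (by positivity) hL1.le
        _ ≤ _ := by gcongr
    linarith
  have r2 : (4 * (X : ℝ) ^ 2 * L + 2 * X * P.card + η * (P.card : ℝ) ^ 2 * X ^ 2) / (2 * (δ * L)) +
      2 * X ^ 2 * (δ * L) ≤ 2 * X ^ 2 / δ + C / δ * X + η * C / (2 * δ) * X ^ 2 +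
        2 * δ * L * X ^ 2 := by
    have e : (4 * (X : ℝ) ^ 2 * L + 2 * X * P.card + η * (P.card : ℝ) ^ 2 * X ^ 2) / (2 * (δ * L)) =
        2 * X ^ 2 / δ + P.card / δ * X / L + η * (P.card : ℝ) ^ 2 / (2 * δ) * X ^ 2 / L := by
      field_simp
      ring
    rw [e]
    have h1 : (P.card : ℝ) / δ * X / L ≤ C / δ * X := by
      calc _ ≤ (P.card : ℝ) / δ * X := div_le_self (by positivity) hL1.le
        _ ≤ _ := by gcongr
    have h2 : η * (P.card : ℝ) ^ 2 / (2 * δ) * X ^ 2 / L ≤ η * C / (2 * δ) * X ^ 2 := by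
      calc _ ≤ η * (P.card : ℝ) ^ 2 / (2 * δ) * X ^ 2 := div_le_self (by positivity) hL1.le
        _ ≤ _ := by gcongr
    linarith
  have r3 : 2 * (X : ℝ) * P.card ≤ 2 * C * X := by nlinarith
  have s1 : (4 / δ + 4) * (X : ℝ) ^ 2 ≤ ε / 4 * L * X ^ 2 :=
    mul_le_mul_of_nonneg_right t1 (by positivity)
  have s3 : η * C / (2 * δ) * (X : ℝ) ^ 2 ≤ ε / 8 * L * X ^ 2 :=
    mul_le_mul_of_nonneg_right t3 (by positivity)
  have s4 : (3 * C / δ + 2 * C + C / δ) * (X : ℝ) ≤ ε / 8 * L * X ^ 2 := by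
    calc _ ≤ ε / 8 * X * X := mul_le_mul_of_nonneg_right t4 (by positivity)
      _ = ε / 8 * X ^ 2 * 1 := by ring
      _ ≤ ε / 8 * X ^ 2 * L := mul_le_mul_of_nonneg_left hL1.le (by positivity)
      _ = _ := by ring
  have s2 : 4 * δ * L * (X : ℝ) ^ 2 = ε / 4 * L * X ^ 2 := by rw [t2]
  have u1 : 2 * (X : ℝ) ^ 2 / δ = 2 / δ * X ^ 2 := by ring
  have u2 : (4 / δ + 4) * (X : ℝ) ^ 2 = 2 * (2 / δ * X ^ 2) + 4 * X ^ 2 := by ring
  have u3 : L * (ε * (X : ℝ) ^ 2) = ε * L * X ^ 2 := by ring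
  rw [u3]
  have hpos : 0 ≤ ε * L * (X : ℝ) ^ 2 := by positivity
  nlinarith [r1, r2, r3, e1, s1, s2, s3, s4, u1, u2]

end Pool.Agent.K1H81.RN
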