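import Pool.Agent.K1H81.RN.Hgt2

/-!
# The cusps; equidistribution by discriminant (helper81)
-/

set_option autoImplicit false

namespace Pool.Agent.K1H81.RN

open Finset Filter Topology

lemma cusp_cases {T X1 : ℤ} (hX : 0 < X1) {b c : ℤ} (hb : b ≠ 0) (hc : c ≠ 0)
    (ha : b + 16 * c ≠ 0) (hT : |b| * |c| * |b + 16 * c| ≤ T)
    (hbig : 32 * X1 < |b| ∨ 32 * X1 < |c|) :
    (b ≠ 0 ∧ X1 ≤ |c| ∧ |b| * c ^ 2 ≤ T) ∨ (c ≠ 0 ∧ X1 ≤ |b| ∧ |c| * b ^ 2 ≤ 2 * T) ∨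
      (b + 16 * c ≠ 0 ∧ X1 ≤ |b| ∧ |b + 16 * c| * b ^ 2 ≤ 32 * T) := by
  obtain ⟨A, hA⟩ : ∃ A, A = |b + 16 * c| := ⟨_, rfl⟩
  obtain ⟨B, hB⟩ : ∃ B, B = |b| := ⟨_, rfl⟩
  obtain ⟨C, hC⟩ : ∃ C, C = |c| := ⟨_, rfl⟩
  have hA0 : 0 < A := by rw [hA]; exact abs_pos.2 ha
  have hB0 : 0 < B := by rw [hB]; exact abs_pos.2 hb
  have hC0 : 0 < C := by rw [hC]; exact abs_pos.2 hc
  have t1 : A ≤ B + 16 * C := by
    rw [hA, hB, hC]
    have := abs_add_le b (16 * c)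
    rwa [abs_mul, abs_of_pos (by norm_num : (0 : ℤ) < 16)] at this
  have t2 : B ≤ A + 16 * C := by
    rw [hA, hB, hC]
    have := abs_sub (b + 16 * c) (16 * c)
    rw [abs_mul, abs_of_pos (by norm_num : (0 : ℤ) < 16)] at this
    have e : b + 16 * c - 16 * c = b := by ring
    rwa [e] at this
  have t3 : 16 * C ≤ A + B := by
    rw [hA, hB, hC]
    have := abs_sub (b + 16 * c) b
    have e : b + 16 * c - b = 16 * c := by ring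
    rw [e, abs_mul, abs_of_pos (by norm_num : (0 : ℤ) < 16)] at this
    exact this
  have eb : b ^ 2 = B ^ 2 := by rw [hB, sq_abs]
  have ec : c ^ 2 = C ^ 2 := by rw [hC, sq_abs]
  rw [eb, ec]
  rw [← hA, ← hB, ← hC] at hT ⊢
  rw [← hB, ← hC] at hbig
  rcases le_total B A with h1 | h1
  · rcases le_total B (16 * C) with h2 | h2
    · -- `B` smallest
      left
      refine ⟨hb, by omega, ?_⟩
      have h3 : C ≤ A := by omega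
      have h4 : 0 < B * C := by positivity
      nlinarith
    · right; left
      refine ⟨hc, by omega, ?_⟩
      have h3 : B ≤ 2 * A := by omega
      have h4 : 0 < B * C := by positivity
      nlinarith
  · rcases le_total A (16 * C) with h2 | h2
    · right; right
      refine ⟨ha, by omega, ?_⟩
      have h3 : B ≤ 32 * C := by omega
      have h4 : 0 < B * A := by positivity
      nlinarith
    · right; left
      refine ⟨hc, by omega, ?_⟩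
      have h3 : B ≤ 2 * A := by omega
      have h4 : 0 < B * C := by positivity
      nlinarith

/-- **few points in the cusps** -/
theorem cusps {T X1 N : ℕ} (hX : 0 < X1) :
    ∑ b ∈ Bx N, ∑ c ∈ Bx N, ind ((b ≠ 0 ∧ c ≠ 0 ∧ b + 16 * c ≠ 0 ∧ |b| * |c| * |b + 16 * c| ≤ T) ∧
      (32 * (X1 : ℤ) < |b| ∨ 32 * (X1 : ℤ) < |c|)) ≤ 280 * T / X1 := by
  classical
  have hXz : (0 : ℤ) < X1 := by exact_mod_cast hX
  have hXr : (0 : ℝ) < X1 := by exact_mod_cast hX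
  have h1 : ∀ b ∈ Bx N, ∀ c ∈ Bx N, ind ((b ≠ 0 ∧ c ≠ 0 ∧ b + 16 * c ≠ 0 ∧
      |b| * |c| * |b + 16 * c| ≤ T) ∧ (32 * (X1 : ℤ) < |b| ∨ 32 * (X1 : ℤ) < |c|)) ≤
      ind (b ≠ 0 ∧ (X1 : ℤ) ≤ |c| ∧ |b| * c ^ 2 ≤ (T : ℤ)) +
      (ind (c ≠ 0 ∧ (X1 : ℤ) ≤ |b| ∧ |c| * b ^ 2 ≤ ((2 * T : ℕ) : ℤ)) +
      ind (b + 16 * c ≠ 0 ∧ (X1 : ℤ) ≤ |b| ∧ |b + 16 * c| * b ^ 2 ≤ ((32 * T : ℕ) : ℤ))) := by
    intro b _ c _
    refine (ind_le_of ?_).trans ((ind_or_le _ _).trans (add_le_add le_rfl (ind_or_le _ _)))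
    rintro ⟨⟨hb, hc, ha, hT⟩, hbig⟩
    push_cast
    exact cusp_cases hXz hb hc ha hT hbig
  refine (sum_le_sum fun b hb => sum_le_sum fun c hc => h1 b hb c hc).trans ?_
  simp only [sum_add_distrib]
  have c1 : ∑ b ∈ Bx N, ∑ c ∈ Bx N, ind (b ≠ 0 ∧ (X1 : ℤ) ≤ |c| ∧ |b| * c ^ 2 ≤ (T : ℤ)) ≤
      8 * T / X1 := by
    rw [sum_comm]
    exact cusp hX
  have c2 : ∑ b ∈ Bx N, ∑ c ∈ Bx N, ind (c ≠ 0 ∧ (X1 : ℤ) ≤ |b| ∧ |c| * b ^ 2 ≤ ((2 * T : ℕ) : ℤ)) ≤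
      8 * ((2 * T : ℕ) : ℝ) / X1 := cusp hX
  have c3 : ∑ b ∈ Bx N, ∑ c ∈ Bx N, ind (b + 16 * c ≠ 0 ∧ (X1 : ℤ) ≤ |b| ∧
      |b + 16 * c| * b ^ 2 ≤ ((32 * T : ℕ) : ℤ)) ≤ 8 * ((32 * T : ℕ) : ℝ) / X1 := by
    refine le_trans ?_ (cusp (N := 17 * N) hX)
    have h2 : ∀ b ∈ Bx N, ∑ c ∈ Bx N, ind (b + 16 * c ≠ 0 ∧ (X1 : ℤ) ≤ |b| ∧
        |b + 16 * c| * b ^ 2 ≤ ((32 * T : ℕ) : ℤ)) ≤
        ∑ x ∈ Bx (17 * N), ind (x ≠ 0 ∧ (X1 : ℤ) ≤ |b| ∧ |x| * b ^ 2 ≤ ((32 * T : ℕ) : ℤ)) := by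
      intro b hb
      have e : ∑ c ∈ Bx N, ind (b + 16 * c ≠ 0 ∧ (X1 : ℤ) ≤ |b| ∧
          |b + 16 * c| * b ^ 2 ≤ ((32 * T : ℕ) : ℤ)) =
          ∑ x ∈ (Bx N).image (fun c => b + 16 * c), ind (x ≠ 0 ∧ (X1 : ℤ) ≤ |b| ∧
            |x| * b ^ 2 ≤ ((32 * T : ℕ) : ℤ)) := by
        rw [sum_image]
        intro x _ y _ h
        have h' : b + 16 * x = b + 16 * y := h
        omega
      rw [e]
      refine sum_le_sum_of_subset_of_nonneg ?_ fun _ _ _ => ind_nonneg _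
      intro x hx
      obtain ⟨c, hc, rfl⟩ := mem_image.1 hx
      have hb' := mem_Bx.1 hb
      have hc' := mem_Bx.1 hc
      rw [mem_Bx]
      push_cast
      omega
    refine (sum_le_sum h2).trans ?_
    refine sum_le_sum_of_subset_of_nonneg ?_ fun _ _ _ => sum_nonneg fun _ _ => ind_nonneg _
    intro x hx
    rw [mem_Bx] at hx ⊢
    push_cast
    omega
  have e : (280 * T / X1 : ℝ) = 8 * T / X1 + (8 * ((2 * T : ℕ) : ℝ) / X1 +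
      8 * ((32 * T : ℕ) : ℝ) / X1) := by
    push_cast
    field_simp
    ring
  rw [e]
  exact add_le_add c1 (add_le_add c2 c3)

/-- cutting off the cusps -/
theorem cut {T X1 N : ℕ} (hX : 0 < X1) (hN : 32 * X1 + 1 ≤ N) {f : ℤ → ℤ → ℝ} {P : ℤ → ℤ → Prop}
    (hP : ∀ b c, P b c → b ≠ 0 ∧ c ≠ 0 ∧ b + 16 * c ≠ 0 ∧ |b| * |c| * |b + 16 * c| ≤ T)
    (hf : ∀ b c, |f b c| ≤ ind (P b c)) :
    |∑ b ∈ Bx N, ∑ c ∈ Bx N, f b c| ≤
      |∑ b ∈ Bx (32 * X1 + 1), ∑ c ∈ Bx (32 * X1 + 1), f b c| + 280 * T / X1 := by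
  classical
  have hsub : Bx (32 * X1 + 1) ×ˢ Bx (32 * X1 + 1) ⊆ Bx N ×ˢ Bx N := by
    rintro ⟨b, c⟩ h
    rw [mem_product, mem_Bx, mem_Bx] at h ⊢
    simp only at h ⊢
    push_cast at h
    omega
  rw [← sum_product', ← sum_product' (s := Bx (32 * X1 + 1)), ← sum_sdiff hsub, add_comm]
  refine (abs_add_le _ _).trans (add_le_add le_rfl ?_)
  refine le_trans ?_ (cusps (T := T) (N := N) hX)
  rw [← sum_product']
  refine (abs_sum_le_sum_abs _ _).trans ?_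
  refine (sum_le_sum (g := fun z : ℤ × ℤ => ind ((z.1 ≠ 0 ∧ z.2 ≠ 0 ∧ z.1 + 16 * z.2 ≠ 0 ∧
    |z.1| * |z.2| * |z.1 + 16 * z.2| ≤ T) ∧ (32 * (X1 : ℤ) < |z.1| ∨ 32 * (X1 : ℤ) < |z.2|)))
    ?_).trans ?_
  · rintro ⟨b, c⟩ hz
    refine (hf b c).trans (ind_le_of fun h => ⟨hP b c h, ?_⟩)
    obtain ⟨-, h2⟩ := Finset.mem_sdiff.1 hz
    rw [mem_product, mem_Bx, mem_Bx] at h2
    simp only at h2
    push_cast at h2
    simp only
    by_contra hcon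
    push Not at hcon
    obtain ⟨g1, g2⟩ := hcon
    have g1' := abs_le.1 g1
    have g2' := abs_le.1 g2
    apply h2
    omega
  · exact sum_le_sum_of_subset_of_nonneg sdiff_subset fun _ _ _ => ind_nonneg _

lemma poly_Di : PolyFn 6 Di := by
  have h1 : PolyFn 1 (fun x y => x + 16 * y) := PolyFn.fst.add (PolyFn.cmul 16 PolyFn.snd)
  have h2 : PolyFn 6 (fun x y => ((x + 16 * y) * x * y) ^ 2) :=
    (((h1.mul PolyFn.fst).mul PolyFn.snd).pow 2)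
  exact h2.congr fun x y => by unfold Di; ring

lemma Di_eq (b c : ℤ) : Di b c = (|b| * |c| * |b + 16 * c|) ^ 2 := by
  rw [← abs_mul, ← abs_mul, sq_abs]
  unfold Di
  ring

lemma Adm.b0 {b c : ℤ} (h : Adm b c) : b ≠ 0 := by
  have := h.1
  omega

lemma Di_box {b c : ℤ} (h : Adm b c) {V : ℕ} (hD : |b| * |c| * |b + 16 * c| ≤ V) :
    b ∈ Bx (V + 1) ∧ c ∈ Bx (V + 1) := by
  have hb : 0 < |b| := abs_pos.2 h.b0
  have hc : 0 < |c| := abs_pos.2 h.2.1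
  have ha : 0 < |b + 16 * c| := abs_pos.2 h.2.2.1
  have h1 : |b| ≤ V := by
    have : 1 ≤ |c| * |b + 16 * c| := by
      have : 0 < |c| * |b + 16 * c| := by positivity
      omega
    nlinarith
  have h2 : |c| ≤ V := by
    have : 1 ≤ |b| * |b + 16 * c| := by
      have : 0 < |b| * |b + 16 * c| := by positivity
      omega
    nlinarith
  have g1 := abs_le.1 h1
  have g2 := abs_le.1 h2
  rw [mem_Bx, mem_Bx]
  push_cast
  omega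

/-- the region -/
def Rd (Z : ℕ) (b c : ℤ) : Prop := Di b c ≤ (Z : ℤ)

lemma Rd_tame (Z : ℕ) : Tame 6 (Rd Z) := poly_Di.tame Z

lemma Rd_prod {Z : ℕ} {b c : ℤ} (h : Rd Z b c) : |b| * |c| * |b + 16 * c| ≤ ((rt 6 Z + 1) ^ 3 : ℕ) := by
  unfold Rd at h
  rw [Di_eq] at h
  have h1 : (Z : ℤ) < (((rt 6 Z + 1 : ℕ) : ℤ)) ^ 6 := by
    exact_mod_cast lt_rt (k := 6) (by norm_num) Z
  have h2 : (|b| * |c| * |b + 16 * c|) ^ 2 ≤ ((((rt 6 Z + 1 : ℕ) : ℤ)) ^ 3) ^ 2 := by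
    have e : ((((rt 6 Z + 1 : ℕ) : ℤ)) ^ 3) ^ 2 = (((rt 6 Z + 1 : ℕ) : ℤ)) ^ 6 := by ring
    rw [e]
    linarith
  have h3 := (sq_le_sq₀ (by positivity) (by positivity)).1 h2
  push_cast at h3 ⊢
  exact h3

open Classical in
/-- the finite sets -/
noncomputable def Fd (Z : ℕ) : Finset (ℤ × ℤ) :=
  (Bx ((rt 6 Z + 1) ^ 3 + 1) ×ˢ Bx ((rt 6 Z + 1) ^ 3 + 1)).filter
    (fun z => Adm z.1 z.2 ∧ 0 < z.2 ∧ Rd Z z.1 z.2)

lemma mem_Fd {Z : ℕ} {b c : ℤ} : (b, c) ∈ Fd Z ↔ (Adm b c ∧ 0 < c ∧ Rd Z b c) := by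
  classical
  unfold Fd
  rw [mem_filter, mem_product]
  constructor
  · exact fun h => h.2
  · exact fun h => ⟨Di_box h.1 (Rd_prod h.2.2), h⟩

lemma Bx_mono {N N' : ℕ} (h : N ≤ N') {b : ℤ} (hb : b ∈ Bx N) : b ∈ Bx N' := by
  rw [mem_Bx] at hb ⊢
  omega

/-- the bound for one piece -/
theorem piece {ε : ℝ} (hε : 0 < ε) (V : ℕ) :
    ∃ K : ℕ, 0 < K ∧ ∀ X : ℕ, ∀ T : ℕ, T ≤ V * (X + 1) ^ 3 →
      280 * (T : ℝ) / ((K * (X + 1) : ℕ) : ℝ) ≤ ε * ((X : ℝ) + 1) ^ 2 := by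
  obtain ⟨K, hK⟩ := exists_nat_gt (280 * (V : ℝ) / ε)
  refine ⟨K + 1, Nat.succ_pos _, fun X T hT => ?_⟩
  have hX : (0 : ℝ) < (X : ℝ) + 1 := by positivity
  have hTr : (T : ℝ) ≤ V * ((X : ℝ) + 1) ^ 3 := by exact_mod_cast hT
  rw [div_lt_iff₀ hε] at hK
  push_cast
  rw [div_le_iff₀ (by positivity)]
  calc 280 * (T : ℝ) ≤ 280 * (V * ((X : ℝ) + 1) ^ 3) := by linarith
    _ = (280 * V) * ((X : ℝ) + 1) ^ 3 := by ring
    _ ≤ ((K + 1) * ε) * ((X : ℝ) + 1) ^ 3 := by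
        apply mul_le_mul_of_nonneg_right _ (by positivity)
        nlinarith
    _ = ε * ((X : ℝ) + 1) ^ 2 * ((K + 1) * ((X : ℝ) + 1)) := by ring

/-- **Equidistribution of the root numbers by discriminant.** -/
theorem main_disc {m : ℕ} (hm : 0 < m) {r s b0 c0 : ℤ} (h0 : Adm b0 c0) (hcg : Cg m r s b0 c0) :
    (∀ Z, (Fam (fun W => W.Δ.natAbs) m r s (fun _ => True) Z).Finite) ∧
    Tendsto (fun Z => (Fam (fun W => W.Δ.natAbs) m r s (fun _ => True) Z).ncard) atTop atTop ∧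
    ∀ e : ℤ, e = 1 ∨ e = -1 →
      Tendsto (fun Z => ((Fam (fun W => W.Δ.natAbs) m r s (fun w => w = e) Z).ncard : ℝ) /
        ((Fam (fun W => W.Δ.natAbs) m r s (fun _ => True) Z).ncard : ℝ)) atTop (𝓝 (1 / 2)) := by
  obtain ⟨δ, hδ, hlow⟩ := low_fam hm h0 hcg (F := Fd) (k := 6) (K := 3) (by norm_num) (by norm_num)
    (by
      intro Z Y b c hY hadm hb hb' hc hc'
      rw [mem_Fd]
      refine ⟨hadm, hc, ?_⟩
      have hZ := rt_le (k := 6) (by norm_num) Z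
      have h1 : ((3 * Y : ℕ) : ℤ) ^ 6 ≤ Z := by
        have : (3 * Y) ^ 6 ≤ Z := (Nat.pow_le_pow_left hY 6).trans hZ
        exact_mod_cast this
      push_cast at h1
      obtain ⟨y, hy⟩ : ∃ y : ℤ, y = Y := ⟨_, rfl⟩
      rw [← hy] at hb' hc' h1
      have hy0 : 0 < y := by omega
      have g1 : (b + 16 * c) * b * c ≤ (17 * y) * y * y := by
        have i1 : b + 16 * c ≤ 17 * y := by omega
        exact mul_le_mul (mul_le_mul i1 hb' hb.le (by positivity)) hc' hc.le (by positivity)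
      have g2 : 0 ≤ (b + 16 * c) * b * c := by positivity
      have g3 : Di b c ≤ ((17 * y) * y * y) ^ 2 := pow_le_pow_left₀ g2 g1 2
      have e1 : ((17 * y) * y * y) ^ 2 = 289 * y ^ 6 := by ring
      have e2 : (3 * y) ^ 6 = 729 * y ^ 6 := by ring
      have g4 : 0 ≤ y ^ 6 := by positivity
      unfold Rd
      rw [e1] at g3
      rw [e2] at h1
      linarith)
  refine limit (R := Rd) (fun Z W b c _ hadm _ _ _ hD => ?_)
    (F := Fd) (fun Z b c => mem_Fd) (g_tendsto (k := 6) (by norm_num)) ?_ hδ hlow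
  · show W.Δ.natAbs ≤ Z ↔ Rd Z b c
    rw [hD]
    unfold Rd
    have : 0 ≤ Di b c := by unfold Di; positivity
    omega
  intro ε hε
  obtain ⟨K, hK, hpiece⟩ := piece (ε := ε / 2) (by positivity) 1
  obtain ⟨ε', hε'⟩ : ∃ ε', ε' = ε / 2 / (33 * K) ^ 2 := ⟨_, rfl⟩
  have hKr : (0 : ℝ) < K := by exact_mod_cast hK
  have hε'0 : 0 < ε' := by rw [hε']; positivity
  obtain ⟨X0, hX0⟩ := boxP (M := 4 * m) (by omega) 6 hε'0
  filter_upwards [(rt_tendsto (k := 6) (by norm_num)).eventually_ge_atTop X0] with Z hZ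
  obtain ⟨X, hX⟩ : ∃ X, X = rt 6 Z := ⟨_, rfl⟩
  rw [← hX] at hZ ⊢
  have hX1 : 0 < K * (X + 1) := by positivity
  have h1 := hX0 (32 * (K * (X + 1)) + 1) (by nlinarith) (Cg m r s) (fun _ _ => Rd Z)
    (fun _ _ => Rd_tame Z)
  obtain ⟨N, hN⟩ : ∃ N, N = (X + 1) ^ 3 + 1 + (32 * (K * (X + 1)) + 1) := ⟨_, rfl⟩
  have hin : ∀ b c : ℤ, (Adm b c ∧ 0 < c ∧ Rd Z b c) → b ∈ Bx N ∧ c ∈ Bx N := by
    intro b c h
    have h2 := Rd_prod h.2.2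
    rw [← hX] at h2
    have h3 := Di_box h.1 h2
    exact ⟨Bx_mono (by omega) h3.1, Bx_mono (by omega) h3.2⟩
  rw [sum_F (fun b c => mem_Fd) hin (fun b c => ind (Cg m r s b c) * (w b c : ℝ))]
  have e : ∀ b c : ℤ, ind (Adm b c ∧ 0 < c ∧ Rd Z b c) * (ind (Cg m r s b c) * (w b c : ℝ)) =
      ind (Cg m r s (b % (4 * m : ℕ)) (c % (4 * m : ℕ)) ∧ (Adm b c ∧ 0 < c ∧ Rd Z b c)) *
        (w b c : ℝ) := by
    intro b c
    rw [← mul_assoc, ← ind_and]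
    congr 1
    refine ind_congr ?_
    rw [Cg_emod ⟨4, by ring⟩]
    tauto
  simp only [e]
  refine (cut (T := (X + 1) ^ 3) hX1 (by omega) (P := fun b c => Adm b c ∧ 0 < c ∧ Rd Z b c)
    (fun b c h => ⟨h.1.b0, h.1.2.1, h.1.2.2.1, by
      have := Rd_prod h.2.2
      rw [← hX] at this
      exact this⟩) (fun b c => ?_)).trans ?_
  · rw [abs_mul, abs_of_nonneg (ind_nonneg _)]
    calc ind (Cg m r s (b % (4 * m : ℕ)) (c % (4 * m : ℕ)) ∧ (Adm b c ∧ 0 < c ∧ Rd Z b c)) *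
          |(w b c : ℝ)| ≤ ind (Cg m r s (b % (4 * m : ℕ)) (c % (4 * m : ℕ)) ∧
            (Adm b c ∧ 0 < c ∧ Rd Z b c)) * 1 :=
          mul_le_mul_of_nonneg_left (w_abs b c) (ind_nonneg _)
      _ ≤ _ := by rw [mul_one]; exact ind_le_of fun h => h.2
  · have h2 := hpiece X ((X + 1) ^ 3) (by omega)
    have h3 : ((32 * (K * (X + 1)) + 1 : ℕ) : ℝ) ≤ 33 * K * ((X : ℝ) + 1) := by
      have : 32 * (K * (X + 1)) + 1 ≤ 33 * (K * (X + 1)) := by omega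
      have h4 : ((32 * (K * (X + 1)) + 1 : ℕ) : ℝ) ≤ ((33 * (K * (X + 1)) : ℕ) : ℝ) := by
        exact_mod_cast this
      refine h4.trans (le_of_eq ?_)
      push_cast
      ring
    have h5 : ε' * ((32 * (K * (X + 1)) + 1 : ℕ) : ℝ) ^ 2 ≤ ε / 2 * ((X : ℝ) + 1) ^ 2 := by
      calc ε' * ((32 * (K * (X + 1)) + 1 : ℕ) : ℝ) ^ 2 ≤ ε' * (33 * K * ((X : ℝ) + 1)) ^ 2 := by
            gcongr
        _ = ε / 2 * ((X : ℝ) + 1) ^ 2 := by rw [hε']; field_simp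
    calc _ ≤ ε' * ((32 * (K * (X + 1)) + 1 : ℕ) : ℝ) ^ 2 + ε / 2 * ((X : ℝ) + 1) ^ 2 :=
          add_le_add h1 h2
      _ ≤ ε / 2 * ((X : ℝ) + 1) ^ 2 + ε / 2 * ((X : ℝ) + 1) ^ 2 := add_le_add h5 le_rfl
      _ = ε * ((X : ℝ) + 1) ^ 2 := by ring

end Pool.Agent.K1H81.RN
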