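import Pool.Agent.K1H81.RN.Ord

/-!
# The naive height (helper81)
-/

set_option autoImplicit false

namespace Pool.Agent.K1H81.RN

open Finset Filter Topology

/-- The naive height of an elliptic curve over `ℚ`: the least value of `max (4|A|³, 27B²)` over the
integral short Weierstrass equations `y² = x³ + A x + B` of the curve. -/
noncomputable def height (W : WeierstrassCurve ℤ) : ℕ :=
  sInf {h : ℕ | ∃ A B : ℤ, (∃ C : WeierstrassCurve.VariableChange ℚ,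
    C • (W.map (Int.castRingHom ℚ)) = (⟨0, 0, 0, (A : ℚ), (B : ℚ)⟩ : WeierstrassCurve ℚ)) ∧
      h = max (4 * A.natAbs ^ 3) (27 * B.natAbs ^ 2)}

/-- the explicit change of variables -/
lemma short_exists (W : WeierstrassCurve ℤ) (t : ℚ) (ht : t ≠ 0) (A B : ℤ)
    (hA : (A : ℚ) * 48 = -(t ^ 4 * W.c₄)) (hB : (B : ℚ) * 864 = -(t ^ 6 * W.c₆)) :
    ∃ C : WeierstrassCurve.VariableChange ℚ,
      C • (W.map (Int.castRingHom ℚ)) = (⟨0, 0, 0, (A : ℚ), (B : ℚ)⟩ : WeierstrassCurve ℚ) := by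
  have hc4 : ((W.c₄ : ℤ) : ℚ) = ((W.a₁ : ℚ) ^ 2 + 4 * W.a₂) ^ 2 - 24 * (2 * W.a₄ + W.a₁ * W.a₃) := by
    unfold WeierstrassCurve.c₄ WeierstrassCurve.b₂ WeierstrassCurve.b₄
    push_cast; ring
  have hc6 : ((W.c₆ : ℤ) : ℚ) = -((W.a₁ : ℚ) ^ 2 + 4 * W.a₂) ^ 3 +
      36 * ((W.a₁ : ℚ) ^ 2 + 4 * W.a₂) * (2 * W.a₄ + W.a₁ * W.a₃) - 216 * (W.a₃ ^ 2 + 4 * W.a₆) := by
    unfold WeierstrassCurve.c₆ WeierstrassCurve.b₂ WeierstrassCurve.b₄ WeierstrassCurve.b₆
    push_cast; ring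
  have hA' : (A : ℚ) = -(t ^ 4 * W.c₄) / 48 := by linarith
  have hB' : (B : ℚ) = -(t ^ 6 * W.c₆) / 864 := by linarith
  refine ⟨⟨(Units.mk0 t ht)⁻¹, -((W.a₁ : ℚ) ^ 2 + 4 * W.a₂) / 12, -(W.a₁ : ℚ) / 2,
    -(W.a₃ : ℚ) / 2 + (W.a₁ : ℚ) * ((W.a₁ : ℚ) ^ 2 + 4 * W.a₂) / 24⟩, ?_⟩
  rw [hA', hB', hc4, hc6]
  ext
  · rw [WeierstrassCurve.variableChange_a₁]
    simp only [inv_inv, Units.val_mk0, WeierstrassCurve.map_a₁, Int.coe_castRingHom]
    ring
  · rw [WeierstrassCurve.variableChange_a₂]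
    simp only [inv_inv, Units.val_mk0, WeierstrassCurve.map_a₁, WeierstrassCurve.map_a₂,
      Int.coe_castRingHom]
    ring
  · rw [WeierstrassCurve.variableChange_a₃]
    simp only [inv_inv, Units.val_mk0, WeierstrassCurve.map_a₁, WeierstrassCurve.map_a₃,
      Int.coe_castRingHom]
    ring
  · rw [WeierstrassCurve.variableChange_a₄]
    simp only [inv_inv, Units.val_mk0, WeierstrassCurve.map_a₁, WeierstrassCurve.map_a₂,
      WeierstrassCurve.map_a₃, WeierstrassCurve.map_a₄, Int.coe_castRingHom]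
    ring
  · rw [WeierstrassCurve.variableChange_a₆]
    simp only [inv_inv, Units.val_mk0, WeierstrassCurve.map_a₁, WeierstrassCurve.map_a₂,
      WeierstrassCurve.map_a₃, WeierstrassCurve.map_a₄, WeierstrassCurve.map_a₆, Int.coe_castRingHom]
    ring

/-- the invariants of a short equation of the curve -/
lemma short_inv {W : WeierstrassCurve ℤ} {A B : ℤ} {C : WeierstrassCurve.VariableChange ℚ}
    (h : C • (W.map (Int.castRingHom ℚ)) = (⟨0, 0, 0, (A : ℚ), (B : ℚ)⟩ : WeierstrassCurve ℚ)) :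
    ∃ t : ℚ, t ≠ 0 ∧ (A : ℚ) * 48 = -(t ^ 4 * W.c₄) ∧ (B : ℚ) * 864 = -(t ^ 6 * W.c₆) := by
  refine ⟨((C.u⁻¹ : ℚˣ) : ℚ), Units.ne_zero _, ?_, ?_⟩
  · have h1 := congrArg WeierstrassCurve.c₄ h
    rw [WeierstrassCurve.variableChange_c₄, WeierstrassCurve.map_c₄] at h1
    have h2 : (⟨0, 0, 0, (A : ℚ), (B : ℚ)⟩ : WeierstrassCurve ℚ).c₄ = -48 * A := by
      unfold WeierstrassCurve.c₄ WeierstrassCurve.b₂ WeierstrassCurve.b₄
      simp only
      ring
    rw [h2] at h1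
    simp only [Int.coe_castRingHom] at h1
    linarith
  · have h1 := congrArg WeierstrassCurve.c₆ h
    rw [WeierstrassCurve.variableChange_c₆, WeierstrassCurve.map_c₆] at h1
    have h2 : (⟨0, 0, 0, (A : ℚ), (B : ℚ)⟩ : WeierstrassCurve ℚ).c₆ = -864 * B := by
      unfold WeierstrassCurve.c₆ WeierstrassCurve.b₂ WeierstrassCurve.b₄ WeierstrassCurve.b₆
      simp only
      ring
    rw [h2] at h1
    simp only [Int.coe_castRingHom] at h1
    linarith

/-- the minimal short equation -/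
def SA (b c : ℤ) : ℤ := if (3 : ℤ) ∣ b - c then -(C4 b c / 3) else -(27 * C4 b c)

/-- the minimal short equation -/
def SB (b c : ℤ) : ℤ := if (3 : ℤ) ∣ b - c then -(2 * (C6 b c / 27)) else -(54 * C6 b c)

lemma three_C4 {b c : ℤ} (h : (3 : ℤ) ∣ b - c) : ∃ x : ℤ, C4 b c = 3 * x ∧ C4 b c / 3 = x ∧
    (3 : ℤ) ∣ x - c ^ 2 := by
  obtain ⟨k, hk⟩ := h
  have hb : b = c + 3 * k := by linarith
  have e : C4 b c = 3 * (91 * c ^ 2 + 18 * k * c + 3 * k ^ 2) := by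
    unfold C4; rw [hb]; ring
  refine ⟨91 * c ^ 2 + 18 * k * c + 3 * k ^ 2, e, ?_, ⟨30 * c ^ 2 + 6 * k * c + k ^ 2, by ring⟩⟩
  rw [e]
  exact Int.mul_ediv_cancel_left _ (by norm_num)

lemma three_C6 {b c : ℤ} (h : (3 : ℤ) ∣ b - c) : ∃ x : ℤ, C6 b c = 27 * x ∧ C6 b c / 27 = x := by
  obtain ⟨k, hk⟩ := h
  have hb : b = c + 3 * k := by linarith
  have e : C6 b c = 27 * (-((k - 5 * c) * (33 * c ^ 2 + 14 * k * c + k ^ 2))) := by
    unfold C6; rw [hb]; ring
  refine ⟨_, e, ?_⟩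
  rw [e]
  exact Int.mul_ediv_cancel_left _ (by norm_num)

lemma SA_eq {b c : ℤ} (h : (3 : ℤ) ∣ b - c) : 3 * SA b c = -C4 b c := by
  obtain ⟨x, h1, h2, -⟩ := three_C4 h
  unfold SA
  rw [if_pos h, h2, h1]
  ring

lemma SB_eq {b c : ℤ} (h : (3 : ℤ) ∣ b - c) : 27 * SB b c = -(2 * C6 b c) := by
  obtain ⟨x, h1, h2⟩ := three_C6 h
  unfold SB
  rw [if_pos h, h2, h1]
  ring

lemma SA_eq' {b c : ℤ} (h : ¬ (3 : ℤ) ∣ b - c) : SA b c = -(27 * C4 b c) := if_neg h

lemma SB_eq' {b c : ℤ} (h : ¬ (3 : ℤ) ∣ b - c) : SB b c = -(54 * C6 b c) := if_neg h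

lemma C4_C6 (b c : ℤ) : C4 b c ^ 3 - C6 b c ^ 2 = 1728 * Di b c := by
  unfold C4 C6 Di
  ring

/-- the short equation is minimal -/
lemma S_noq {b c : ℤ} (h : Adm b c) {q : ℕ} (hq : q.Prime) :
    ¬ ((q : ℤ) ^ 4 ∣ SA b c ∧ (q : ℤ) ^ 6 ∣ SB b c) := by
  rintro ⟨h1, h2⟩
  have hqi := Nat.prime_iff_prime_int.1 hq
  have hqA : (q : ℤ) ∣ SA b c := (dvd_pow_self _ (by norm_num)).trans h1
  have hqB : (q : ℤ) ∣ SB b c := (dvd_pow_self _ (by norm_num)).trans h2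
  by_cases hq3 : q = 3
  · subst hq3
    by_cases h3 : (3 : ℤ) ∣ b - c
    · obtain ⟨x, e1, e2, e3⟩ := three_C4 h3
      have hA : SA b c = -x := by unfold SA; rw [if_pos h3, e2]
      rw [hA] at hqA
      have hx : (3 : ℤ) ∣ x := (dvd_neg).1 (by exact_mod_cast hqA)
      have hc : (3 : ℤ) ∣ c ^ 2 := by
        have := dvd_sub hx e3
        have e : x - (x - c ^ 2) = c ^ 2 := by ring
        rwa [e] at this
      have hc' : (3 : ℤ) ∣ c := Int.prime_three.dvd_of_dvd_pow hc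
      have hb' : (3 : ℤ) ∣ b := by
        have := dvd_add h3 hc'
        rwa [sub_add_cancel] at this
      exact Int.prime_three.not_isUnit (h.2.2.2.isUnit_of_dvd' hb' hc')
    · rw [SA_eq' h3] at h1
      have h5 : (3 : ℤ) ∣ C4 b c := by
        have h6 : ((3 : ℕ) : ℤ) ^ 4 = 27 * 3 := by norm_num
        rw [h6, dvd_neg] at h1
        exact Int.dvd_of_mul_dvd_mul_left (by norm_num) h1
      apply h3
      have e : (b - c) ^ 2 = C4 b c - 3 * (6 * b * c + 85 * c ^ 2) := by unfold C4; ring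
      refine Int.prime_three.dvd_of_dvd_pow (n := 2) ?_
      rw [e]
      exact dvd_sub h5 (dvd_mul_right _ _)
  · -- `q ∣ c₄`
    have hq3' : ∀ k : ℕ, ¬ (q : ℤ) ∣ 3 ^ k := by
      intro k hk
      have h5 : q ∣ 3 ^ k := by exact_mod_cast hk
      exact hq3 ((Nat.prime_dvd_prime_iff_eq hq Nat.prime_three).1 (hq.dvd_of_dvd_pow h5))
    have h4 : (q : ℤ) ∣ C4 b c := by
      by_cases h3 : (3 : ℤ) ∣ b - c
      · have := SA_eq h3
        have h5 : (q : ℤ) ∣ -C4 b c := by rw [← this]; exact hqA.mul_left _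
        exact (dvd_neg).1 h5
      · rw [SA_eq' h3, dvd_neg] at hqA
        rcases hqi.dvd_or_dvd hqA with h5 | h5
        · exact absurd h5 (by simpa using hq3' 3)
        · exact h5
    have hq2 : q ≠ 2 := by
      rintro rfl
      have hb := h.1
      have e : C4 b c = b ^ 2 + 2 * (8 * b * c + 128 * c ^ 2) := by unfold C4; ring
      rw [e] at h4
      have h5 : (2 : ℤ) ∣ b ^ 2 := by
        have := dvd_sub h4 (dvd_mul_right (2 : ℤ) (8 * b * c + 128 * c ^ 2))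
        rwa [add_sub_cancel_right] at this
      have := Int.prime_two.dvd_of_dvd_pow h5
      omega
    have hq2' : ∀ k : ℕ, ¬ (q : ℤ) ∣ 2 ^ k := by
      intro k hk
      have h5 : q ∣ 2 ^ k := by exact_mod_cast hk
      exact hq2 ((Nat.prime_dvd_prime_iff_eq hq Nat.prime_two).1 (hq.dvd_of_dvd_pow h5))
    have h6 : (q : ℤ) ∣ C6 b c := by
      by_cases h3 : (3 : ℤ) ∣ b - c
      · have := SB_eq h3
        have h5 : (q : ℤ) ∣ -(2 * C6 b c) := by rw [← this]; exact hqB.mul_left _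
        rw [dvd_neg] at h5
        rcases hqi.dvd_or_dvd h5 with h5 | h5
        · exact absurd h5 (by simpa using hq2' 1)
        · exact h5
      · rw [SB_eq' h3, dvd_neg] at hqB
        have e : 54 * C6 b c = 3 ^ 3 * (2 ^ 1 * C6 b c) := by ring
        rw [e] at hqB
        rcases hqi.dvd_or_dvd hqB with h5 | h5
        · exact absurd h5 (hq3' 3)
        · rcases hqi.dvd_or_dvd h5 with h5 | h5
          · exact absurd h5 (hq2' 1)
          · exact h5
    have h7 : (q : ℤ) ∣ 1728 * Di b c := by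
      rw [← C4_C6]
      exact dvd_sub (dvd_pow h4 (by norm_num)) (dvd_pow h6 (by norm_num))
    have h8 : (q : ℤ) ∣ Di b c := by
      have e : 1728 * Di b c = 3 ^ 3 * (2 ^ 6 * Di b c) := by ring
      rw [e] at h7
      rcases hqi.dvd_or_dvd h7 with h5 | h5
      · exact absurd h5 (hq3' 3)
      · rcases hqi.dvd_or_dvd h5 with h5 | h5
        · exact absurd h5 (hq2' 6)
        · exact h5
    refine (Vc_semi h).2 q hq ?_ ?_
    · rw [Vc_disc h.1]; exact h8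
    · rw [Vc_c4 h.1]; exact h4

/-- any other integral equation is a multiple -/
lemma S_dvd {b c : ℤ} (h : Adm b c) {v : ℚ} {A B : ℤ} (hA : (A : ℚ) = v ^ 4 * SA b c)
    (hB : (B : ℚ) = v ^ 6 * SB b c) : v.den = 1 := by
  have hnd : IsCoprime (v.den : ℤ) v.num := by
    have h1 := v.reduced
    exact Int.isCoprime_iff_gcd_eq_one.2 (by
      rw [Int.gcd_comm]; exact h1 : Int.gcd (v.den : ℤ) v.num = 1)
  have hden : (v.den : ℤ) ^ 4 ∣ SA b c ∧ (v.den : ℤ) ^ 6 ∣ SB b c := by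
    have hq : (v.den : ℚ) ≠ 0 := by exact_mod_cast v.den_nz
    have hue : v = (v.num : ℚ) / (v.den : ℚ) := (Rat.num_div_den v).symm
    constructor
    · have e1 : (A : ℚ) * (v.den : ℚ) ^ 4 = (v.num : ℚ) ^ 4 * SA b c := by
        rw [hA]
        nth_rewrite 1 [hue]
        field_simp
      have e2 : A * (v.den : ℤ) ^ 4 = v.num ^ 4 * SA b c := by exact_mod_cast e1
      have e3 : (v.den : ℤ) ^ 4 ∣ v.num ^ 4 * SA b c := ⟨A, by rw [← e2]; ring⟩
      exact (IsCoprime.pow hnd).dvd_of_dvd_mul_left e3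
    · have e1 : (B : ℚ) * (v.den : ℚ) ^ 6 = (v.num : ℚ) ^ 6 * SB b c := by
        rw [hB]
        nth_rewrite 1 [hue]
        field_simp
      have e2 : B * (v.den : ℤ) ^ 6 = v.num ^ 6 * SB b c := by exact_mod_cast e1
      have e3 : (v.den : ℤ) ^ 6 ∣ v.num ^ 6 * SB b c := ⟨B, by rw [← e2]; ring⟩
      exact (IsCoprime.pow hnd).dvd_of_dvd_mul_left e3
  by_contra hne
  obtain ⟨q, hq, hqd⟩ := Nat.exists_prime_and_dvd hne
  have hqd' : (q : ℤ) ∣ (v.den : ℤ) := by exact_mod_cast hqd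
  exact S_noq h hq ⟨(pow_dvd_pow_of_dvd hqd' 4).trans hden.1, (pow_dvd_pow_of_dvd hqd' 6).trans hden.2⟩

/-- the short equation -/
lemma S_spec (b c : ℤ) : ∃ t : ℚ, t ≠ 0 ∧ (SA b c : ℚ) * 48 = -(t ^ 4 * C4 b c) ∧
    (SB b c : ℚ) * 864 = -(t ^ 6 * C6 b c) := by
  by_cases h3 : (3 : ℤ) ∣ b - c
  · refine ⟨2, by norm_num, ?_, ?_⟩
    · have : (3 : ℚ) * SA b c = -C4 b c := by exact_mod_cast SA_eq h3
      linear_combination 16 * this
    · have : (27 : ℚ) * SB b c = -(2 * C6 b c) := by exact_mod_cast SB_eq h3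
      linear_combination 32 * this
  · refine ⟨6, by norm_num, ?_, ?_⟩
    · rw [SA_eq' h3]; push_cast; ring
    · rw [SB_eq' h3]; push_cast; ring

/-- **the height** -/
theorem height_eq {W : WeierstrassCurve ℤ} {b c : ℤ} (h : Adm b c) (h4 : W.c₄ = C4 b c)
    (h6 : W.c₆ = C6 b c) : height W = max (4 * (SA b c).natAbs ^ 3) (27 * (SB b c).natAbs ^ 2) := by
  obtain ⟨t0, ht0, hA0, hB0⟩ := S_spec b c
  unfold height
  apply le_antisymm
  · apply Nat.sInf_le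
    exact ⟨SA b c, SB b c, short_exists W t0 ht0 _ _ (by rw [h4]; exact hA0) (by rw [h6]; exact hB0), rfl⟩
  · refine le_csInf ⟨_, SA b c, SB b c, short_exists W t0 ht0 _ _ (by rw [h4]; exact hA0)
      (by rw [h6]; exact hB0), rfl⟩ ?_
    rintro x ⟨A, B, ⟨C, hC⟩, rfl⟩
    obtain ⟨t, ht, hA, hB⟩ := short_inv hC
    rw [h4] at hA
    rw [h6] at hB
    obtain ⟨v, hv⟩ : ∃ v : ℚ, v = t / t0 := ⟨_, rfl⟩
    have hv0 : v ≠ 0 := by rw [hv]; exact div_ne_zero ht ht0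
    have htv : t = v * t0 := by rw [hv]; field_simp
    have eA : (A : ℚ) = v ^ 4 * SA b c := by
      rw [htv] at hA
      linear_combination (1 / 48) * hA - (v ^ 4 / 48) * hA0
    have eB : (B : ℚ) = v ^ 6 * SB b c := by
      rw [htv] at hB
      linear_combination (1 / 864) * hB - (v ^ 6 / 864) * hB0
    have hden := S_dvd h eA eB
    have hvn : v = (v.num : ℚ) := (Rat.den_eq_one_iff v).1 hden |>.symm
    have hn0 : v.num ≠ 0 := Rat.num_ne_zero.2 hv0
    have eA' : A = v.num ^ 4 * SA b c := by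
      rw [hvn] at eA
      exact_mod_cast eA
    have eB' : B = v.num ^ 6 * SB b c := by
      rw [hvn] at eB
      exact_mod_cast eB
    have hn1 : 1 ≤ v.num.natAbs := Nat.pos_of_ne_zero (Int.natAbs_ne_zero.2 hn0)
    have lA : (SA b c).natAbs ≤ A.natAbs := by
      rw [eA', Int.natAbs_mul, Int.natAbs_pow]
      exact Nat.le_mul_of_pos_left _ (by positivity)
    have lB : (SB b c).natAbs ≤ B.natAbs := by
      rw [eB', Int.natAbs_mul, Int.natAbs_pow]
      exact Nat.le_mul_of_pos_left _ (by positivity)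
    exact max_le_max (Nat.mul_le_mul_left _ (Nat.pow_le_pow_left lA 3))
      (Nat.mul_le_mul_left _ (Nat.pow_le_pow_left lB 2))

end Pool.Agent.K1H81.RN
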