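import Pool.Agent.K1H81.RN.Hgt

/-!
# Equidistribution: the naive height (helper81)
-/

set_option autoImplicit false

namespace Pool.Agent.K1H81.RN

open Finset Filter Topology

lemma PolyFn.congr {D : ℕ} {f g : ℤ → ℤ → ℤ} (h : PolyFn D f) (hg : ∀ x y, g x y = f x y) :
    PolyFn D g := by
  have : g = f := by funext x y; exact hg x y
  rw [this]
  exact h

lemma poly_C4 : PolyFn 2 C4 := by
  have h1 : PolyFn 2 (fun x _ => x ^ 2) := PolyFn.fst.pow 2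
  have h2 : PolyFn 2 (fun x y => 16 * x * y) := (PolyFn.cmul 16 PolyFn.fst).mul PolyFn.snd
  have h3 : PolyFn 2 (fun _ y => 256 * y ^ 2) := PolyFn.cmul 256 (PolyFn.snd.pow 2)
  exact ((h1.add h2).add h3).congr fun x y => by unfold C4; ring

lemma poly_C6 : PolyFn 3 C6 := by
  have h1 : PolyFn 2 (fun x _ => x ^ 2) := PolyFn.fst.pow 2
  have h2 : PolyFn 2 (fun x y => 40 * x * y) := (PolyFn.cmul 40 PolyFn.fst).mul PolyFn.snd
  have h3 : PolyFn 2 (fun _ y => 256 * y ^ 2) := PolyFn.cmul 256 (PolyFn.snd.pow 2)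
  have h4 : PolyFn 1 (fun x y => -x + 16 * y) :=
    ((PolyFn.cmul (-1) PolyFn.fst).add (PolyFn.cmul 16 PolyFn.snd)).congr fun x y => by ring
  exact (h4.mul ((h1.add h2).add h3)).congr fun x y => by unfold C6; ring

/-- the region -/
def Rh (Z : ℕ) (β γ b c : ℤ) : Prop :=
  if (3 : ℤ) ∣ β - γ then 4 * C4 b c ^ 3 ≤ 27 * (Z : ℤ) ∧ 4 * C6 b c ^ 2 ≤ 27 * (Z : ℤ)
  else 78732 * C4 b c ^ 3 ≤ (Z : ℤ) ∧ 78732 * C6 b c ^ 2 ≤ (Z : ℤ)

lemma Rh_tame (Z : ℕ) (β γ : ℤ) : Tame (6 + 6) (Rh Z β γ) := by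
  have h4 : PolyFn 6 (fun x y => C4 x y ^ 3) := poly_C4.pow 3
  have h6 : PolyFn 6 (fun x y => C6 x y ^ 2) := poly_C6.pow 2
  by_cases h : (3 : ℤ) ∣ β - γ
  · exact (((PolyFn.cmul 4 h4).tame (27 * Z)).and ((PolyFn.cmul 4 h6).tame (27 * Z))).congr
      fun x y => by unfold Rh; rw [if_pos h]
  · exact (((PolyFn.cmul 78732 h4).tame Z).and ((PolyFn.cmul 78732 h6).tame Z)).congr
      fun x y => by unfold Rh; rw [if_neg h]

lemma Rh_emod {M : ℕ} (hM : 3 ∣ M) (Z : ℕ) (b c : ℤ) : Rh Z (b % M) (c % M) b c ↔ Rh Z b c b c := by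
  have hd : (3 : ℤ) ∣ (M : ℤ) := by exact_mod_cast hM
  have h1 : (3 : ℤ) ∣ b % M - b := by
    have := (Int.mod_modEq b M).symm.dvd
    exact hd.trans this
  have h2 : (3 : ℤ) ∣ c % M - c := by
    have := (Int.mod_modEq c M).symm.dvd
    exact hd.trans this
  have h3 : (3 : ℤ) ∣ b % M - c % M ↔ (3 : ℤ) ∣ b - c := by
    constructor
    · intro h
      have := dvd_sub (dvd_add h h2) h1
      have e : b % M - c % M + (c % M - c) - (b % M - b) = b - c := by ring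
      rwa [e] at this
    · intro h
      have := dvd_sub (dvd_add h h1) h2
      have e : b - c + (b % M - b) - (c % M - c) = b % M - c % M := by ring
      rwa [e] at this
  unfold Rh
  simp only [h3]

lemma C4_pos {b c : ℤ} (h : Adm b c) : 0 < C4 b c := by
  have e : C4 b c = (b + 8 * c) ^ 2 + 192 * c ^ 2 := by unfold C4; ring
  have hc : 0 < c ^ 2 := by have := h.2.1; positivity
  rw [e]
  nlinarith [sq_nonneg (b + 8 * c)]

lemma height_le {W : WeierstrassCurve ℤ} {b c : ℤ} (h : Adm b c) (h4 : W.c₄ = C4 b c)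
    (h6 : W.c₆ = C6 b c) (Z : ℕ) : height W ≤ Z ↔ Rh Z b c b c := by
  rw [height_eq h h4 h6, max_le_iff]
  have hC4 := C4_pos h
  have n1 : ((4 * (SA b c).natAbs ^ 3 : ℕ) : ℤ) = 4 * |SA b c| ^ 3 := by push_cast; rfl
  have n2 : ((27 * (SB b c).natAbs ^ 2 : ℕ) : ℤ) = 27 * SB b c ^ 2 := by
    push_cast; rw [sq_abs]
  have i1 : 4 * (SA b c).natAbs ^ 3 ≤ Z ↔ 4 * |SA b c| ^ 3 ≤ (Z : ℤ) := by
    rw [← n1]; exact Nat.cast_le.symm
  have i2 : 27 * (SB b c).natAbs ^ 2 ≤ Z ↔ 27 * SB b c ^ 2 ≤ (Z : ℤ) := by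
    rw [← n2]; exact Nat.cast_le.symm
  rw [i1, i2]
  unfold Rh
  by_cases h3 : (3 : ℤ) ∣ b - c
  · rw [if_pos h3]
    have e1 := SA_eq h3
    have e2 := SB_eq h3
    have s1 : |SA b c| = -SA b c := abs_of_neg (by linarith)
    rw [s1]
    have f1 : 27 * (-SA b c) ^ 3 = C4 b c ^ 3 := by
      have : C4 b c = 3 * (-SA b c) := by linarith
      rw [this]; ring
    have f2 : 729 * SB b c ^ 2 = 4 * C6 b c ^ 2 := by
      have : (27 * SB b c) ^ 2 = (2 * C6 b c) ^ 2 := by rw [e2]; ring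
      linarith
    constructor
    · rintro ⟨g1, g2⟩
      exact ⟨by linarith, by linarith⟩
    · rintro ⟨g1, g2⟩
      exact ⟨by linarith, by linarith⟩
  · rw [if_neg h3, SA_eq' h3, SB_eq' h3]
    have s1 : |-(27 * C4 b c)| = 27 * C4 b c := by
      rw [abs_neg]; exact abs_of_pos (by linarith)
    rw [s1]
    have f1 : 4 * (27 * C4 b c) ^ 3 = 78732 * C4 b c ^ 3 := by ring
    have f2 : 27 * (-(54 * C6 b c)) ^ 2 = 78732 * C6 b c ^ 2 := by ring
    rw [f1, f2]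

lemma Rh_box {Z : ℕ} {b c : ℤ} (h : Adm b c) (hR : Rh Z b c b c) :
    b ∈ Bx (2 * (rt 6 Z + 1)) ∧ c ∈ Bx (2 * (rt 6 Z + 1)) := by
  have hC4 := C4_pos h
  have h1 : 4 * C4 b c ^ 3 ≤ 27 * (Z : ℤ) := by
    unfold Rh at hR
    split_ifs at hR with h3
    · exact hR.1
    · have h3 : 0 < C4 b c ^ 3 := by positivity
      linarith [hR.1]
  obtain ⟨X, hX⟩ : ∃ X : ℤ, X = ((rt 6 Z + 1 : ℕ) : ℤ) := ⟨_, rfl⟩
  have hX0 : 0 < X := by rw [hX]; positivity
  have h2 : (Z : ℤ) < X ^ 6 := by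
    rw [hX]
    exact_mod_cast lt_rt (k := 6) (by norm_num) Z
  have h3 : C4 b c < 3 * X ^ 2 := by
    by_contra hcon
    push Not at hcon
    have h4 : (3 * X ^ 2) ^ 3 ≤ C4 b c ^ 3 := pow_le_pow_left₀ (by positivity) hcon 3
    have e : (3 * X ^ 2) ^ 3 = 27 * X ^ 6 := by ring
    rw [e] at h4
    have h5 : 0 < X ^ 6 := by positivity
    linarith
  have hb : b ^ 2 < (2 * X) ^ 2 := by
    have e : 4 * C4 b c = 3 * b ^ 2 + (b + 32 * c) ^ 2 := by unfold C4; ring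
    nlinarith [sq_nonneg (b + 32 * c)]
  have hc : c ^ 2 < (2 * X) ^ 2 := by
    have e : C4 b c = (b + 8 * c) ^ 2 + 192 * c ^ 2 := by unfold C4; ring
    nlinarith [sq_nonneg (b + 8 * c), sq_nonneg c, sq_nonneg X]
  have hb' := abs_lt.1 (abs_lt_of_sq_lt_sq hb (by linarith))
  have hc' := abs_lt.1 (abs_lt_of_sq_lt_sq hc (by linarith))
  rw [mem_Bx, mem_Bx]
  have e : ((2 * (rt 6 Z + 1) : ℕ) : ℤ) = 2 * X := by rw [hX]; push_cast; ring
  rw [e]
  exact ⟨⟨hb'.1, hb'.2.le⟩, ⟨hc'.1, hc'.2.le⟩⟩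

open Classical in
/-- the finite sets -/
noncomputable def Fh (Z : ℕ) : Finset (ℤ × ℤ) :=
  (Bx (2 * (rt 6 Z + 1)) ×ˢ Bx (2 * (rt 6 Z + 1))).filter
    (fun z => Adm z.1 z.2 ∧ 0 < z.2 ∧ Rh Z z.1 z.2 z.1 z.2)

lemma mem_Fh {Z : ℕ} {b c : ℤ} : (b, c) ∈ Fh Z ↔ (Adm b c ∧ 0 < c ∧ Rh Z b c b c) := by
  classical
  unfold Fh
  rw [mem_filter, mem_product]
  constructor
  · exact fun h => h.2
  · exact fun h => ⟨Rh_box h.1 h.2.2, h⟩

/-- **Equidistribution of the root numbers by naive height.** -/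
theorem main_height {m : ℕ} (hm : 0 < m) {r s b0 c0 : ℤ} (h0 : Adm b0 c0) (hcg : Cg m r s b0 c0) :
    (∀ Z, (Fam height m r s (fun _ => True) Z).Finite) ∧
    Tendsto (fun Z => (Fam height m r s (fun _ => True) Z).ncard) atTop atTop ∧
    ∀ e : ℤ, e = 1 ∨ e = -1 →
      Tendsto (fun Z => ((Fam height m r s (fun w => w = e) Z).ncard : ℝ) /
        ((Fam height m r s (fun _ => True) Z).ncard : ℝ)) atTop (𝓝 (1 / 2)) := by
  obtain ⟨δ, hδ, hlow⟩ := low_fam hm h0 hcg (F := Fh) (k := 6) (K := 1000) (by norm_num) (by norm_num)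
    (by
      intro Z Y b c hY hadm hb hb' hc hc'
      rw [mem_Fh]
      refine ⟨hadm, hc, ?_⟩
      have hZ := rt_le (k := 6) (by norm_num) Z
      have h1 : ((1000 * Y : ℕ) : ℤ) ^ 6 ≤ Z := by
        have : (1000 * Y) ^ 6 ≤ Z := (Nat.pow_le_pow_left hY 6).trans hZ
        exact_mod_cast this
      push_cast at h1
      obtain ⟨y, hy⟩ : ∃ y : ℤ, y = Y := ⟨_, rfl⟩
      rw [← hy] at hb' hc' h1
      have hy0 : 0 < y := by omega
      have g4 : C4 b c ≤ 273 * y ^ 2 := by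
        unfold C4
        have i1 : b ^ 2 ≤ y ^ 2 := pow_le_pow_left₀ hb.le hb' 2
        have i2 : c ^ 2 ≤ y ^ 2 := pow_le_pow_left₀ hc.le hc' 2
        have i3 : b * c ≤ y * y := mul_le_mul hb' hc' hc.le hy0.le
        nlinarith
      have g4' : C4 b c ^ 3 ≤ (273 * y ^ 2) ^ 3 := pow_le_pow_left₀ (C4_pos hadm).le g4 3
      have g6 : C6 b c ^ 2 ≤ C4 b c ^ 3 := by
        have e := C4_C6 b c
        have : 0 ≤ Di b c := by unfold Di; positivity
        linarith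
      have g7 : 78732 * (273 * y ^ 2) ^ 3 ≤ Z := by
        refine le_trans ?_ h1
        have e1 : 78732 * (273 * y ^ 2) ^ 3 = 1601914103244 * y ^ 6 := by ring
        have e2 : (1000 * y) ^ 6 = 1000000000000000000 * y ^ 6 := by ring
        rw [e1, e2]
        have : 0 ≤ y ^ 6 := by positivity
        linarith
      have h5 : 0 < C4 b c ^ 3 := by have := C4_pos hadm; positivity
      unfold Rh
      split_ifs with h3
      · constructor <;> linarith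
      · constructor <;> linarith)
  refine limit (R := fun Z b c => Rh Z b c b c) (fun Z W b c _ hadm _ h4 h6 _ => height_le hadm h4 h6 Z)
    (F := Fh) (fun Z b c => mem_Fh) (g_tendsto (k := 6) (by norm_num)) ?_ hδ hlow
  intro ε hε
  obtain ⟨X0, hX0⟩ := boxP (M := 12 * m) (by omega) (6 + 6) (ε := ε / 4) (by positivity)
  filter_upwards [(rt_tendsto (k := 6) (by norm_num)).eventually_ge_atTop X0] with Z hZ
  have h1 := hX0 (2 * (rt 6 Z + 1)) (by omega) (Cg m r s) (Rh Z) (Rh_tame Z)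
  rw [sum_F (fun b c => mem_Fh) (fun b c h => Rh_box h.1 h.2.2)
    (fun b c => ind (Cg m r s b c) * (w b c : ℝ))]
  have e : ∀ b c : ℤ, ind (Adm b c ∧ 0 < c ∧ Rh Z b c b c) * (ind (Cg m r s b c) * (w b c : ℝ)) =
      ind (Cg m r s (b % (12 * m : ℕ)) (c % (12 * m : ℕ)) ∧ (Adm b c ∧ 0 < c ∧
        Rh Z (b % (12 * m : ℕ)) (c % (12 * m : ℕ)) b c)) * (w b c : ℝ) := by
    intro b c
    rw [← mul_assoc, ← ind_and]
    congr 1
    refine ind_congr ?_
    rw [Cg_emod ⟨12, by ring⟩, Rh_emod ⟨4 * m, by ring⟩]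
    tauto
  simp only [e]
  refine h1.trans (le_of_eq ?_)
  push_cast
  ring

end Pool.Agent.K1H81.RN
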