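import Pool.Agent.K1H81.RN.Var

/-!
# The criterion of Katai for double sums (helper81)
-/

set_option autoImplicit false

namespace Pool.Agent.K1H81.RN

open Finset

/-- the box `(-X, X]` -/
noncomputable def Bx (X : ℕ) : Finset ℤ := Ioc (-(X : ℤ)) X

lemma mem_Bx {X : ℕ} {c : ℤ} : c ∈ Bx X ↔ -(X : ℤ) < c ∧ c ≤ X := mem_Ioc

lemma card_Bx (X : ℕ) : ((Bx X).card : ℝ) = 2 * X := by
  unfold Bx
  rw [Int.card_Ioc]
  have : ((X : ℤ) - -(X : ℤ)).toNat = 2 * X := by omega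
  rw [this]
  push_cast
  ring

lemma sum_ind {α : Type} (s : Finset α) (P : α → Prop) [DecidablePred P] :
    ∑ x ∈ s, ind (P x) = ((s.filter P).card : ℝ) := by
  rw [card_filter]
  push_cast
  refine sum_congr rfl fun x _ => ?_
  by_cases h : P x
  · rw [ind_pos h, if_pos h]
  · rw [ind_neg h, if_neg h]

/-- multiples of `d` in an interval -/
lemma card_dvd_Ioc {A B : ℤ} (hAB : A ≤ B) {d : ℕ} (hd : 0 < d) :
    |∑ c ∈ Ioc A B, ind ((d : ℤ) ∣ c) - (B - A : ℝ) / d| ≤ 1 := by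
  classical
  have hdz : (0 : ℤ) < d := by exact_mod_cast hd
  have hdq : (0 : ℚ) < ((d : ℤ) : ℚ) := by exact_mod_cast hd
  have h1 := Int.Ioc_filter_dvd_card A B hdz
  have hmono : ⌊(A : ℚ) / ((d : ℤ) : ℚ)⌋ ≤ ⌊(B : ℚ) / ((d : ℤ) : ℚ)⌋ := by
    apply Int.floor_le_floor
    apply div_le_div_of_nonneg_right _ hdq.le
    exact_mod_cast hAB
  rw [max_eq_left (by omega)] at h1
  have h2 : (((filter (fun x => (d : ℤ) ∣ x) (Ioc A B)).card : ℤ) : ℚ) =
      (⌊(B : ℚ) / ((d : ℤ) : ℚ)⌋ : ℚ) - (⌊(A : ℚ) / ((d : ℤ) : ℚ)⌋ : ℚ) := by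
    rw [h1]
    push_cast
    rfl
  have a1 := Int.floor_le ((B : ℚ) / ((d : ℤ) : ℚ))
  have a2 := Int.lt_floor_add_one ((B : ℚ) / ((d : ℤ) : ℚ))
  have a3 := Int.floor_le ((A : ℚ) / ((d : ℤ) : ℚ))
  have a4 := Int.lt_floor_add_one ((A : ℚ) / ((d : ℤ) : ℚ))
  have h3 : |(((filter (fun x => (d : ℤ) ∣ x) (Ioc A B)).card : ℤ) : ℚ) -
      ((B : ℚ) - A) / ((d : ℤ) : ℚ)| ≤ 1 := by
    rw [h2, sub_div, abs_le]
    constructor <;> linarith
  rw [sum_ind]
  have h4 : ((|(((filter (fun x => (d : ℤ) ∣ x) (Ioc A B)).card : ℤ) : ℚ) -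
      ((B : ℚ) - A) / ((d : ℤ) : ℚ)| : ℚ) : ℝ) ≤ ((1 : ℚ) : ℝ) := by exact_mod_cast h3
  push_cast at h4
  exact h4

lemma card_dvd (X : ℕ) {d : ℕ} (hd : 0 < d) :
    |∑ c ∈ Bx X, ind ((d : ℤ) ∣ c) - 2 * X / d| ≤ 1 := by
  have h := card_dvd_Ioc (A := -(X : ℤ)) (B := X) (by omega) hd
  push_cast at h
  have e : ((X : ℝ) - -(X : ℝ)) = 2 * X := by ring
  rw [e] at h
  exact h

/-- the number of primes of the set dividing `c` -/
noncomputable def omg (P : Finset ℕ) (c : ℤ) : ℝ := ∑ p ∈ P, ind ((p : ℤ) ∣ c)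

/-- the sum of the reciprocals -/
noncomputable def LL (P : Finset ℕ) : ℝ := ∑ p ∈ P, 1 / (p : ℝ)

lemma LL_nonneg (P : Finset ℕ) : 0 ≤ LL P := sum_nonneg fun _ _ => by positivity

lemma LL_le (P : Finset ℕ) (hP : ∀ p ∈ P, p.Prime) : LL P ≤ P.card := by
  unfold LL
  calc ∑ p ∈ P, 1 / (p : ℝ) ≤ ∑ p ∈ P, (1 : ℝ) := by
        refine sum_le_sum fun p hp => ?_
        have : (1 : ℝ) ≤ p := by exact_mod_cast (hP p hp).one_lt.le
        rw [div_le_one (by linarith)]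
        exact this
    _ = _ := by simp

/-- **Turán-Kubilius** -/
theorem turan (X : ℕ) (P : Finset ℕ) (hP : ∀ p ∈ P, p.Prime) :
    ∑ c ∈ Bx X, (omg P c - LL P) ^ 2 ≤ 2 * X * LL P + 3 * (P.card : ℝ) ^ 2 := by
  have hL0 := LL_nonneg P
  have hLc := LL_le P hP
  have h1 : ∑ c ∈ Bx X, omg P c ^ 2 ≤ 2 * X * LL P ^ 2 + (P.card : ℝ) ^ 2 + 2 * X * LL P := by
    have e1 : ∑ c ∈ Bx X, omg P c ^ 2 =
        ∑ p ∈ P, ∑ q ∈ P, ∑ c ∈ Bx X, ind ((p : ℤ) ∣ c) * ind ((q : ℤ) ∣ c) := by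
      have : ∀ c ∈ Bx X, omg P c ^ 2 = ∑ p ∈ P, ∑ q ∈ P, ind ((p : ℤ) ∣ c) * ind ((q : ℤ) ∣ c) := by
        intro c _
        rw [sq]
        unfold omg
        rw [sum_mul_sum]
      rw [sum_congr rfl this, sum_comm]
      refine sum_congr rfl fun p _ => ?_
      rw [sum_comm]
    rw [e1]
    have e2 : ∀ p ∈ P, ∀ q ∈ P, ∑ c ∈ Bx X, ind ((p : ℤ) ∣ c) * ind ((q : ℤ) ∣ c) ≤
        2 * X * (1 / (p : ℝ) * (1 / (q : ℝ))) + 1 + if p = q then 2 * X * (1 / (p : ℝ)) else 0 := by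
      intro p hp q hq
      have hp0 : (0 : ℝ) < p := by exact_mod_cast (hP p hp).pos
      have hq0 : (0 : ℝ) < q := by exact_mod_cast (hP q hq).pos
      by_cases hpq : p = q
      · rw [if_pos hpq, ← hpq]
        have h2 := (abs_le.1 (card_dvd X (hP p hp).pos)).2
        have h3 : ∑ c ∈ Bx X, ind ((p : ℤ) ∣ c) * ind ((p : ℤ) ∣ c) =
            ∑ c ∈ Bx X, ind ((p : ℤ) ∣ c) := by
          refine sum_congr rfl fun c _ => ?_
          rcases ind_zero_or_one ((p : ℤ) ∣ c) with h | h <;> rw [h] <;> norm_num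
        rw [h3]
        have h4 : 2 * (X : ℝ) / p = 2 * X * (1 / (p : ℝ)) := by ring
        rw [h4] at h2
        have h5 : 0 ≤ 2 * (X : ℝ) * (1 / (p : ℝ) * (1 / (p : ℝ))) := by positivity
        linarith
      · rw [if_neg hpq]
        have hcop : IsCoprime (p : ℤ) (q : ℤ) :=
          Nat.isCoprime_iff_coprime.2 ((Nat.coprime_primes (hP p hp) (hP q hq)).2 hpq)
        have h3 : ∑ c ∈ Bx X, ind ((p : ℤ) ∣ c) * ind ((q : ℤ) ∣ c) =
            ∑ c ∈ Bx X, ind (((p * q : ℕ) : ℤ) ∣ c) := by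
          refine sum_congr rfl fun c _ => ?_
          rw [← ind_and]
          apply ind_congr
          push_cast
          constructor
          · rintro ⟨h, h'⟩
            exact hcop.mul_dvd h h'
          · intro h
            exact ⟨(dvd_mul_right _ _).trans h, (dvd_mul_left _ _).trans h⟩
        have h2 := (abs_le.1 (card_dvd X (Nat.mul_pos (hP p hp).pos (hP q hq).pos))).2
        rw [h3]
        have h4 : 2 * (X : ℝ) / ((p * q : ℕ) : ℝ) = 2 * X * (1 / (p : ℝ) * (1 / (q : ℝ))) := by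
          push_cast
          field_simp
        rw [h4] at h2
        linarith
    refine (sum_le_sum fun p hp => sum_le_sum fun q hq => e2 p hp q hq).trans (le_of_eq ?_)
    simp only [sum_add_distrib, sum_ite_eq, ← mul_sum, ← sum_mul]
    have e3 : ∑ p ∈ P, (if p ∈ P then 2 * (X : ℝ) * (1 / (p : ℝ)) else 0) = 2 * X * LL P := by
      unfold LL
      rw [mul_sum]
      exact sum_congr rfl fun p hp => if_pos hp
    rw [e3]
    simp only [sum_const, nsmul_eq_mul, mul_one]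
    unfold LL
    ring
  have h2 : 2 * X * LL P - P.card ≤ ∑ c ∈ Bx X, omg P c := by
    unfold omg
    rw [sum_comm]
    have : ∀ p ∈ P, 2 * X * (1 / (p : ℝ)) - 1 ≤ ∑ c ∈ Bx X, ind ((p : ℤ) ∣ c) := by
      intro p hp
      have h3 := (abs_le.1 (card_dvd X (hP p hp).pos)).1
      have h4 : 2 * (X : ℝ) / p = 2 * X * (1 / (p : ℝ)) := by ring
      rw [h4] at h3
      linarith
    refine le_trans (le_of_eq ?_) (sum_le_sum this)
    rw [sum_sub_distrib, ← mul_sum]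
    simp [LL]
  have e : ∑ c ∈ Bx X, (omg P c - LL P) ^ 2 =
      ∑ c ∈ Bx X, omg P c ^ 2 - 2 * LL P * ∑ c ∈ Bx X, omg P c + 2 * X * LL P ^ 2 := by
    have : ∀ c ∈ Bx X, (omg P c - LL P) ^ 2 = omg P c ^ 2 - 2 * LL P * omg P c + LL P ^ 2 := by
      intro c _; ring
    rw [sum_congr rfl this, sum_add_distrib, sum_sub_distrib, ← mul_sum, sum_const, nsmul_eq_mul,
      card_Bx]
  rw [e]
  nlinarith [mul_le_mul_of_nonneg_left h2 hL0, mul_le_mul_of_nonneg_right hLc (Nat.cast_nonneg (α := ℝ) P.card)]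

/-- **The criterion of Katai** for a sum over a box. -/
theorem katai {X : ℕ} (hX : 0 < X) {P : Finset ℕ} (hP : ∀ p ∈ P, p.Prime) {F Ψ : ℤ → ℤ → ℝ}
    {G : ℕ → ℤ → ℤ → ℝ} (hF : ∀ b c, |F b c| ≤ 1) (hΨ : ∀ b c, |Ψ b c| ≤ 1)
    (hG : ∀ p b c, |G p b c| ≤ 1)
    (hFG : ∀ p ∈ P, ∀ b ∈ Bx X, ∀ c ∈ Bx X, (p : ℤ) * c ∈ Bx X → ¬ (p : ℤ) ∣ c →
      F b (p * c) = Ψ b c * G p b c)
    (hG0 : ∀ p ∈ P, ∀ b c, ¬ ((p : ℤ) * c ∈ Bx X ∧ ¬ (p : ℤ) ∣ c) → G p b c = 0) {δ η : ℝ}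
    (hδ : 0 < δ) (hη : 0 ≤ η) (hL : 0 < LL P)
    (hoff : ∀ p ∈ P, ∀ q ∈ P, p ≠ q → |∑ b ∈ Bx X, ∑ c ∈ Bx X, G p b c * G q b c| ≤ η * X ^ 2) :
    LL P * |∑ b ∈ Bx X, ∑ c ∈ Bx X, F b c| ≤
      2 * X * ((2 * X * LL P + 3 * (P.card : ℝ) ^ 2) / (2 * (δ * LL P)) + X * (δ * LL P)) +
      ∑ p ∈ P, 2 * X * (2 * X / (p : ℝ) ^ 2 + 1) +
      ((4 * X ^ 2 * LL P + 2 * X * P.card + η * (P.card : ℝ) ^ 2 * X ^ 2) / (2 * (δ * LL P)) +
        2 * X ^ 2 * (δ * LL P)) := by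
  classical
  have hXr : (0 : ℝ) < X := by exact_mod_cast hX
  obtain ⟨μ, hμ⟩ : ∃ μ : ℝ, μ = δ * LL P := ⟨_, rfl⟩
  have hμ0 : 0 < μ := by rw [hμ]; positivity
  rw [← hμ]
  have amgm : ∀ x : ℝ, |x| ≤ x ^ 2 / (2 * μ) + μ / 2 := by
    intro x
    have h1 : x ^ 2 / (2 * μ) + μ / 2 - |x| = (|x| - μ) ^ 2 / (2 * μ) := by
      rw [← sq_abs x]
      field_simp
      ring
    have h2 : 0 ≤ (|x| - μ) ^ 2 / (2 * μ) := by positivity
    linarith
  -- the first part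
  have p1 : |∑ b ∈ Bx X, ∑ c ∈ Bx X, F b c * (LL P - omg P c)| ≤
      2 * X * ((2 * X * LL P + 3 * (P.card : ℝ) ^ 2) / (2 * μ) + X * μ) := by
    refine (abs_sum_le_sum_abs _ _).trans ?_
    have h1 : ∀ b ∈ Bx X, |∑ c ∈ Bx X, F b c * (LL P - omg P c)| ≤
        (2 * X * LL P + 3 * (P.card : ℝ) ^ 2) / (2 * μ) + X * μ := by
      intro b _
      refine (abs_sum_le_sum_abs _ _).trans ?_
      calc ∑ c ∈ Bx X, |F b c * (LL P - omg P c)| ≤
          ∑ c ∈ Bx X, ((omg P c - LL P) ^ 2 / (2 * μ) + μ / 2) := by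
            refine sum_le_sum fun c _ => ?_
            rw [abs_mul, abs_sub_comm]
            calc _ ≤ 1 * |omg P c - LL P| := mul_le_mul_of_nonneg_right (hF b c) (abs_nonneg _)
              _ = |omg P c - LL P| := one_mul _
              _ ≤ _ := amgm _
        _ = (∑ c ∈ Bx X, (omg P c - LL P) ^ 2) / (2 * μ) + X * μ := by
            rw [sum_add_distrib, ← sum_div, sum_const, nsmul_eq_mul, card_Bx]
            ring
        _ ≤ _ := by
            have := turan X P hP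
            gcongr
    calc _ ≤ ∑ b ∈ Bx X, ((2 * X * LL P + 3 * (P.card : ℝ) ^ 2) / (2 * μ) + X * μ) :=
          sum_le_sum h1
      _ = _ := by rw [sum_const, nsmul_eq_mul, card_Bx]
  -- the expansion over the multiples of `p`
  have key : ∀ p ∈ P, ∀ b : ℤ, ∑ c ∈ Bx X, F b c * ind ((p : ℤ) ∣ c) =
      ∑ c ∈ Bx X, ind ((p : ℤ) * c ∈ Bx X) * F b (p * c) := by
    intro p hp b
    have hp0 : 0 < (p : ℤ) := by exact_mod_cast (hP p hp).pos
    have hp1 : 1 ≤ (p : ℤ) := hp0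
    have e1 : ∑ c ∈ Bx X, F b c * ind ((p : ℤ) ∣ c) =
        ∑ c ∈ (Bx X).filter (fun c => (p : ℤ) ∣ c), F b c := by
      rw [sum_filter]
      refine sum_congr rfl fun c _ => ?_
      by_cases h : (p : ℤ) ∣ c
      · rw [ind_pos h, if_pos h, mul_one]
      · rw [ind_neg h, if_neg h, mul_zero]
    have e2 : ∑ c ∈ Bx X, ind ((p : ℤ) * c ∈ Bx X) * F b (p * c) =
        ∑ c ∈ (Bx X).filter (fun c => (p : ℤ) * c ∈ Bx X), F b (p * c) := by
      rw [sum_filter]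
      refine sum_congr rfl fun c _ => ?_
      by_cases h : (p : ℤ) * c ∈ Bx X
      · rw [ind_pos h, if_pos h, one_mul]
      · rw [ind_neg h, if_neg h, zero_mul]
    rw [e1, e2]
    symm
    refine sum_bij (fun c _ => (p : ℤ) * c) ?_ ?_ ?_ ?_
    · intro c hc
      rw [mem_filter] at hc ⊢
      exact ⟨hc.2, dvd_mul_right _ _⟩
    · intro c _ c' _ h
      exact mul_left_cancel₀ hp0.ne' h
    · intro c hc
      rw [mem_filter] at hc
      obtain ⟨c', rfl⟩ := hc.2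
      refine ⟨c', ?_, rfl⟩
      rw [mem_filter]
      refine ⟨?_, hc.1⟩
      have := mem_Bx.1 hc.1
      rw [mem_Bx]
      constructor <;> nlinarith
    · intro c _
      rfl
  obtain ⟨T, hT⟩ : ∃ T : ℤ → ℤ → ℝ, T = fun b c => ∑ p ∈ P, G p b c := ⟨_, rfl⟩
  have p2 : |∑ b ∈ Bx X, ∑ c ∈ Bx X, F b c * omg P c -
      ∑ b ∈ Bx X, ∑ c ∈ Bx X, Ψ b c * T b c| ≤ ∑ p ∈ P, 2 * X * (2 * X / (p : ℝ) ^ 2 + 1) := by
    have e1 : ∑ b ∈ Bx X, ∑ c ∈ Bx X, F b c * omg P c =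
        ∑ p ∈ P, ∑ b ∈ Bx X, ∑ c ∈ Bx X, ind ((p : ℤ) * c ∈ Bx X) * F b (p * c) := by
      have : ∀ b ∈ Bx X, ∑ c ∈ Bx X, F b c * omg P c =
          ∑ p ∈ P, ∑ c ∈ Bx X, ind ((p : ℤ) * c ∈ Bx X) * F b (p * c) := by
        intro b _
        rw [← sum_congr rfl fun p hp => key p hp b, sum_comm]
        refine sum_congr rfl fun c _ => ?_
        unfold omg
        rw [mul_sum]
      rw [sum_congr rfl this, sum_comm]
    have e2 : ∑ b ∈ Bx X, ∑ c ∈ Bx X, Ψ b c * T b c =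
        ∑ p ∈ P, ∑ b ∈ Bx X, ∑ c ∈ Bx X, Ψ b c * G p b c := by
      rw [hT]
      simp only [mul_sum]
      have : ∀ b ∈ Bx X, ∑ c ∈ Bx X, ∑ p ∈ P, Ψ b c * G p b c =
          ∑ p ∈ P, ∑ c ∈ Bx X, Ψ b c * G p b c := fun b _ => sum_comm
      rw [sum_congr rfl this, sum_comm]
    rw [e1, e2, ← sum_sub_distrib]
    refine (abs_sum_le_sum_abs _ _).trans (sum_le_sum fun p hp => ?_)
    rw [← sum_sub_distrib]
    refine (abs_sum_le_sum_abs _ _).trans ?_
    have hp0 : 0 < (p : ℤ) := by exact_mod_cast (hP p hp).pos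
    have h1 : ∀ b ∈ Bx X, |∑ c ∈ Bx X, ind ((p : ℤ) * c ∈ Bx X) * F b (p * c) -
        ∑ c ∈ Bx X, Ψ b c * G p b c| ≤ 2 * X / (p : ℝ) ^ 2 + 1 := by
      intro b hb
      rw [← sum_sub_distrib]
      refine (abs_sum_le_sum_abs _ _).trans ?_
      calc ∑ c ∈ Bx X, |ind ((p : ℤ) * c ∈ Bx X) * F b (p * c) - Ψ b c * G p b c| ≤
          ∑ c ∈ Bx X, ind ((p : ℤ) * c ∈ Bx X ∧ (p : ℤ) ∣ c) := by
            refine sum_le_sum fun c hc => ?_
            by_cases h1 : (p : ℤ) * c ∈ Bx X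
            · by_cases h2 : (p : ℤ) ∣ c
              · rw [ind_pos h1, ind_pos ⟨h1, h2⟩, hG0 p hp b c (fun h => h.2 h2), mul_zero,
                  sub_zero, one_mul]
                exact hF _ _
              · rw [ind_pos h1, ind_neg (fun h => h2 h.2), hFG p hp b hb c hc h1 h2]
                simp
            · rw [ind_neg h1, ind_neg (fun h => h1 h.1), hG0 p hp b c (fun h => h1 h.1)]
              simp
        _ ≤ ∑ c ∈ Bx X, ind (((p ^ 2 : ℕ) : ℤ) ∣ c) := by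
            rw [sum_ind, sum_ind]
            have : (((Bx X).filter (fun c => (p : ℤ) * c ∈ Bx X ∧ (p : ℤ) ∣ c)).card) ≤
                (((Bx X).filter (fun c => ((p ^ 2 : ℕ) : ℤ) ∣ c)).card) := by
              refine card_le_card_of_injOn (fun c => (p : ℤ) * c) ?_ ?_
              · intro c hc
                have hc' := mem_filter.1 (mem_coe.1 hc)
                refine mem_coe.2 (mem_filter.2 ⟨hc'.2.1, ?_⟩)
                obtain ⟨k, hk⟩ := hc'.2.2
                exact ⟨k, by rw [hk]; push_cast; ring⟩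
              · intro c _ c' _ h
                exact mul_left_cancel₀ hp0.ne' h
            exact_mod_cast this
        _ ≤ _ := by
            have h3 := (abs_le.1 (card_dvd X (pow_pos (hP p hp).pos 2))).2
            push_cast at h3 ⊢
            linarith
    calc _ ≤ ∑ b ∈ Bx X, (2 * (X : ℝ) / (p : ℝ) ^ 2 + 1) := sum_le_sum h1
      _ = _ := by rw [sum_const, nsmul_eq_mul, card_Bx]
  -- the square
  have p3 : |∑ b ∈ Bx X, ∑ c ∈ Bx X, Ψ b c * T b c| ≤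
      (4 * X ^ 2 * LL P + 2 * X * P.card + η * (P.card : ℝ) ^ 2 * X ^ 2) / (2 * μ) +
        2 * X ^ 2 * μ := by
    have h1 : ∑ b ∈ Bx X, ∑ c ∈ Bx X, T b c ^ 2 ≤
        4 * X ^ 2 * LL P + 2 * X * P.card + η * (P.card : ℝ) ^ 2 * X ^ 2 := by
      have e1 : ∑ b ∈ Bx X, ∑ c ∈ Bx X, T b c ^ 2 =
          ∑ p ∈ P, ∑ q ∈ P, ∑ b ∈ Bx X, ∑ c ∈ Bx X, G p b c * G q b c := by
        rw [hT]
        simp only [sq, sum_mul_sum]
        have : ∀ b ∈ Bx X, ∑ c ∈ Bx X, ∑ p ∈ P, ∑ q ∈ P, G p b c * G q b c =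
            ∑ p ∈ P, ∑ q ∈ P, ∑ c ∈ Bx X, G p b c * G q b c := by
          intro b _
          rw [sum_comm]
          refine sum_congr rfl fun p _ => ?_
          rw [sum_comm]
        rw [sum_congr rfl this, sum_comm]
        refine sum_congr rfl fun p _ => ?_
        rw [sum_comm]
      rw [e1]
      have e2 : ∀ p ∈ P, ∀ q ∈ P, ∑ b ∈ Bx X, ∑ c ∈ Bx X, G p b c * G q b c ≤
          (if p = q then 2 * X * (2 * X * (1 / (p : ℝ)) + 1) else 0) + η * X ^ 2 := by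
        intro p hp q hq
        by_cases hpq : p = q
        · rw [if_pos hpq, ← hpq]
          have hp0 : 0 < (p : ℤ) := by exact_mod_cast (hP p hp).pos
          have h2 : ∀ b ∈ Bx X, ∑ c ∈ Bx X, G p b c * G p b c ≤ 2 * X * (1 / (p : ℝ)) + 1 := by
            intro b _
            calc ∑ c ∈ Bx X, G p b c * G p b c ≤ ∑ c ∈ Bx X, ind ((p : ℤ) * c ∈ Bx X) := by
                  refine sum_le_sum fun c _ => ?_
                  by_cases h : (p : ℤ) * c ∈ Bx X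
                  · rw [ind_pos h, ← sq, ← sq_abs]
                    exact pow_le_one₀ (abs_nonneg _) (hG _ _ _)
                  · rw [ind_neg h, hG0 p hp b c (fun hh => h hh.1), mul_zero]
              _ ≤ ∑ c ∈ Bx X, ind ((p : ℤ) ∣ c) := by
                  rw [sum_ind, sum_ind]
                  have : (((Bx X).filter (fun c => (p : ℤ) * c ∈ Bx X)).card) ≤
                      (((Bx X).filter (fun c => (p : ℤ) ∣ c)).card) := by
                    refine card_le_card_of_injOn (fun c => (p : ℤ) * c) ?_ ?_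
                    · intro c hc
                      have hc' := mem_filter.1 (mem_coe.1 hc)
                      exact mem_coe.2 (mem_filter.2 ⟨hc'.2, dvd_mul_right _ _⟩)
                    · intro c _ c' _ h
                      exact mul_left_cancel₀ hp0.ne' h
                  exact_mod_cast this
              _ ≤ _ := by
                  have h3 := (abs_le.1 (card_dvd X (hP p hp).pos)).2
                  have h4 : 2 * (X : ℝ) / p = 2 * X * (1 / (p : ℝ)) := by ring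
                  rw [h4] at h3
                  linarith
          have h5 : ∑ b ∈ Bx X, ∑ c ∈ Bx X, G p b c * G p b c ≤
              2 * X * (2 * X * (1 / (p : ℝ)) + 1) := by
            calc _ ≤ ∑ b ∈ Bx X, (2 * (X : ℝ) * (1 / (p : ℝ)) + 1) := sum_le_sum h2
              _ = _ := by rw [sum_const, nsmul_eq_mul, card_Bx]
          have h6 : 0 ≤ η * (X : ℝ) ^ 2 := by positivity
          linarith
        · rw [if_neg hpq, zero_add]
          exact (le_abs_self _).trans (hoff p hp q hq hpq)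
      · refine (sum_le_sum fun p hp => sum_le_sum fun q hq => e2 p hp q hq).trans (le_of_eq ?_)
        simp only [sum_add_distrib, sum_ite_eq, sum_const, nsmul_eq_mul]
        have e3 : ∑ p ∈ P, (if p ∈ P then 2 * (X : ℝ) * (2 * X * (1 / (p : ℝ)) + 1) else 0) =
            4 * X ^ 2 * LL P + 2 * X * P.card := by
          rw [sum_congr rfl fun p hp => if_pos hp, ← mul_sum, sum_add_distrib, ← mul_sum]
          simp only [sum_const, nsmul_eq_mul, mul_one]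
          unfold LL
          ring
        rw [e3]
        ring
    calc |∑ b ∈ Bx X, ∑ c ∈ Bx X, Ψ b c * T b c| ≤
        ∑ b ∈ Bx X, ∑ c ∈ Bx X, (T b c ^ 2 / (2 * μ) + μ / 2) := by
          refine (abs_sum_le_sum_abs _ _).trans (sum_le_sum fun b _ => ?_)
          refine (abs_sum_le_sum_abs _ _).trans (sum_le_sum fun c _ => ?_)
          rw [abs_mul]
          calc _ ≤ 1 * |T b c| := mul_le_mul_of_nonneg_right (hΨ b c) (abs_nonneg _)
            _ = |T b c| := one_mul _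
            _ ≤ _ := amgm _
      _ = (∑ b ∈ Bx X, ∑ c ∈ Bx X, T b c ^ 2) / (2 * μ) + 2 * X ^ 2 * μ := by
          simp only [sum_add_distrib, ← sum_div, sum_const, nsmul_eq_mul, card_Bx]
          ring
      _ ≤ _ := by gcongr
  have hsplit : LL P * ∑ b ∈ Bx X, ∑ c ∈ Bx X, F b c =
      ∑ b ∈ Bx X, ∑ c ∈ Bx X, F b c * (LL P - omg P c) +
      (∑ b ∈ Bx X, ∑ c ∈ Bx X, F b c * omg P c - ∑ b ∈ Bx X, ∑ c ∈ Bx X, Ψ b c * T b c) +
      ∑ b ∈ Bx X, ∑ c ∈ Bx X, Ψ b c * T b c := by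
    simp only [mul_sub, sum_sub_distrib, ← sum_mul]
    ring
  calc LL P * |∑ b ∈ Bx X, ∑ c ∈ Bx X, F b c| = |LL P * ∑ b ∈ Bx X, ∑ c ∈ Bx X, F b c| := by
        rw [abs_mul, abs_of_pos hL]
    _ ≤ _ := by
        rw [hsplit]
        refine (abs_add_le _ _).trans (add_le_add ((abs_add_le _ _).trans (add_le_add p1 p2)) p3)

end Pool.Agent.K1H81.RN
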