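import Pool.Agent.K1H81.RN.Sym
import Pool.Agent.Helper245.MobAP

/-!
# The Möbius function in residue classes, uniform in the interval (helper81)
-/

set_option autoImplicit false

namespace Pool.Agent.K1H81.RN

open Finset Filter Topology

/-- `(-1) ^ ω(a)` on the integers with quotient `l` by the radical -/
def gl (l : ℕ) (a : ℤ) : ℤ := if a ≠ 0 ∧ q2 a = l then om a else 0

lemma gl_neg (l : ℕ) (a : ℤ) : gl l (-a) = gl l a := by
  unfold gl q2 rd om
  simp only [Int.natAbs_neg, ne_eq, neg_eq_zero]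

lemma gl_abs (l : ℕ) (a : ℤ) : |(gl l a : ℝ)| ≤ 1 := by
  unfold gl om
  split_ifs
  · push_cast
    rw [abs_pow, abs_neg, abs_one, one_pow]
  · simp

/-- the condition on the cofactor -/
def Cf (q l : ℕ) (r : ℕ) (m : ℕ) : Prop := l * m % q = r ∧ ∀ p : ℕ, p.Prime → p ∣ l → p ∣ m

lemma Cf_mod (q l r m : ℕ) : Cf q l r m ↔ Cf q l r (m % (q * l)) := by
  unfold Cf
  have h1 : l * (m % (q * l)) % q = l * m % q := by
    have : m % (q * l) ≡ m [MOD q] := (Nat.mod_modEq m (q * l)).of_mul_right l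
    exact this.mul_left l
  rw [h1]
  refine and_congr_right fun _ => forall_congr' fun p => forall_congr' fun _ =>
    forall_congr' fun hpl => ?_
  have : p ∣ q * l := hpl.mul_left q
  rw [Nat.dvd_mod_iff this]

lemma q2_iff {l n : ℕ} (hn : n ≠ 0) : q2 (n : ℤ) = l ↔
    ∃ m, n = l * m ∧ Squarefree m ∧ ∀ p : ℕ, p.Prime → p ∣ l → p ∣ m := by
  have hn' : (n : ℤ) ≠ 0 := by exact_mod_cast hn
  have hrd : rd (n : ℤ) = ∏ p ∈ n.primeFactors, p := rfl
  have hsq : Squarefree (rd (n : ℤ)) := by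
    rw [hrd]
    refine Finset.squarefree_prod_of_pairwise_isCoprime (fun p hp q hq hpq => ?_) fun p hp =>
      (Nat.prime_of_mem_primeFactors hp).squarefree
    exact Nat.coprime_iff_isRelPrime.1 ((Nat.coprime_primes (Nat.prime_of_mem_primeFactors hp)
      (Nat.prime_of_mem_primeFactors hq)).2 hpq)
  have hmul : rd (n : ℤ) * q2 (n : ℤ) = n := rd_mul_q2 hn'
  constructor
  · intro h
    refine ⟨rd (n : ℤ), by rw [← h, mul_comm]; exact hmul.symm, hsq, fun p hp hpl => ?_⟩
    rw [hrd]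
    apply dvd_prod_of_mem (fun p => p)
    rw [Nat.mem_primeFactors]
    refine ⟨hp, ?_, hn⟩
    rw [← hmul, h]
    exact hpl.mul_left _
  · rintro ⟨m, hm, hms, hpl⟩
    have hm0 : m ≠ 0 := hms.ne_zero
    have hl0 : l ≠ 0 := by rintro rfl; rw [zero_mul] at hm; exact hn hm
    have h1 : n.primeFactors = m.primeFactors := by
      rw [hm, Nat.primeFactors_mul hl0 hm0]
      apply union_eq_right.2
      intro p hp
      rw [Nat.mem_primeFactors] at hp ⊢
      exact ⟨hp.1, hpl p hp.1 hp.2.1, hm0⟩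
    have h2 : rd (n : ℤ) = m := by
      rw [hrd, h1]
      exact Nat.prod_primeFactors_of_squarefree hms
    rw [h2] at hmul
    have h3 : q2 (n : ℤ) * m = l * m := by rw [mul_comm, hmul, hm]
    exact Nat.eq_of_mul_eq_mul_right (Nat.pos_of_ne_zero hm0) h3

lemma card_pf {m : ℕ} (h : Squarefree m) :
    ((-1 : ℤ)) ^ m.primeFactors.card = ArithmeticFunction.moebius m := by
  rw [ArithmeticFunction.moebius_apply_of_squarefree h,
    ← (ArithmeticFunction.cardDistinctFactors_eq_cardFactors_iff_squarefree h.ne_zero).2 h]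
  rfl

open Classical in
lemma gl_nat {l : ℕ} (hl : 0 < l) {m : ℕ} (hm : m ≠ 0) : gl l ((l * m : ℕ) : ℤ) =
    if ∀ p : ℕ, p.Prime → p ∣ l → p ∣ m then ArithmeticFunction.moebius m else 0 := by
  have hn : l * m ≠ 0 := mul_ne_zero hl.ne' hm
  have hn' : ((l * m : ℕ) : ℤ) ≠ 0 := by exact_mod_cast hn
  unfold gl
  have hq := q2_iff (l := l) hn
  have hex : (∃ m', l * m = l * m' ∧ Squarefree m' ∧ ∀ p : ℕ, p.Prime → p ∣ l → p ∣ m') ↔
      (Squarefree m ∧ ∀ p : ℕ, p.Prime → p ∣ l → p ∣ m) := by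
    constructor
    · rintro ⟨m', h1, h2⟩
      rw [Nat.eq_of_mul_eq_mul_left hl h1]
      exact h2
    · intro h
      exact ⟨m, rfl, h⟩
  rw [hex] at hq
  by_cases hc : ∀ p : ℕ, p.Prime → p ∣ l → p ∣ m
  · rw [if_pos hc]
    by_cases hs : Squarefree m
    · rw [if_pos ⟨hn', hq.2 ⟨hs, hc⟩⟩]
      unfold om
      have h1 : (l * m).primeFactors = m.primeFactors := by
        rw [Nat.primeFactors_mul hl.ne' hm]
        apply union_eq_right.2
        intro p hp
        rw [Nat.mem_primeFactors] at hp ⊢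
        exact ⟨hp.1, hc p hp.1 hp.2.1, hm⟩
      rw [Int.natAbs_natCast, h1, card_pf hs]
    · rw [if_neg (fun h => hs (hq.1 h.2).1), ArithmeticFunction.moebius_eq_zero_of_not_squarefree hs]
  · rw [if_neg hc, if_neg (fun h => hc (hq.1 h.2).2)]

lemma gl_ndvd {l n : ℕ} (h : ¬ l ∣ n) : gl l (n : ℤ) = 0 := by
  unfold gl
  apply if_neg
  rintro ⟨h1, h2⟩
  have hn : n ≠ 0 := by exact_mod_cast h1
  obtain ⟨m, hm, -⟩ := (q2_iff hn).1 h2
  exact h ⟨m, hm⟩

open Classical in
lemma sum_conv {q l r : ℕ} (hl : 0 < l) (N : ℕ) :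
    (∑ n ∈ range (N + 1), if n % q = r then (gl l (n : ℤ) : ℝ) else 0) =
      ∑ m ∈ range (N / l + 1), if Cf q l r m then (ArithmeticFunction.moebius m : ℝ) else 0 := by
  have hinj : Set.InjOn (fun m : ℕ => l * m) (range (N / l + 1) : Set ℕ) := fun a _ b _ h =>
    Nat.eq_of_mul_eq_mul_left hl h
  have h1 : (range (N / l + 1)).image (fun m => l * m) ⊆ range (N + 1) := by
    intro n hn
    obtain ⟨m, hm, rfl⟩ := mem_image.1 hn
    rw [mem_range] at hm ⊢
    have := Nat.div_mul_le_self N l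
    have h2 : m ≤ N / l := by omega
    have h3 : l * m ≤ N / l * l := by rw [mul_comm]; exact Nat.mul_le_mul_right _ h2
    show l * m < N + 1
    omega
  rw [← sum_subset h1, sum_image hinj]
  · refine sum_congr rfl fun m _ => ?_
    rcases Nat.eq_zero_or_pos m with rfl | hm
    · simp [gl]
    · rw [gl_nat hl hm.ne']
      unfold Cf
      by_cases h3 : l * m % q = r
      · rw [if_pos h3]
        by_cases h4 : ∀ p : ℕ, p.Prime → p ∣ l → p ∣ m
        · rw [if_pos h4, if_pos ⟨h3, h4⟩]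
        · rw [if_neg h4, if_neg (fun h => h4 h.2)]
          simp
      · rw [if_neg h3, if_neg (fun h => h3 h.1)]
  · intro n hn hn2
    have : ¬ l ∣ n := by
      rintro ⟨m, rfl⟩
      apply hn2
      refine mem_image.2 ⟨m, ?_, rfl⟩
      rw [mem_range] at hn ⊢
      have : m ≤ N / l := (Nat.le_div_iff_mul_le hl).2 (by rw [mul_comm]; omega)
      omega
    rw [gl_ndvd this]
    simp

open Classical in
lemma sum_classes {q l r : ℕ} (hq : 0 < q) (hl : 0 < l) (M : ℕ) :
    (∑ m ∈ range M, if Cf q l r m then (ArithmeticFunction.moebius m : ℝ) else 0) =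
      ∑ s ∈ (range (q * l)).filter (fun s => Cf q l r s), ∑ m ∈ range M,
        if m % (q * l) = s then (ArithmeticFunction.moebius m : ℝ) else 0 := by
  rw [sum_comm]
  refine sum_congr rfl fun m _ => ?_
  have hql : 0 < q * l := Nat.mul_pos hq hl
  rw [sum_ite_eq]
  simp only [mem_filter, mem_range]
  rw [Cf_mod]
  by_cases h : Cf q l r (m % (q * l))
  · rw [if_pos h, if_pos ⟨Nat.mod_lt _ hql, h⟩]
  · rw [if_neg h, if_neg (fun hh => h hh.2)]

lemma tend {q l : ℕ} (hq : 0 < q) (hl : 0 < l) (r : ℕ) :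
    Tendsto (fun N : ℕ => (∑ n ∈ range (N + 1), if n % q = r then (gl l (n : ℤ) : ℝ) else 0) /
      ((N + 1 : ℕ) : ℝ)) atTop (𝓝 0) := by
  classical
  have h1 : Tendsto (fun M : ℕ => (∑ m ∈ range M, if Cf q l r m then
      (ArithmeticFunction.moebius m : ℝ) else 0) / M) atTop (𝓝 0) := by
    have h0 : ∀ M : ℕ, (∑ m ∈ range M, if Cf q l r m then
        (ArithmeticFunction.moebius m : ℝ) else 0) / M =
        ∑ s ∈ (range (q * l)).filter (fun s => Cf q l r s), (∑ m ∈ range M,
          if m % (q * l) = s then (ArithmeticFunction.moebius m : ℝ) else 0) / M := fun M => by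
      rw [sum_classes hq hl, sum_div]
    simp_rw [h0]
    have := tendsto_finsetSum ((range (q * l)).filter (fun s => Cf q l r s))
      (fun s _ => Pool.Agent.Helper245.mobius_ap (q * l) s (Nat.mul_pos hq hl))
    simpa using this
  simp_rw [sum_conv hl]
  have h2 : Tendsto (fun N : ℕ => N / l + 1) atTop atTop :=
    tendsto_atTop_mono (fun N => Nat.le_succ _) (Nat.tendsto_div_const_atTop hl.ne')
  have h3 := tendsto_norm_zero.comp (h1.comp h2)
  refine squeeze_zero_norm (fun N => ?_) h3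
  simp only [Function.comp]
  rw [norm_div, norm_div, Real.norm_natCast, Real.norm_natCast]
  apply div_le_div_of_nonneg_left (norm_nonneg _)
  · exact_mod_cast Nat.succ_pos _
  · exact_mod_cast Nat.succ_le_succ (Nat.div_le_self _ _)

/-- the sums up to `N` are small, uniformly -/
lemma unif1 {q l : ℕ} (hq : 0 < q) (hl : 0 < l) {ε : ℝ} (hε : 0 < ε) :
    ∃ X0 : ℕ, ∀ X : ℕ, X0 ≤ X → ∀ r : ℕ, ∀ N : ℕ, N ≤ X →
      |∑ n ∈ range (N + 1), if n % q = r then (gl l (n : ℤ) : ℝ) else 0| ≤ ε * X := by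
  classical
  have h1 : ∀ r : ℕ, ∃ N1 : ℕ, ∀ N : ℕ, N1 ≤ N →
      |∑ n ∈ range (N + 1), if n % q = r then (gl l (n : ℤ) : ℝ) else 0| ≤ ε / 2 * (N + 1) := by
    intro r
    have := (tendsto_norm_zero.comp (tend hq hl r)).eventually_lt_const (half_pos hε)
    obtain ⟨N1, hN1⟩ := eventually_atTop.1 this
    refine ⟨N1, fun N hN => ?_⟩
    have h2 := hN1 N hN
    simp only [Function.comp, Real.norm_eq_abs] at h2
    rw [abs_div, div_lt_iff₀ (by positivity)] at h2
    have h3 : |((N + 1 : ℕ) : ℝ)| = N + 1 := by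
      rw [abs_of_nonneg (Nat.cast_nonneg _)]; push_cast; ring
    rw [h3] at h2
    exact h2.le
  choose N1 hN1 using h1
  obtain ⟨B, hB⟩ : ∃ B : ℕ, B = ∑ r ∈ range q, N1 r := ⟨_, rfl⟩
  obtain ⟨X1, hX1⟩ := exists_nat_ge ((B + 1 : ℝ) / ε)
  refine ⟨max X1 1, fun X hX r N hN => ?_⟩
  have hX1' : (1 : ℝ) ≤ X := by exact_mod_cast (le_max_right _ _).trans hX
  have hXB : (B + 1 : ℝ) ≤ ε * X := by
    rw [div_le_iff₀ hε] at hX1
    have : (X1 : ℝ) ≤ X := by exact_mod_cast (le_max_left _ _).trans hX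
    nlinarith
  by_cases hr : r < q
  swap
  · have : ∀ n ∈ range (N + 1), (if n % q = r then (gl l (n : ℤ) : ℝ) else 0) = 0 := by
      intro n _
      apply if_neg
      have := Nat.mod_lt n hq
      omega
    rw [sum_eq_zero this, abs_zero]
    positivity
  by_cases hNr : N1 r ≤ N
  · refine (hN1 r N hNr).trans ?_
    have : (N : ℝ) ≤ X := by exact_mod_cast hN
    nlinarith
  · have hNB : N + 1 ≤ B + 1 := by
      have : N1 r ≤ B := by
        rw [hB]
        exact single_le_sum (fun _ _ => Nat.zero_le _) (mem_range.2 hr)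
      omega
    refine le_trans ?_ hXB
    refine (abs_sum_le_sum_abs _ _).trans ?_
    calc ∑ n ∈ range (N + 1), |if n % q = r then (gl l (n : ℤ) : ℝ) else 0| ≤
        ∑ n ∈ range (N + 1), (1 : ℝ) := by
          refine sum_le_sum fun n _ => ?_
          split_ifs
          · exact gl_abs l n
          · simp
      _ = ((N + 1 : ℕ) : ℝ) := by rw [sum_const, card_range, nsmul_eq_mul, mul_one]
      _ ≤ _ := by exact_mod_cast hNB

/-- positive integers -/
lemma sum_pos_part (f : ℤ → ℝ) (n : ℕ) : ∑ x ∈ Ioc (0 : ℤ) n, f x = ∑ k ∈ range n, f ((k : ℤ) + 1) := by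
  induction n with
  | zero => simp
  | succ n ih =>
    rw [sum_range_succ, ← ih]
    have : Ioc (0 : ℤ) ((n + 1 : ℕ) : ℤ) = insert ((n : ℤ) + 1) (Ioc (0 : ℤ) n) := by
      ext x
      simp only [mem_insert, mem_Ioc]
      push_cast
      omega
    rw [this, sum_insert (by simp), add_comm]

lemma sum_neg_part (f : ℤ → ℝ) (n : ℕ) : ∑ x ∈ Ioc (-(n : ℤ)) 0, f x = ∑ k ∈ range n, f (-(k : ℤ)) := by
  induction n with
  | zero => simp
  | succ n ih =>
    rw [sum_range_succ, ← ih]
    have : Ioc (-((n + 1 : ℕ) : ℤ)) 0 = insert (-(n : ℤ)) (Ioc (-(n : ℤ)) 0) := by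
      ext x
      simp only [mem_insert, mem_Ioc]
      push_cast
      omega
    rw [this, sum_insert (by simp), add_comm]

lemma split (f : ℤ → ℝ) {A B C : ℤ} (h1 : A ≤ B) (h2 : B ≤ C) :
    ∑ x ∈ Ioc A C, f x = ∑ x ∈ Ioc A B, f x + ∑ x ∈ Ioc B C, f x := by
  rw [← Ioc_union_Ioc_eq_Ioc h1 h2, sum_union]
  rw [disjoint_left]
  intro x hx hx'
  rw [mem_Ioc] at hx hx'
  omega

/-- **the Möbius function in residue classes, uniform in the interval** -/
theorem unif {q l : ℕ} (hq : 0 < q) (hl : 0 < l) {ε : ℝ} (hε : 0 < ε) :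
    ∃ X0 : ℕ, ∀ X : ℕ, X0 ≤ X → ∀ r A B : ℤ, -(X : ℤ) ≤ A → A ≤ B → B ≤ X →
      |∑ x ∈ Ioc A B, if x % q = r then (gl l x : ℝ) else 0| ≤ ε * X := by
  obtain ⟨X0, h⟩ := unif1 hq hl (by linarith : 0 < ε / 4)
  obtain ⟨X1, hX1⟩ := exists_nat_ge ((4 : ℝ) / ε)
  refine ⟨max X0 X1, fun X hX r A B hA hAB hB => ?_⟩
  have hX0 := (le_max_left _ _).trans hX
  have hX2 : 1 ≤ ε / 4 * X := by
    have : (X1 : ℝ) ≤ X := by exact_mod_cast (le_max_right _ _).trans hX
    rw [div_le_iff₀ hε] at hX1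
    nlinarith
  have hqz : (0 : ℤ) < q := by exact_mod_cast hq
  obtain ⟨f, hf⟩ : ∃ f : ℤ → ℝ, f = fun x => if x % q = r then (gl l x : ℝ) else 0 := ⟨_, rfl⟩
  have hf1 : ∀ x, |f x| ≤ 1 := by
    intro x
    rw [hf]
    show |if x % q = r then (gl l x : ℝ) else 0| ≤ 1
    split_ifs
    · exact gl_abs l x
    · simp
  have hf0 : f 0 = 0 := by
    rw [hf]
    show (if (0 : ℤ) % q = r then (gl l 0 : ℝ) else 0) = 0
    have : gl l 0 = 0 := by unfold gl; simp
    rw [this]
    simp
  -- prefix sums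
  have hpos : ∀ n : ℕ, n ≤ X → |∑ x ∈ Ioc (0 : ℤ) n, f x| ≤ ε / 4 * X := by
    intro n hn
    rw [sum_pos_part]
    by_cases hr : 0 ≤ r
    · have h1 := h X hX0 r.toNat n hn
      rw [sum_range_succ'] at h1
      have e0 : (if 0 % q = r.toNat then (gl l ((0 : ℕ) : ℤ) : ℝ) else 0) = 0 := by
        have : gl l ((0 : ℕ) : ℤ) = 0 := by unfold gl; simp
        rw [this]; simp
      rw [e0, add_zero] at h1
      refine le_of_eq_of_le (congrArg _ (sum_congr rfl fun k _ => ?_)) h1
      rw [hf]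
      show (if ((k : ℤ) + 1) % q = r then (gl l ((k : ℤ) + 1) : ℝ) else 0) =
        if (k + 1) % q = r.toNat then (gl l ((k + 1 : ℕ) : ℤ) : ℝ) else 0
      have : (((k : ℤ) + 1) % q = r) ↔ ((k + 1) % q = r.toNat) := by
        have e : ((k : ℤ) + 1) % q = (((k + 1) % q : ℕ) : ℤ) := by push_cast; rfl
        rw [e]
        omega
      simp only [this]
      push_cast
      rfl
    · have : ∀ k ∈ range n, f ((k : ℤ) + 1) = 0 := by
        intro k _
        rw [hf]
        apply if_neg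
        intro hh
        have := Int.emod_nonneg ((k : ℤ) + 1) hqz.ne'
        omega
      rw [sum_eq_zero this, abs_zero]
      positivity
  have hneg : ∀ n : ℕ, n ≤ X → |∑ x ∈ Ioc (-(n : ℤ)) 0, f x| ≤ ε / 4 * X + 1 := by
    intro n hn
    rw [sum_neg_part]
    rcases Nat.eq_zero_or_pos n with rfl | hn0
    · simp
      positivity
    obtain ⟨n, rfl⟩ : ∃ n', n = n' + 1 := ⟨n - 1, by omega⟩
    have h1 := h X hX0 ((-r) % q).toNat n (by omega)
    by_cases hr : 0 ≤ r ∧ r < q
    · refine le_trans (le_of_eq_of_le (congrArg _ (sum_congr rfl fun k _ => ?_)) h1) (by linarith)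
      rw [hf]
      show (if (-(k : ℤ)) % q = r then (gl l (-(k : ℤ)) : ℝ) else 0) =
        if k % q = ((-r) % q).toNat then (gl l (k : ℤ) : ℝ) else 0
      rw [gl_neg]
      have hiff : ((-(k : ℤ)) % q = r) ↔ (k % q = ((-r) % q).toNat) := by
        have e0 := Int.emod_nonneg (-r) hqz.ne'
        have e1 : (k % q = ((-r) % q).toNat) ↔ ((k : ℤ) % q = (-r) % q) := by
          have : (k : ℤ) % q = ((k % q : ℕ) : ℤ) := by push_cast; rfl
          rw [this]
          omega
        rw [e1]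
        have e2 : r % q = r := Int.emod_eq_of_lt hr.1 hr.2
        constructor
        · intro hh
          have h3 : (-(k : ℤ)) ≡ r [ZMOD q] := by
            show (-(k : ℤ)) % q = r % q
            rw [e2]; exact hh
          have h4 := h3.neg
          rw [neg_neg] at h4
          exact h4
        · intro hh
          have h3 : (k : ℤ) ≡ -r [ZMOD q] := hh
          have h4 := h3.neg
          rw [neg_neg] at h4
          have h5 : (-(k : ℤ)) % q = r % q := h4
          rw [h5, e2]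
      simp only [hiff]
    · have : ∀ k ∈ range (n + 1), f (-(k : ℤ)) = 0 := by
        intro k _
        rw [hf]
        apply if_neg
        intro hh
        have h3 := Int.emod_nonneg (-(k : ℤ)) hqz.ne'
        have h4 := Int.emod_lt_of_pos (-(k : ℤ)) hqz
        omega
      rw [sum_eq_zero this, abs_zero]
      positivity
  have hgoal : |∑ x ∈ Ioc A B, f x| ≤ ε * X := by
    have key : ∀ a b c : ℝ, |a| ≤ ε / 4 * X + 1 → |b| ≤ ε / 4 * X + 1 → c = a + b ∨ c = a - b →
        |c| ≤ ε * X := by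
      intro a b c ha hb hc
      have h1 : |c| ≤ |a| + |b| := by
        rcases hc with hc | hc
        · rw [hc]; exact abs_add_le a b
        · rw [hc]; exact abs_sub a b
      linarith
    rcases le_total 0 A with hA0 | hA0
    · obtain ⟨a, rfl⟩ := Int.eq_ofNat_of_zero_le hA0
      obtain ⟨b, rfl⟩ := Int.eq_ofNat_of_zero_le (hA0.trans hAB)
      have h1 := hpos b (by omega)
      have h2 := hpos a (by omega)
      exact key _ _ _ (h1.trans (by linarith)) (h2.trans (by linarith))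
        (Or.inr (by rw [split f hA0 hAB]; ring))
    · rcases le_total 0 B with hB0 | hB0
      · obtain ⟨b, rfl⟩ := Int.eq_ofNat_of_zero_le hB0
        have h1 := hpos b (by omega)
        have h2 := hneg (-A).toNat (by omega)
        have e : -((-A).toNat : ℤ) = A := by omega
        rw [e] at h2
        exact key _ _ _ h2 (h1.trans (by linarith)) (Or.inl (split f hA0 hB0))
      · have h1 := hneg (-A).toNat (by omega)
        have h2 := hneg (-B).toNat (by omega)
        have e : -((-A).toNat : ℤ) = A := by omega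
        have e' : -((-B).toNat : ℤ) = B := by omega
        rw [e] at h1
        rw [e'] at h2
        exact key _ _ _ h1 h2 (Or.inr (by rw [split f hAB hB0]; ring))
  rw [hf] at hgoal
  exact hgoal

end Pool.Agent.K1H81.RN
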