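import Pool.Agent.K1H81.RN.Katai
import Pool.Agent.K1H81.RN.Mob

/-!
# The off-diagonal sums (helper81)
-/

set_option autoImplicit false

namespace Pool.Agent.K1H81.RN

open Finset

lemma tame_x (X : ℕ) : Tame 2 (fun x _ => x ∈ Bx X) := by
  have h1 := (PolyFn.fst.tame (X : ℤ)).and ((PolyFn.cmul (-1) PolyFn.fst).tame ((X : ℤ) - 1))
  intro α β γ δ N
  refine le_trans (le_of_eq ?_) (h1 α β γ δ N)
  congr 1
  funext t
  apply ind_congr
  show α + β * t ∈ Bx X ↔ (α + β * t ≤ X ∧ -1 * (α + β * t) ≤ (X : ℤ) - 1)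
  rw [mem_Bx]
  constructor
  · rintro ⟨h, h'⟩; exact ⟨h', by omega⟩
  · rintro ⟨h, h'⟩; exact ⟨by omega, h⟩

lemma tame_y (X : ℕ) : Tame 2 (fun _ y => y ∈ Bx X) := by
  have h1 := (PolyFn.snd.tame (X : ℤ)).and ((PolyFn.cmul (-1) PolyFn.snd).tame ((X : ℤ) - 1))
  intro α β γ δ N
  refine le_trans (le_of_eq ?_) (h1 α β γ δ N)
  congr 1
  funext t
  apply ind_congr
  show γ + δ * t ∈ Bx X ↔ (γ + δ * t ≤ X ∧ -1 * (γ + δ * t) ≤ (X : ℤ) - 1)
  rw [mem_Bx]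
  constructor
  · rintro ⟨h, h'⟩; exact ⟨h', by omega⟩
  · rintro ⟨h, h'⟩; exact ⟨by omega, h⟩

lemma abs_mul_le {x y : ℝ} (hx : |x| ≤ 1) (hy : |y| ≤ 1) : |x * y| ≤ 1 := by
  rw [abs_mul]
  exact mul_le_one₀ hx (abs_nonneg _) hy

lemma Vr_mul5 {f1 f2 f3 f4 f5 : ℤ → ℝ} {N : ℕ} {m1 m2 m3 m4 m5 : ℝ} (i1 : ∀ t, |f1 t| ≤ 1)
    (i2 : ∀ t, |f2 t| ≤ 1) (i3 : ∀ t, |f3 t| ≤ 1) (i4 : ∀ t, |f4 t| ≤ 1) (i5 : ∀ t, |f5 t| ≤ 1)
    (v1 : Vr f1 N ≤ m1) (v2 : Vr f2 N ≤ m2) (v3 : Vr f3 N ≤ m3) (v4 : Vr f4 N ≤ m4)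
    (v5 : Vr f5 N ≤ m5) :
    Vr (fun t => f1 t * f2 t * f3 t * f4 t * f5 t) N ≤ m1 + m2 + m3 + m4 + m5 := by
  have w1 := Vr_mul i1 i2 v1 v2
  have j1 : ∀ t, |(fun t => f1 t * f2 t) t| ≤ 1 := fun t => abs_mul_le (i1 t) (i2 t)
  have w2 := Vr_mul j1 i3 w1 v3
  have j2 : ∀ t, |(fun t => (fun t => f1 t * f2 t) t * f3 t) t| ≤ 1 :=
    fun t => abs_mul_le (j1 t) (i3 t)
  have w3 := Vr_mul j2 i4 w2 v4
  have j3 : ∀ t, |(fun t => (fun t => (fun t => f1 t * f2 t) t * f3 t) t * f4 t) t| ≤ 1 :=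
    fun t => abs_mul_le (j2 t) (i4 t)
  exact Vr_mul j3 i5 w3 v5

lemma shift (X : ℕ) (f : ℤ → ℝ) {v : ℤ} (h1 : -(16 * (X : ℤ)) ≤ v) (h2 : v ≤ 16 * X) :
    ∑ b ∈ Bx X, f b = ∑ n ∈ Bx (17 * X), ind (n - v ∈ Bx X) * f (n - v) := by
  classical
  have e : ∑ n ∈ Bx (17 * X), ind (n - v ∈ Bx X) * f (n - v) =
      ∑ n ∈ (Bx (17 * X)).filter (fun n => n - v ∈ Bx X), f (n - v) := by
    rw [sum_filter]
    refine sum_congr rfl fun c _ => ?_
    by_cases h : c - v ∈ Bx X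
    · rw [ind_pos h, if_pos h, one_mul]
    · rw [ind_neg h, if_neg h, zero_mul]
  rw [e]
  refine sum_bij (fun b _ => b + v) ?_ ?_ ?_ ?_
  · intro b hb
    rw [mem_filter, mem_Bx]
    have := mem_Bx.1 hb
    refine ⟨⟨?_, ?_⟩, by rw [add_sub_cancel_right]; exact hb⟩ <;> push_cast <;> omega
  · intro a _ b _ h
    exact add_right_cancel h
  · intro n hn
    rw [mem_filter] at hn
    exact ⟨n - v, hn.2, by ring⟩
  · intro b _
    rw [add_sub_cancel_right]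

/-- splitting a periodic factor -/
lemma periodic_sum {Q : ℕ} (hQ : 0 < Q) (θ g : ℤ → ℝ) (hθ : ∀ t, θ t = θ (t % Q)) (A B : ℤ) :
    ∑ t ∈ Ioc A B, θ t * g t = ∑ h ∈ range Q, θ h * ∑ t ∈ Ioc A B, if t % Q = h then g t else 0 := by
  have hQz : (0 : ℤ) < Q := by exact_mod_cast hQ
  simp only [mul_sum]
  rw [sum_comm]
  refine sum_congr rfl fun t _ => ?_
  have h0 := Int.emod_nonneg t hQz.ne'
  have h1 := Int.emod_lt_of_pos t hQz
  rw [sum_eq_single (t % Q).toNat]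
  · have e : ((t % Q).toNat : ℤ) = t % Q := Int.toNat_of_nonneg h0
    rw [e, if_pos rfl, ← hθ]
  · intro h _ hne
    rw [if_neg, mul_zero]
    omega
  · intro hn
    exfalso
    apply hn
    rw [mem_range]
    omega

/-- arithmetic progressions -/
lemma ap_sum {D Q : ℕ} (hD : 0 < D) (_hQ : 0 < Q) (g : ℤ → ℝ) (n A B h : ℤ) (h0 : 0 ≤ h)
    (hQh : h < Q) :
    ∑ t ∈ Ioc A B, (if t % Q = h then g (n + D * t) else 0) =
      ∑ x ∈ Ioc (n + D * A) (n + D * B),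
        if x % ((D * Q : ℕ) : ℤ) = (n + D * h) % ((D * Q : ℕ) : ℤ) then g x else 0 := by
  classical
  have hDz : (0 : ℤ) < D := by exact_mod_cast hD
  rw [← sum_filter, ← sum_filter]
  have hkey : ∀ t : ℤ, t % Q = h ↔ (n + D * t) % ((D * Q : ℕ) : ℤ) =
      (n + D * h) % ((D * Q : ℕ) : ℤ) := by
    intro t
    have e2 : h % Q = h := Int.emod_eq_of_lt h0 hQh
    constructor
    · intro ht
      have h3 : t ≡ h [ZMOD Q] := by
        show t % Q = h % Q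
        rw [e2]; exact ht
      have h4 : (D : ℤ) * t ≡ D * h [ZMOD (D * Q)] := h3.mul_left'
      have h5 := h4.add_left n
      push_cast
      exact h5
    · intro ht
      have h5 : n + D * t ≡ n + D * h [ZMOD (D * Q)] := by
        push_cast at ht
        exact ht
      have h4 : (D : ℤ) * t ≡ D * h [ZMOD (D * Q)] := h5.add_left_cancel' n
      have h3 : t ≡ h [ZMOD Q] := Int.ModEq.mul_left_cancel' hDz.ne' h4
      have h6 : t % Q = h % Q := h3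
      rw [h6, e2]
  refine sum_bij (fun t _ => n + D * t) ?_ ?_ ?_ ?_
  · intro t ht
    rw [mem_filter, mem_Ioc] at ht ⊢
    refine ⟨⟨?_, ?_⟩, (hkey t).1 ht.2⟩ <;> nlinarith [ht.1.1, ht.1.2]
  · intro a _ b _ hab
    have : (D : ℤ) * a = D * b := by linarith
    exact mul_left_cancel₀ hDz.ne' this
  · intro x hx
    rw [mem_filter, mem_Ioc] at hx
    have h1 : ((D * Q : ℕ) : ℤ) ∣ x - (n + D * h) := Int.ModEq.dvd (Int.ModEq.symm hx.2)
    obtain ⟨z, hz⟩ := h1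
    refine ⟨h + Q * z, ?_, ?_⟩
    · have e : x = n + D * (h + Q * z) := by
        have : x = (n + D * h) + ((D * Q : ℕ) : ℤ) * z := by linarith
        rw [this]; push_cast; ring
      rw [mem_filter, mem_Ioc]
      rw [e] at hx
      refine ⟨⟨?_, ?_⟩, (hkey _).2 hx.2⟩
      · have := hx.1.1
        have h7 : (D : ℤ) * A < D * (h + Q * z) := by linarith
        exact lt_of_mul_lt_mul_left h7 hDz.le
      · have := hx.1.2
        have h7 : (D : ℤ) * (h + Q * z) ≤ D * B := by linarith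
        exact le_of_mul_le_mul_left h7 hDz
    · have : x = (n + D * h) + ((D * Q : ℕ) : ℤ) * z := by linarith
      rw [this]; push_cast; ring
  · intro t _
    rfl

lemma J_abs_le (a : ℤ) (n : ℕ) : |(jacobiSym a n : ℝ)| ≤ 1 := by
  rcases jacobiSym.trichotomy a n with h | h | h <;> rw [h] <;> norm_num

/-- the factor that depends on `p` -/
noncomputable def Gp (X k l M : ℕ) (γ : ℤ) (R : ℤ → ℤ → Prop) (p : ℕ) (b c : ℤ) : ℝ :=
  ind ((p : ℤ) * c ∈ Bx X) * ind (¬ (p : ℤ) ∣ c) * ((jacobiSym b p : ℝ) * (jacobiSym p k : ℝ)) *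
    (gl l (b + 16 * (p * c)) : ℝ) * ind ((p : ℤ) * c % M = γ) * ind (R b (p * c))

lemma Gp_abs (X k l M : ℕ) (γ : ℤ) (R : ℤ → ℤ → Prop) (p : ℕ) (b c : ℤ) :
    |Gp X k l M γ R p b c| ≤ 1 := by
  unfold Gp
  exact abs_mul_le (abs_mul_le (abs_mul_le (abs_mul_le (abs_mul_le (ind_abs _) (ind_abs _))
    (abs_mul_le (J_abs_le _ _) (J_abs_le _ _))) (gl_abs _ _)) (ind_abs _)) (ind_abs _)

lemma Gp_zero {X k l M : ℕ} {γ : ℤ} {R : ℤ → ℤ → Prop} {p : ℕ} {b c : ℤ}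
    (h : ¬ ((p : ℤ) * c ∈ Bx X ∧ ¬ (p : ℤ) ∣ c)) : Gp X k l M γ R p b c = 0 := by
  unfold Gp
  rw [← ind_and, ind_neg h]
  simp

lemma emod_periodic {a b : ℤ} {n : ℕ} {Q : ℕ} (t : ℤ) (hn : (n : ℤ) ∣ b * Q) :
    (a + b * t) % (n : ℤ) = (a + b * (t % Q)) % (n : ℤ) := by
  apply Int.ModEq.eq
  rw [Int.modEq_iff_dvd]
  have e : a + b * (t % Q) - (a + b * t) = -(b * Q * (t / Q)) := by
    have := Int.emod_add_mul_ediv t Q
    linear_combination b * this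
  rw [e]
  exact (dvd_mul_of_dvd_left hn _).neg_right

/-- **the off-diagonal sums** -/
theorem off {l M p q : ℕ} (hl : 0 < l) (hM : 0 < M) (hp : 0 < p) (hq : 0 < q) (hqp : q < p) (m : ℕ)
    {η : ℝ} (hη : 0 < η) : ∃ X0 : ℕ, ∀ X : ℕ, X0 ≤ X → ∀ (k : ℕ) (γ : ℤ) (R : ℤ → ℤ → Prop),
      Tame m R →
      |∑ b ∈ Bx X, ∑ c ∈ Bx X, Gp X k l M γ R p b c * Gp X k l M γ R q b c| ≤ η * X ^ 2 := by
  obtain ⟨D, hD⟩ : ∃ D : ℕ, D = 16 * (p - q) := ⟨_, rfl⟩
  have hD0 : 0 < D := by omega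
  have hDz : (D : ℤ) = 16 * ((p : ℤ) - q) := by rw [hD]; push_cast; rw [Nat.cast_sub hqp.le]
  obtain ⟨Q, hQ⟩ : ∃ Q : ℕ, Q = M * (p * q) := ⟨_, rfl⟩
  have hQ0 : 0 < Q := by rw [hQ]; positivity
  obtain ⟨Cst, hC⟩ : ∃ Cst : ℝ, Cst = 34 * ((2 * m + 6 + 1) * (Q * (17 + D))) := ⟨_, rfl⟩
  have hC0 : 0 < Cst := by rw [hC]; positivity
  obtain ⟨X0, hX0⟩ := unif (q := D * Q) (Nat.mul_pos hD0 hQ0) hl (ε := η / Cst) (by positivity)
  refine ⟨X0, fun X hX k γ R hR => ?_⟩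
  obtain ⟨E, hE⟩ : ∃ E : ℝ, E = Q * (η / Cst * ((17 + D) * X)) := ⟨_, rfl⟩
  have hE0 : 0 ≤ E := by rw [hE]; positivity
  obtain ⟨H, hH⟩ : ∃ H : ℤ → ℤ → ℝ, H = fun b c => Gp X k l M γ R p b c * Gp X k l M γ R q b c :=
    ⟨_, rfl⟩
  -- change of variables
  have e1 : ∑ b ∈ Bx X, ∑ c ∈ Bx X, H b c =
      ∑ n ∈ Bx (17 * X), ∑ c ∈ Bx X, ind (n - 16 * (q * c) ∈ Bx X) * H (n - 16 * (q * c)) c := by
    rw [sum_comm, sum_comm (s := Bx (17 * X))]
    refine sum_congr rfl fun c _ => ?_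
    by_cases hc : (q : ℤ) * c ∈ Bx X
    · have := mem_Bx.1 hc
      rw [shift X (fun b => H b c) (v := 16 * (q * c)) (by omega) (by omega)]
    · have h0 : ∀ b, H b c = 0 := by
        intro b
        rw [hH]
        show Gp X k l M γ R p b c * Gp X k l M γ R q b c = 0
        rw [Gp_zero (p := q) (fun h => hc h.1), mul_zero]
      simp only [h0, mul_zero, sum_const_zero]
  have e2 : ∀ n ∈ Bx (17 * X), |∑ c ∈ Bx X,
      ind (n - 16 * (q * c) ∈ Bx X) * H (n - 16 * (q * c)) c| ≤ (2 * m + 6 + 1) * E := by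
    intro n hn
    have hn' := mem_Bx.1 hn
    obtain ⟨φ, hφ⟩ : ∃ φ : ℤ → ℝ, φ = fun c : ℤ =>
      (((ind (n + -(16 * q) * c ∈ Bx X) * ind (0 + (p : ℤ) * c ∈ Bx X)) *
        ind (0 + (q : ℤ) * c ∈ Bx X)) * ind (R (n + -(16 * q) * c) (0 + (p : ℤ) * c))) *
        ind (R (n + -(16 * q) * c) (0 + (q : ℤ) * c)) := ⟨_, rfl⟩
    obtain ⟨θ, hθ⟩ : ∃ θ : ℤ → ℝ, θ = fun c : ℤ =>
      (gl l n : ℝ) * ((jacobiSym p k : ℝ) * (jacobiSym q k : ℝ)) *
      ((ind (¬ (0 + (p : ℤ) * c) % ((p ^ 2 : ℕ) : ℤ) = 0) *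
        ind (¬ (0 + (q : ℤ) * c) % ((q ^ 2 : ℕ) : ℤ) = 0)) *
      ((jacobiSym ((n + -(16 * q) * c) % p) p : ℝ) * (jacobiSym ((n + -(16 * q) * c) % q) q : ℝ)) *
      (ind ((0 + (p : ℤ) * c) % M = γ) * ind ((0 + (q : ℤ) * c) % M = γ))) := ⟨_, rfl⟩
    obtain ⟨g, hg⟩ : ∃ g : ℤ → ℝ, g = fun x => (gl l x : ℝ) := ⟨_, rfl⟩
    have hform : ∀ c : ℤ, ind (n - 16 * (q * c) ∈ Bx X) * H (n - 16 * (q * c)) c =
        φ c * (θ c * g (n + D * c)) := by
      intro c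
      rw [hH, hφ, hθ, hg]
      show ind (n - 16 * (q * c) ∈ Bx X) * (Gp X k l M γ R p (n - 16 * (q * c)) c *
        Gp X k l M γ R q (n - 16 * (q * c)) c) = _
      unfold Gp
      have x1 : n + -(16 * (q : ℤ)) * c = n - 16 * (q * c) := by ring
      have x2 : n - 16 * (q * c) + 16 * (q * c) = n := by ring
      have x3 : n - 16 * (q * c) + 16 * (p * c) = n + D * c := by rw [hDz]; ring
      have x4 : ind (¬ (0 + (p : ℤ) * c) % ((p ^ 2 : ℕ) : ℤ) = 0) = ind (¬ (p : ℤ) ∣ c) := by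
        apply ind_congr
        rw [zero_add, ← Int.dvd_iff_emod_eq_zero]
        push_cast
        rw [sq, mul_dvd_mul_iff_left (by exact_mod_cast hp.ne')]
      have x5 : ind (¬ (0 + (q : ℤ) * c) % ((q ^ 2 : ℕ) : ℤ) = 0) = ind (¬ (q : ℤ) ∣ c) := by
        apply ind_congr
        rw [zero_add, ← Int.dvd_iff_emod_eq_zero]
        push_cast
        rw [sq, mul_dvd_mul_iff_left (by exact_mod_cast hq.ne')]
      simp only [x4, x5]
      simp only [x1, x2, x3, zero_add]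
      rw [← jacobiSym.mod_left, ← jacobiSym.mod_left]
      ring
    have hφ1 : ∀ t, |φ t| ≤ 1 := by
      intro t
      rw [hφ]
      exact abs_mul_le (abs_mul_le (abs_mul_le (abs_mul_le (ind_abs _) (ind_abs _)) (ind_abs _))
        (ind_abs _)) (ind_abs _)
    have hφV : Vr φ X ≤ 2 * m + 6 := by
      have v1 := tame_x X n (-(16 * q)) 0 p X
      have v2 := tame_y X n (-(16 * q)) 0 p X
      have v3 := tame_y X n (-(16 * q)) 0 q X
      have v4 := hR n (-(16 * q)) 0 p X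
      have v5 := hR n (-(16 * q)) 0 q X
      have v6 := Vr_mul5 (fun t => ind_abs _) (fun t => ind_abs _) (fun t => ind_abs _)
        (fun t => ind_abs _) (fun t => ind_abs _) v1 v2 v3 v4 v5
      rw [hφ]
      refine v6.trans (le_of_eq ?_)
      push_cast
      ring
    have hθ1 : ∀ t, |θ t| ≤ 1 := by
      intro t
      rw [hθ]
      exact abs_mul_le (abs_mul_le (gl_abs _ _) (abs_mul_le (J_abs_le _ _) (J_abs_le _ _)))
        (abs_mul_le (abs_mul_le (abs_mul_le (ind_abs _) (ind_abs _))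
          (abs_mul_le (J_abs_le _ _) (J_abs_le _ _))) (abs_mul_le (ind_abs _) (ind_abs _)))
    have hθp : ∀ t, θ t = θ (t % Q) := by
      intro t
      have hQz : (Q : ℤ) = M * (p * q) := by rw [hQ]; push_cast; ring
      rw [hθ]
      show _ = (gl l n : ℝ) * ((jacobiSym p k : ℝ) * (jacobiSym q k : ℝ)) *
        ((ind (¬ (0 + (p : ℤ) * (t % Q)) % ((p ^ 2 : ℕ) : ℤ) = 0) *
          ind (¬ (0 + (q : ℤ) * (t % Q)) % ((q ^ 2 : ℕ) : ℤ) = 0)) *
        ((jacobiSym ((n + -(16 * q) * (t % Q)) % p) p : ℝ) *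
          (jacobiSym ((n + -(16 * q) * (t % Q)) % q) q : ℝ)) *
        (ind ((0 + (p : ℤ) * (t % Q)) % M = γ) * ind ((0 + (q : ℤ) * (t % Q)) % M = γ)))
      rw [← emod_periodic (a := 0) (b := p) (n := p ^ 2) (Q := Q) t
          (by rw [hQz]; push_cast; exact ⟨M * q, by ring⟩),
        ← emod_periodic (a := 0) (b := q) (n := q ^ 2) (Q := Q) t
          (by rw [hQz]; push_cast; exact ⟨M * p, by ring⟩),
        ← emod_periodic (a := n) (b := -(16 * q)) (n := p) (Q := Q) t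
          (by rw [hQz]; exact ⟨-(16 * q) * M * q, by ring⟩),
        ← emod_periodic (a := n) (b := -(16 * q)) (n := q) (Q := Q) t
          (by rw [hQz]; exact ⟨-(16 * q) * M * p, by ring⟩),
        ← emod_periodic (a := 0) (b := p) (n := M) (Q := Q) t
          (by rw [hQz]; exact ⟨p * p * q, by ring⟩),
        ← emod_periodic (a := 0) (b := q) (n := M) (Q := Q) t
          (by rw [hQz]; exact ⟨q * p * q, by ring⟩)]
    have hψ : ∀ A B : ℤ, -(X : ℤ) ≤ A → A ≤ B → B ≤ X →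
        |∑ t ∈ Ioc A B, θ t * g (n + D * t)| ≤ E := by
      intro A B hA hAB hB
      rw [periodic_sum hQ0 θ (fun t => g (n + D * t)) hθp]
      refine (abs_sum_le_sum_abs _ _).trans ?_
      have hx : ∀ h ∈ range Q, |θ h * ∑ t ∈ Ioc A B, if t % Q = h then g (n + D * t) else 0| ≤
          η / Cst * ((17 + D) * X) := by
        intro h hh
        rw [mem_range] at hh
        rw [ap_sum hD0 hQ0 g n A B h (by omega) (by exact_mod_cast hh), abs_mul]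
        have h1 := hX0 ((17 + D) * X) (by nlinarith) ((n + D * h) % ((D * Q : ℕ) : ℤ))
          (n + D * A) (n + D * B) ?_ ?_ ?_
        · rw [hg]
          calc _ ≤ 1 * (η / Cst * (((17 + D) * X : ℕ) : ℝ)) :=
                mul_le_mul (hθ1 _) h1 (abs_nonneg _) zero_le_one
            _ = _ := by push_cast; ring
        · push_cast
          push_cast at hn'
          have : (D : ℤ) * (-(X : ℤ)) ≤ D * A := mul_le_mul_of_nonneg_left hA (by omega)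
          nlinarith
        · have : (D : ℤ) * A ≤ D * B := mul_le_mul_of_nonneg_left hAB (by omega)
          linarith
        · push_cast
          push_cast at hn'
          have : (D : ℤ) * B ≤ D * X := mul_le_mul_of_nonneg_left hB (by omega)
          nlinarith
      refine (sum_le_sum hx).trans (le_of_eq ?_)
      rw [sum_const, card_range, nsmul_eq_mul, hE]
    rw [sum_congr rfl fun c _ => hform c]
    have := abel hφ1 hφV hψ
    unfold Bx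
    exact this
  have e3 : ∑ b ∈ Bx X, ∑ c ∈ Bx X, Gp X k l M γ R p b c * Gp X k l M γ R q b c =
      ∑ b ∈ Bx X, ∑ c ∈ Bx X, H b c := by rw [hH]
  rw [e3, e1]
  refine (abs_sum_le_sum_abs _ _).trans ((sum_le_sum e2).trans ?_)
  rw [sum_const, nsmul_eq_mul, card_Bx, hE]
  push_cast
  have : 2 * (17 * (X : ℝ)) * ((2 * m + 6 + 1) * (Q * (η / Cst * ((17 + D) * X)))) =
      Cst * (η / Cst) * X ^ 2 := by rw [hC]; ring
  rw [this, mul_div_cancel₀ _ hC0.ne']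

end Pool.Agent.K1H81.RN
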