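import Pool.Agent.K1H81.RN.Box

/-!
# The families ordered by a size, and the limit theorem (helper81)
-/

set_option autoImplicit false

namespace Pool.Agent.K1H81.RN

open Finset Filter Topology

/-- The isomorphism classes over `ℚ` of the semistable elliptic curves with full rational 2-torsion, of
size at most `Z` for the size function `H`, whose minimal invariants `c₄`, `c₆` are `r`, `s` modulo `m`,
and whose root number satisfies `P`. A class is given by its pair `(c₄, c₆)`. -/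
def Fam (H : WeierstrassCurve ℤ → ℕ) (m : ℕ) (r s : ℤ) (P : ℤ → Prop) (Z : ℕ) : Set (ℤ × ℤ) :=
  {z | ∃ W : WeierstrassCurve ℤ, Semistable W ∧ Full W ∧ H W ≤ Z ∧ W.c₄ ≡ r [ZMOD m] ∧
    W.c₆ ≡ s [ZMOD m] ∧ P (wSemi W) ∧ z = (W.c₄, W.c₆)}

theorem fam_image {H : WeierstrassCurve ℤ → ℕ} {R : ℤ → ℤ → Prop} {Z : ℕ}
    (hR : ∀ (W : WeierstrassCurve ℤ) (b c : ℤ), Semistable W → Adm b c → 0 < c →
      W.c₄ = C4 b c → W.c₆ = C6 b c → W.Δ = Di b c → (H W ≤ Z ↔ R b c))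
    {F : Finset (ℤ × ℤ)} (hF : ∀ b c, (b, c) ∈ F ↔ (Adm b c ∧ 0 < c ∧ R b c))
    (m : ℕ) (r s : ℤ) (P : ℤ → Prop) [DecidablePred P] :
    (Fam H m r s P Z).Finite ∧
      ((Fam H m r s P Z).ncard : ℝ) = ∑ z ∈ F, ind (Cg m r s z.1 z.2 ∧ P (w z.1 z.2)) := by
  classical
  have e : Fam H m r s P Z = (((F.filter (fun z => Cg m r s z.1 z.2 ∧ P (w z.1 z.2))).image
      (fun z => (C4 z.1 z.2, C6 z.1 z.2)) : Finset (ℤ × ℤ)) : Set (ℤ × ℤ)) := by
    ext ⟨x, y⟩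
    rw [mem_coe, mem_image]
    constructor
    · rintro ⟨W, hs, hf, hH, h4, h6, hP, hz⟩
      obtain ⟨b, c, hadm, hc, e4, e6, eD, hw⟩ := cls hs hf
      refine ⟨(b, c), mem_filter.2 ⟨(hF b c).2 ⟨hadm, hc, (hR W b c hs hadm hc e4 e6 eD).1 hH⟩,
        ⟨by rw [← e4]; exact h4, by rw [← e6]; exact h6⟩, by rw [← hw]; exact hP⟩, ?_⟩
      rw [hz, e4, e6]
    · rintro ⟨⟨b, c⟩, hz, he⟩
      rw [mem_filter, hF] at hz
      obtain ⟨⟨hadm, hc, hRz⟩, hcg, hP⟩ := hz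
      simp only at hadm hc hRz hcg hP he
      have hs := Vc_semi hadm
      refine ⟨Vc b c, hs, Vc_full hadm.1, (hR _ b c hs hadm hc (Vc_c4 hadm.1) (Vc_c6 hadm.1)
        (Vc_disc hadm.1)).2 hRz, ?_, ?_, ?_, ?_⟩
      · rw [Vc_c4 hadm.1]; exact hcg.1
      · rw [Vc_c6 hadm.1]; exact hcg.2
      · rw [Vc_w hadm hc]; exact hP
      · rw [Vc_c4 hadm.1, Vc_c6 hadm.1]; exact he.symm
  constructor
  · rw [e]; exact Finset.finite_toSet _
  · rw [e, Set.ncard_coe_finset, card_image_of_injOn]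
    · rw [card_filter]
      push_cast
      refine sum_congr rfl fun z _ => ?_
      by_cases h : Cg m r s z.1 z.2 ∧ P (w z.1 z.2)
      · rw [if_pos h, ind_pos h]
      · rw [if_neg h, ind_neg h]
    · rintro ⟨b, c⟩ hz ⟨b', c'⟩ hz' he
      rw [mem_coe, mem_filter, hF] at hz hz'
      simp only [Prod.mk.injEq] at he
      obtain ⟨h1, h2⟩ := inj hz.1.1 hz'.1.1 hz.1.2.1 hz'.1.2.1 he.1 he.2
      rw [h1, h2]

/-- **The limit theorem.** -/
theorem limit {H : WeierstrassCurve ℤ → ℕ} {R : ℕ → ℤ → ℤ → Prop}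
    (hR : ∀ (Z : ℕ) (W : WeierstrassCurve ℤ) (b c : ℤ), Semistable W → Adm b c → 0 < c →
      W.c₄ = C4 b c → W.c₆ = C6 b c → W.Δ = Di b c → (H W ≤ Z ↔ R Z b c))
    {F : ℕ → Finset (ℤ × ℤ)} (hF : ∀ Z b c, (b, c) ∈ F Z ↔ (Adm b c ∧ 0 < c ∧ R Z b c))
    {m : ℕ} {r s : ℤ} {g : ℕ → ℝ} (hg : Tendsto g atTop atTop)
    (hcan : ∀ ε : ℝ, 0 < ε → ∀ᶠ Z in atTop,
      |∑ z ∈ F Z, ind (Cg m r s z.1 z.2) * (w z.1 z.2 : ℝ)| ≤ ε * g Z)
    {δ : ℝ} (hδ : 0 < δ) (hlow : ∀ᶠ Z in atTop, δ * g Z ≤ ∑ z ∈ F Z, ind (Cg m r s z.1 z.2)) :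
    (∀ Z, (Fam H m r s (fun _ => True) Z).Finite) ∧
    Tendsto (fun Z => (Fam H m r s (fun _ => True) Z).ncard) atTop atTop ∧
    ∀ e : ℤ, e = 1 ∨ e = -1 →
      Tendsto (fun Z => ((Fam H m r s (fun w => w = e) Z).ncard : ℝ) /
        ((Fam H m r s (fun _ => True) Z).ncard : ℝ)) atTop (𝓝 (1 / 2)) := by
  classical
  have hn : ∀ Z, ((Fam H m r s (fun _ => True) Z).ncard : ℝ) = ∑ z ∈ F Z, ind (Cg m r s z.1 z.2) := by
    intro Z
    rw [(fam_image (hR Z) (hF Z) m r s (fun _ => True)).2]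
    exact sum_congr rfl fun z _ => ind_congr (by simp)
  have hne : ∀ (e : ℤ), e = 1 ∨ e = -1 → ∀ Z, ((Fam H m r s (fun w => w = e) Z).ncard : ℝ) =
      (∑ z ∈ F Z, ind (Cg m r s z.1 z.2)) / 2 +
        e * (∑ z ∈ F Z, ind (Cg m r s z.1 z.2) * (w z.1 z.2 : ℝ)) / 2 := by
    intro e he Z
    rw [(fam_image (hR Z) (hF Z) m r s (fun w => w = e)).2, mul_sum, ← add_div, ← sum_add_distrib,
      sum_div]
    refine sum_congr rfl fun z hz => ?_
    obtain ⟨b, c⟩ := z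
    have hadm := ((hF Z b c).1 hz).1
    rw [ind_and]
    simp only
    rcases w_pm hadm with h | h <;> rcases he with h' | h' <;> rw [h, h']
    · rw [ind_pos rfl]; push_cast; ring
    · rw [ind_neg (P := (1 : ℤ) = -1) (by norm_num)]; push_cast; ring
    · rw [ind_neg (P := (-1 : ℤ) = 1) (by norm_num)]; push_cast; ring
    · rw [ind_pos rfl]; push_cast; ring
  refine ⟨fun Z => (fam_image (hR Z) (hF Z) m r s (fun _ => True)).1, ?_, ?_⟩
  · rw [← tendsto_natCast_atTop_iff (R := ℝ)]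
    have h1 : Tendsto (fun Z => δ * g Z) atTop atTop := hg.const_mul_atTop hδ
    refine tendsto_atTop_mono' _ ?_ h1
    filter_upwards [hlow] with Z hZ
    rw [hn]
    exact hZ
  · intro e he
    have habs : |(e : ℝ)| = 1 := by
      rcases he with h | h <;> rw [h] <;> simp
    rw [Metric.tendsto_nhds]
    intro ε hε
    filter_upwards [hlow, hcan (ε * δ) (by positivity), hg.eventually_gt_atTop 0] with Z h1 h2 h3
    rw [hn, hne e he Z]
    obtain ⟨n, hn'⟩ : ∃ n, n = ∑ z ∈ F Z, ind (Cg m r s z.1 z.2) := ⟨_, rfl⟩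
    obtain ⟨S, hS⟩ : ∃ S, S = ∑ z ∈ F Z, ind (Cg m r s z.1 z.2) * (w z.1 z.2 : ℝ) := ⟨_, rfl⟩
    rw [← hn'] at h1 ⊢
    rw [← hS] at h2 ⊢
    have hn0 : 0 < n := lt_of_lt_of_le (by positivity) h1
    have e1 : (n / 2 + e * S / 2) / n - 1 / 2 = e * S / (2 * n) := by
      field_simp
      ring
    rw [Real.dist_eq, e1, abs_div, abs_mul, habs, one_mul, abs_of_pos (by positivity : 0 < 2 * n),
      div_lt_iff₀ (by positivity)]
    calc |S| ≤ ε * δ * g Z := h2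
      _ = ε * (δ * g Z) := by ring
      _ ≤ ε * n := mul_le_mul_of_nonneg_left h1 hε.le
      _ < ε * (2 * n) := by nlinarith

/-- the integer part of the `k`-th root -/
def rt (k Z : ℕ) : ℕ := Nat.findGreatest (fun X => X ^ k ≤ Z) Z

lemma rt_le {k : ℕ} (hk : 0 < k) (Z : ℕ) : rt k Z ^ k ≤ Z := by
  have h0 : 0 ^ k ≤ Z := by
    rw [zero_pow hk.ne']
    exact Nat.zero_le _
  exact Nat.findGreatest_spec (P := fun X => X ^ k ≤ Z) (m := 0) (Nat.zero_le _) h0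

lemma lt_rt {k : ℕ} (hk : 0 < k) (Z : ℕ) : Z < (rt k Z + 1) ^ k := by
  by_contra h
  push Not at h
  have h1 : rt k Z + 1 ≤ Z := (Nat.le_self_pow hk.ne' _).trans h
  have h2 : rt k Z + 1 ≤ rt k Z := Nat.le_findGreatest (P := fun X => X ^ k ≤ Z) h1 h
  omega

lemma rt_tendsto {k : ℕ} (hk : 0 < k) : Tendsto (rt k) atTop atTop := by
  rw [tendsto_atTop]
  intro b
  filter_upwards [eventually_ge_atTop (b ^ k)] with Z hZ
  exact Nat.le_findGreatest (P := fun X => X ^ k ≤ Z) ((Nat.le_self_pow hk.ne' _).trans hZ) hZ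

lemma g_tendsto {k : ℕ} (hk : 0 < k) : Tendsto (fun Z => ((rt k Z : ℝ) + 1) ^ 2) atTop atTop := by
  have h1 : Tendsto (fun Z => (rt k Z : ℝ)) atTop atTop :=
    tendsto_natCast_atTop_atTop.comp (rt_tendsto hk)
  refine tendsto_atTop_mono (fun Z => ?_) h1
  have : (0 : ℝ) ≤ rt k Z := Nat.cast_nonneg _
  nlinarith

/-- the lower bound from a positive box -/
lemma low_fam {m : ℕ} (hm : 0 < m) {r s b0 c0 : ℤ} (h0 : Adm b0 c0) (hcg : Cg m r s b0 c0)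
    {F : ℕ → Finset (ℤ × ℤ)} {k K : ℕ} (hk : 0 < k) (hK : 0 < K)
    (hF : ∀ (Z Y : ℕ) (b c : ℤ), K * Y ≤ rt k Z → Adm b c → 0 < b → b ≤ Y → 0 < c → c ≤ Y →
      (b, c) ∈ F Z) :
    ∃ δ : ℝ, 0 < δ ∧ ∀ᶠ Z in atTop, δ * ((rt k Z : ℝ) + 1) ^ 2 ≤
      ∑ z ∈ F Z, ind (Cg m r s z.1 z.2) := by
  obtain ⟨δ, hδ, Y0, hY0⟩ := low hm h0 hcg
  have hKr : (0 : ℝ) < K := by exact_mod_cast hK
  refine ⟨δ / (2 * K) ^ 2, by positivity, ?_⟩
  filter_upwards [(rt_tendsto hk).eventually_ge_atTop (K * Y0 + 2 * K + 1)] with Z hZ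
  obtain ⟨X, hX⟩ : ∃ X, X = rt k Z := ⟨_, rfl⟩
  rw [← hX] at hZ ⊢
  have h1 : Y0 ≤ X / K := (Nat.le_div_iff_mul_le hK).2 (by nlinarith)
  have h2 := hY0 (X / K) h1 (F Z) (fun b c hadm hb hb' hc hc' =>
    hF Z (X / K) b c (by rw [← hX]; exact Nat.mul_div_le X K) hadm hb hb' hc hc')
  refine le_trans ?_ h2
  have h3 : X < K * (X / K) + K := by
    have := Nat.lt_mul_div_succ X hK
    nlinarith
  have h4 : (X : ℝ) + 1 ≤ 2 * K * ((X / K : ℕ) : ℝ) := by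
    have h5 : X + 1 ≤ 2 * K * (X / K) := by
      have h6 : X / K * K + K * 2 ≤ X + K * 2 := by
        have := Nat.div_mul_le_self X K
        omega
      nlinarith
    exact_mod_cast h5
  have h5 : 0 ≤ (X : ℝ) + 1 := by positivity
  calc δ / (2 * K) ^ 2 * ((X : ℝ) + 1) ^ 2 ≤ δ / (2 * K) ^ 2 * (2 * K * ((X / K : ℕ) : ℝ)) ^ 2 := by
        gcongr
    _ = δ * ((X / K : ℕ) : ℝ) ^ 2 := by
        field_simp

end Pool.Agent.K1H81.RN
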