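import Mathlib

/-!
# Root numbers of the semistable curves with full rational 2-torsion: symbols (helper81)
-/

set_option autoImplicit false

namespace Pool.Agent.K1H81.RN

open Finset

/-- the radical -/
def rd (n : ℤ) : ℕ := ∏ p ∈ n.natAbs.primeFactors, p

/-- the quotient by the radical -/
def q2 (n : ℤ) : ℕ := n.natAbs / rd n

/-- the parity of the number of prime factors -/
def om (n : ℤ) : ℤ := (-1) ^ n.natAbs.primeFactors.card

/-- the symbol at a prime -/
def kap (x : ℤ) (p : ℕ) : ℤ := if p = 2 then (if x % 8 = 1 then 1 else -1) else jacobiSym x p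

/-- product of the local signs over the primes dividing `n` -/
def U (n x : ℤ) : ℤ := ∏ p ∈ n.natAbs.primeFactors, (-kap x p)

/-- the root number -/
def w (b c : ℤ) : ℤ := -(U (b + 16 * c) (-b) * U b (-(b + 16 * c)) * U c b)

lemma rd_pos (n : ℤ) : 0 < rd n := prod_pos fun p hp => (Nat.prime_of_mem_primeFactors hp).pos

lemma rd_dvd {n : ℤ} (_hn : n ≠ 0) : rd n ∣ n.natAbs := Nat.prod_primeFactors_dvd _

lemma rd_mul_q2 {n : ℤ} (hn : n ≠ 0) : rd n * q2 n = n.natAbs :=
  Nat.mul_div_cancel' (rd_dvd hn)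

lemma q2_pos {n : ℤ} (hn : n ≠ 0) : 0 < q2 n := by
  rcases Nat.eq_zero_or_pos (q2 n) with h | h
  · have := rd_mul_q2 hn
    rw [h, mul_zero] at this
    exact absurd (Int.natAbs_eq_zero.1 this.symm) hn
  · exact h

lemma J_prod (x : ℤ) (s : Finset ℕ) (hs : ∀ p ∈ s, p ≠ 0) :
    jacobiSym x (∏ p ∈ s, p) = ∏ p ∈ s, jacobiSym x p := by
  classical
  induction s using Finset.induction_on with
  | empty => simp
  | insert a s ha ih =>
    rw [prod_insert ha, prod_insert ha, jacobiSym.mul_right' x (hs a (mem_insert_self a s))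
      (prod_ne_zero_iff.2 fun p hp => hs p (mem_insert_of_mem hp)),
      ih fun p hp => hs p (mem_insert_of_mem hp)]

lemma odd_natAbs {n : ℤ} (hn : n % 2 = 1) : Odd n.natAbs := by
  rw [Nat.odd_iff]
  omega

lemma U_odd {n : ℤ} (hn : n % 2 = 1) (x : ℤ) : U n x = om n * jacobiSym x (rd n) := by
  unfold U om rd
  rw [J_prod _ _ fun p hp => (Nat.prime_of_mem_primeFactors hp).ne_zero, ← prod_const,
    ← prod_mul_distrib]
  refine prod_congr rfl fun p hp => ?_
  have h2 : p ≠ 2 := by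
    rintro rfl
    have := Nat.dvd_of_mem_primeFactors hp
    omega
  unfold kap
  rw [if_neg h2]
  ring

lemma J_abs {n : ℤ} (hn : n ≠ 0) (x : ℤ) :
    jacobiSym x n.natAbs = jacobiSym x (rd n) * jacobiSym x (q2 n) := by
  rw [← jacobiSym.mul_right' x (rd_pos n).ne' (q2_pos hn).ne', rd_mul_q2 hn]

lemma pf_mul {p : ℕ} (hp : p.Prime) {c : ℤ} (hc : c ≠ 0) :
    ((p : ℤ) * c).natAbs.primeFactors = insert p c.natAbs.primeFactors := by
  rw [Int.natAbs_mul, Int.natAbs_natCast, Nat.primeFactors_mul hp.ne_zero (Int.natAbs_ne_zero.2 hc),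
    hp.primeFactors]
  rfl

lemma U_mul {p : ℕ} (hp : p.Prime) {c : ℤ} (hc : c ≠ 0) (hpc : ¬ (p : ℤ) ∣ c) (x : ℤ) :
    U ((p : ℤ) * c) x = -kap x p * U c x := by
  unfold U
  rw [pf_mul hp hc, prod_insert]
  intro h
  exact hpc (Int.natCast_dvd.2 (Nat.dvd_of_mem_primeFactors h))

lemma q2_mul {p : ℕ} (hp : p.Prime) {c : ℤ} (hc : c ≠ 0) (hpc : ¬ (p : ℤ) ∣ c) :
    q2 ((p : ℤ) * c) = q2 c := by
  have h1 : rd ((p : ℤ) * c) = p * rd c := by
    unfold rd
    rw [pf_mul hp hc, prod_insert]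
    intro h
    exact hpc (Int.natCast_dvd.2 (Nat.dvd_of_mem_primeFactors h))
  unfold q2
  rw [h1, Int.natAbs_mul, Int.natAbs_natCast, Nat.mul_div_mul_left _ _ hp.pos]

/-- the sign of the reciprocity law -/
def eps (a b : ℤ) : ℤ := if a < 0 ∧ 0 < b then -1 else 1

lemma recip {a b : ℤ} (ha : a % 4 = 1) (hb : b % 4 = 1) :
    jacobiSym (-b) a.natAbs = eps a b * jacobiSym a b.natAbs := by
  obtain ⟨A, hA⟩ : ∃ A, A = a.natAbs := ⟨_, rfl⟩
  obtain ⟨B, hB⟩ : ∃ B, B = b.natAbs := ⟨_, rfl⟩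
  rw [← hA, ← hB]
  have hAo : Odd A := by rw [hA]; exact odd_natAbs (by omega)
  have hBo : Odd B := by rw [hB]; exact odd_natAbs (by omega)
  have x1 : A % 4 = 1 → ZMod.χ₄ A = 1 := fun h => ZMod.χ₄_nat_one_mod_four h
  have x3 : A % 4 = 3 → ZMod.χ₄ A = -1 := fun h => ZMod.χ₄_nat_three_mod_four h
  have y1 : B % 4 = 1 → ZMod.χ₄ B = 1 := fun h => ZMod.χ₄_nat_one_mod_four h
  have y3 : B % 4 = 3 → ZMod.χ₄ B = -1 := fun h => ZMod.χ₄_nat_three_mod_four h
  unfold eps
  rcases lt_or_ge a 0 with ha0 | ha0 <;> rcases le_or_gt b 0 with hb0 | hb0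
  · -- both negative
    have e1 : a = -(A : ℤ) := by omega
    have e2 : b = -(B : ℤ) := by omega
    have hA4 : A % 4 = 3 := by omega
    have hB4 : B % 4 = 3 := by omega
    rw [if_neg (by omega), e1, e2, neg_neg, jacobiSym.neg _ hBo, y3 hB4,
      jacobiSym.quadratic_reciprocity_three_mod_four hA4 hB4]
    ring
  · have e1 : a = -(A : ℤ) := by omega
    have e2 : b = (B : ℤ) := by omega
    have hA4 : A % 4 = 3 := by omega
    have hB4 : B % 4 = 1 := by omega
    rw [if_pos ⟨ha0, hb0⟩, e1, e2, jacobiSym.neg _ hAo, jacobiSym.neg _ hBo, x3 hA4, y1 hB4,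
      jacobiSym.quadratic_reciprocity_one_mod_four hB4 hAo]
    ring
  · have e1 : a = (A : ℤ) := by omega
    have e2 : b = -(B : ℤ) := by omega
    have hA4 : A % 4 = 1 := by omega
    have hB4 : B % 4 = 3 := by omega
    rw [if_neg (by omega), e1, e2, neg_neg,
      jacobiSym.quadratic_reciprocity_one_mod_four hA4 hBo]
    ring
  · have e1 : a = (A : ℤ) := by omega
    have e2 : b = (B : ℤ) := by omega
    have hA4 : A % 4 = 1 := by omega
    have hB4 : B % 4 = 1 := by omega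
    rw [if_neg (by omega), e1, e2, jacobiSym.neg _ hAo, x1 hA4,
      jacobiSym.quadratic_reciprocity_one_mod_four hA4 hBo]

lemma recip_p {b : ℤ} (hb : b % 4 = 1) {p : ℕ} (hp : Odd p) :
    jacobiSym b p = jacobiSym p b.natAbs := by
  obtain ⟨B, hB⟩ : ∃ B, B = b.natAbs := ⟨_, rfl⟩
  rw [← hB]
  have hBo : Odd B := by rw [hB]; exact odd_natAbs (by omega)
  rcases le_or_gt b 0 with hb0 | hb0
  · have e2 : b = -(B : ℤ) := by omega
    have hB4 : B % 4 = 3 := by omega
    rw [e2, jacobiSym.neg _ hp]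
    rcases Nat.odd_mod_four_iff.1 (Nat.odd_iff.1 hp) with h | h
    · rw [ZMod.χ₄_nat_one_mod_four h, jacobiSym.quadratic_reciprocity_one_mod_four h hBo]
      ring
    · rw [ZMod.χ₄_nat_three_mod_four h, jacobiSym.quadratic_reciprocity_three_mod_four h hB4]
      ring
  · have e2 : b = (B : ℤ) := by omega
    have hB4 : B % 4 = 1 := by omega
    rw [e2, jacobiSym.quadratic_reciprocity_one_mod_four hB4 hp]

lemma J_sq {x : ℤ} {n : ℕ} (h : x.gcd n = 1) : jacobiSym x n * jacobiSym x n = 1 := by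
  have := jacobiSym.sq_one h
  rwa [sq] at this

lemma gcd_of {x : ℤ} {n : ℕ} {m : ℤ} (h : IsCoprime x m) (hn : (n : ℤ) ∣ m) : x.gcd n = 1 := by
  rw [← Int.isCoprime_iff_gcd_eq_one]
  exact h.of_isCoprime_of_dvd_right hn

lemma rd_dvd_int {n : ℤ} (hn : n ≠ 0) : (rd n : ℤ) ∣ n :=
  Int.natCast_dvd.2 (rd_dvd hn)

lemma q2_dvd_int {n : ℤ} (hn : n ≠ 0) : (q2 n : ℤ) ∣ n :=
  Int.natCast_dvd.2 ⟨rd n, by rw [mul_comm]; exact (rd_mul_q2 hn).symm⟩

/-- the part that does not depend on `p` -/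
def Psi (l : ℕ) (s : ℤ) (b c : ℤ) : ℤ :=
  eps s b * jacobiSym c b.natAbs * jacobiSym (-b) l * (om b * jacobiSym (-c) (rd b)) * U c b

/-- **the root number at `(b, p c)`** -/
theorem w_mul {p : ℕ} (hp : p.Prime) (hp2 : p ≠ 2) {b c : ℤ} (hb : b % 4 = 1) (hc : c ≠ 0)
    (hpc : ¬ (p : ℤ) ∣ c) (hcop : IsCoprime b ((p : ℤ) * c)) (ha : b + 16 * (p * c) ≠ 0) {s : ℤ}
    (hs : s < 0 ↔ b + 16 * (p * c) < 0) :
    w b ((p : ℤ) * c) = Psi (q2 (b + 16 * (p * c))) s b c *
      (om (b + 16 * (p * c)) * (jacobiSym b p * jacobiSym p (q2 b))) := by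
  obtain ⟨a, hadef⟩ : ∃ a : ℤ, a = b + 16 * (p * c) := ⟨_, rfl⟩
  have hb0 : b ≠ 0 := by omega
  have ha4 : a % 4 = 1 := by omega
  have hpo : Odd p := hp.odd_of_ne_two hp2
  have hab : IsCoprime b a := by
    have h16 : IsCoprime b 16 := by
      have : IsCoprime b 2 := by
        rw [Int.isCoprime_iff_gcd_eq_one]
        have h1 : Int.gcd b 2 ∣ 2 := by exact_mod_cast Int.gcd_dvd_right b 2
        rcases (Nat.dvd_prime Nat.prime_two).1 h1 with h | h
        · exact h
        · exfalso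
          have h2 : ((2 : ℕ) : ℤ) ∣ b := by rw [← h]; exact Int.gcd_dvd_left b 2
          omega
      have := this.pow_right (n := 4)
      norm_num at this
      exact this
    have h1 : IsCoprime b (16 * (p * c)) := h16.mul_right hcop
    rw [hadef]
    have := (IsCoprime.add_mul_left_right h1 1)
    rw [mul_one] at this
    rw [add_comm]
    exact this
  have hbp : IsCoprime b (p : ℤ) := hcop.of_isCoprime_of_dvd_right ⟨c, rfl⟩
  have hbc : IsCoprime b c := hcop.of_isCoprime_of_dvd_right ⟨p, mul_comm _ _⟩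
  rw [← hadef] at ha hs ⊢
  unfold w
  rw [← hadef, U_odd (by omega : a % 2 = 1), U_odd (by omega : b % 2 = 1), U_mul hp hc hpc]
  -- the symbol at `a`
  have h1 : jacobiSym (-b) (rd a) = eps a b * jacobiSym a b.natAbs * jacobiSym (-b) (q2 a) := by
    have e1 := J_abs ha (-b)
    rw [recip ha4 hb] at e1
    have e2 := J_sq (gcd_of (n := q2 a) hab.neg_left (q2_dvd_int ha))
    rw [e1]
    linear_combination (-(jacobiSym (-b) (rd a))) * e2
  have h2 : eps a b = eps s b := by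
    unfold eps
    simp only [hs]
  have h3 : jacobiSym a b.natAbs = jacobiSym c b.natAbs * jacobiSym b p := by
    have e1 : a % (b.natAbs : ℤ) = (4 * (4 * (p * c))) % (b.natAbs : ℤ) := by
      rw [Int.emod_emod_of_dvd _ (dvd_refl _) |>.symm]
      apply Int.emod_emod_of_dvd _ (dvd_refl _) |>.symm.trans
      rw [Int.emod_emod_of_dvd _ (dvd_refl _), Int.emod_emod_of_dvd _ (dvd_refl _)]
      apply Int.ModEq.eq
      rw [Int.modEq_iff_dvd, hadef]
      refine (Int.natAbs_dvd.2 (dvd_refl b)).trans ?_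
      exact ⟨-1, by ring⟩
    rw [jacobiSym.mod_left' e1, jacobiSym.mul_left, jacobiSym.mul_left, jacobiSym.mul_left,
      jacobiSym.at_four (odd_natAbs (by omega)), recip_p hb hpo]
    ring
  have h4 : jacobiSym (-a) (rd b) = jacobiSym (-c) (rd b) * (jacobiSym b p * jacobiSym p (q2 b)) := by
    have hbd : (rd b : ℤ) ∣ b := rd_dvd_int hb0
    have hro : Odd (rd b) := by
      rcases Nat.even_or_odd (rd b) with h | h
      · exfalso
        have h2 : (2 : ℤ) ∣ (rd b : ℤ) := by exact_mod_cast (even_iff_two_dvd.1 h)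
        have := h2.trans hbd
        omega
      · exact h
    have e1 : (-a) % (rd b : ℤ) = (4 * (4 * (p * (-c)))) % (rd b : ℤ) := by
      apply Int.ModEq.eq
      rw [Int.modEq_iff_dvd, hadef]
      refine hbd.trans ⟨1, by ring⟩
    have e2 := J_abs hb0 p
    have e3 : jacobiSym p (q2 b) * jacobiSym p (q2 b) = 1 :=
      J_sq (gcd_of hbp.symm (q2_dvd_int hb0))
    have e4 : jacobiSym p (rd b) = jacobiSym b p * jacobiSym p (q2 b) := by
      rw [recip_p hb hpo, e2]
      linear_combination (-(jacobiSym p (rd b))) * e3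
    rw [jacobiSym.mod_left' e1, jacobiSym.mul_left, jacobiSym.mul_left, jacobiSym.mul_left,
      jacobiSym.at_four hro, e4]
    ring
  have h5 : kap b p = jacobiSym b p := by
    unfold kap
    rw [if_neg hp2]
  have h6 : jacobiSym b p * jacobiSym b p = 1 :=
    J_sq (by rw [← Int.isCoprime_iff_gcd_eq_one]; exact hbp)
  rw [h1, h2, h3, h4, h5]
  unfold Psi
  linear_combination (eps s b * jacobiSym c b.natAbs * jacobiSym (-b) (q2 a) * om b *
    jacobiSym (-c) (rd b) * U c b * om a * jacobiSym b p * jacobiSym p (q2 b)) * h6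

end Pool.Agent.K1H81.RN
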