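import Pool.Agent.K1H81.RN.Core

/-!
# All classes together (helper81)
-/

set_option autoImplicit false

namespace Pool.Agent.K1H81.RN

open Finset Filter

lemma ind_nonneg (P : Prop) : 0 ≤ ind P := by
  rcases ind_zero_or_one P with h | h <;> rw [h]; norm_num

lemma ind_le_of {P Q : Prop} (h : P → Q) : ind P ≤ ind Q := by
  by_cases hP : P
  · rw [ind_pos hP, ind_pos (h hP)]
  · rw [ind_neg hP]; exact ind_nonneg _

lemma ind_or_le (P Q : Prop) : ind (P ∨ Q) ≤ ind P + ind Q := by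
  by_cases hP : P
  · rw [ind_pos hP, ind_pos (Or.inl hP)]; linarith [ind_nonneg Q]
  · rw [ind_neg hP, zero_add]
    exact ind_le_of fun h => h.resolve_left hP

/-- nonzero multiples in the box -/
lemma card_mul_le {X d : ℕ} (hd : 0 < d) :
    ∑ n ∈ Bx X, ind (n ≠ 0 ∧ (d : ℤ) ∣ n) ≤ 2 * X / d := by
  classical
  rcases Nat.eq_zero_or_pos X with rfl | hX
  · have : Bx 0 = ∅ := by unfold Bx; simp
    rw [this]; simp
  have h1 := (abs_le.1 (card_dvd X hd)).2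
  have h0 : (0 : ℤ) ∈ Bx X := mem_Bx.2 ⟨by omega, by omega⟩
  have e1 : ∑ n ∈ Bx X, ind ((d : ℤ) ∣ n) = ∑ n ∈ Bx X, ind (n ≠ 0 ∧ (d : ℤ) ∣ n) + 1 := by
    rw [← add_sum_erase _ _ h0, ← add_sum_erase (Bx X) (fun n => ind (n ≠ 0 ∧ (d : ℤ) ∣ n)) h0]
    have a1 : ind ((d : ℤ) ∣ 0) = 1 := ind_pos (dvd_zero _)
    have a2 : ind ((0 : ℤ) ≠ 0 ∧ (d : ℤ) ∣ 0) = 0 := ind_neg fun h => h.1 rfl
    rw [a1, a2, zero_add, add_comm]
    congr 1
    refine sum_congr rfl fun n hn => ?_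
    exact ind_congr ⟨fun h => ⟨(mem_erase.1 hn).1, h⟩, fun h => h.2⟩
  linarith

lemma q2_eq {n : ℤ} (hn : n ≠ 0) :
    q2 n = ∏ p ∈ n.natAbs.primeFactors, p ^ (n.natAbs.factorization p - 1) := by
  have h0 : n.natAbs ≠ 0 := Int.natAbs_ne_zero.2 hn
  have h1 : n.natAbs = rd n * ∏ p ∈ n.natAbs.primeFactors, p ^ (n.natAbs.factorization p - 1) := by
    have h2 := Nat.prod_factorization_pow_eq_self h0
    unfold rd
    rw [← prod_mul_distrib]
    conv_lhs => rw [← h2]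
    unfold Finsupp.prod
    rw [Nat.support_factorization]
    refine prod_congr rfl fun p hp => ?_
    have h3 : 0 < n.natAbs.factorization p := by
      have := (Nat.mem_primeFactors.1 hp)
      exact this.1.factorization_pos_of_dvd h0 this.2.1
    rw [← pow_succ']
    congr 1
    omega
  have h3 := rd_mul_q2 hn
  have h4 : rd n * q2 n = rd n * ∏ p ∈ n.natAbs.primeFactors, p ^ (n.natAbs.factorization p - 1) := by
    rw [h3]; exact h1
  exact Nat.eq_of_mul_eq_mul_left (rd_pos n) h4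

lemma q2_small {n : ℤ} (hn : n ≠ 0) {y J : ℕ}
    (h1 : ∀ p : ℕ, p.Prime → y < p → ¬ ((p ^ 2 : ℕ) : ℤ) ∣ n)
    (h2 : ∀ p : ℕ, p.Prime → p ≤ y → ¬ ((p ^ J : ℕ) : ℤ) ∣ n) :
    q2 n ≤ (∏ q ∈ Icc 1 y, q) ^ J := by
  classical
  have h0 : n.natAbs ≠ 0 := Int.natAbs_ne_zero.2 hn
  rw [q2_eq hn]
  have hf : ∀ p ∈ n.natAbs.primeFactors, p ^ (n.natAbs.factorization p - 1) ≤
      if p ≤ y then p ^ J else 1 := by
    intro p hp
    have hpp := Nat.prime_of_mem_primeFactors hp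
    by_cases hy : p ≤ y
    · rw [if_pos hy]
      apply Nat.pow_le_pow_right hpp.pos
      by_contra hcon
      push Not at hcon
      apply h2 p hpp hy
      rw [Int.natCast_dvd]
      exact (hpp.pow_dvd_iff_le_factorization h0).2 (by omega)
    · rw [if_neg hy]
      have : n.natAbs.factorization p ≤ 1 := by
        by_contra hcon
        push Not at hcon
        apply h1 p hpp (by omega)
        rw [Int.natCast_dvd]
        exact (hpp.pow_dvd_iff_le_factorization h0).2 (by omega)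
      have h3 : n.natAbs.factorization p - 1 = 0 := by omega
      rw [h3, pow_zero]
  refine (prod_le_prod' hf).trans ?_
  rw [prod_ite, prod_const_one, mul_one, prod_pow]
  apply Nat.pow_le_pow_left
  refine prod_le_prod_of_subset_of_one_le' ?_ fun p hp _ => (mem_Icc.1 hp).1
  intro p hp
  rw [mem_filter] at hp
  exact mem_Icc.2 ⟨(Nat.prime_of_mem_primeFactors hp.1).one_lt.le, hp.2⟩

/-- large quotients by the radical are rare -/
theorem q2_tail {ε : ℝ} (hε : 0 < ε) : ∃ K : ℕ, 0 < K ∧ ∀ X : ℕ,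
    ∑ n ∈ Bx X, ind (n ≠ 0 ∧ K < q2 n) ≤ ε * X := by
  classical
  obtain ⟨y, hy⟩ := exists_nat_gt (4 / ε)
  have hy0 : 0 < y := by
    have : (0 : ℝ) < y := lt_trans (by positivity) hy
    exact_mod_cast this
  have hyr : (0 : ℝ) < y := by exact_mod_cast hy0
  obtain ⟨J, hJ⟩ : ∃ J : ℕ, 4 * (y : ℝ) / ε < 2 ^ J := pow_unbounded_of_one_lt _ (by norm_num)
  refine ⟨(∏ q ∈ Icc 1 y, q) ^ J, pow_pos (prod_pos fun q hq => (mem_Icc.1 hq).1) _, fun X => ?_⟩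
  have hXr : (0 : ℝ) ≤ X := Nat.cast_nonneg _
  have h1 : ∀ n ∈ Bx X, ind (n ≠ 0 ∧ (∏ q ∈ Icc 1 y, q) ^ J < q2 n) ≤
      ∑ q ∈ Ioc y (max y X), ind (n ≠ 0 ∧ ((q ^ 2 : ℕ) : ℤ) ∣ n) +
      ∑ q ∈ Icc 2 y, ind (n ≠ 0 ∧ ((q ^ J : ℕ) : ℤ) ∣ n) := by
    intro n hn
    have g1 : 0 ≤ ∑ q ∈ Ioc y (max y X), ind (n ≠ 0 ∧ ((q ^ 2 : ℕ) : ℤ) ∣ n) :=
      sum_nonneg fun _ _ => ind_nonneg _
    have g2 : 0 ≤ ∑ q ∈ Icc 2 y, ind (n ≠ 0 ∧ ((q ^ J : ℕ) : ℤ) ∣ n) :=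
      sum_nonneg fun _ _ => ind_nonneg _
    by_cases h : n ≠ 0 ∧ (∏ q ∈ Icc 1 y, q) ^ J < q2 n
    swap
    · rw [ind_neg h]; exact add_nonneg g1 g2
    rw [ind_pos h]
    by_cases hA : ∀ p : ℕ, p.Prime → y < p → ¬ ((p ^ 2 : ℕ) : ℤ) ∣ n
    · by_cases hB : ∀ p : ℕ, p.Prime → p ≤ y → ¬ ((p ^ J : ℕ) : ℤ) ∣ n
      · exact absurd (q2_small h.1 hA hB) (not_le.2 h.2)
      · push Not at hB
        obtain ⟨p, hp, hpy, hpd⟩ := hB
        have := single_le_sum (f := fun q : ℕ => ind (n ≠ 0 ∧ ((q ^ J : ℕ) : ℤ) ∣ n))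
          (fun _ _ => ind_nonneg _) (mem_Icc.2 ⟨hp.two_le, hpy⟩)
        rw [ind_pos ⟨h.1, hpd⟩] at this
        linarith
    · push Not at hA
      obtain ⟨p, hp, hpy, hpd⟩ := hA
      have hpX : p ≤ X := by
        have h3 : (p ^ 2 : ℕ) ≤ n.natAbs := Nat.le_of_dvd (Int.natAbs_pos.2 h.1) (Int.natCast_dvd.1 hpd)
        have h4 := mem_Bx.1 hn
        have h5 : n.natAbs ≤ X := by omega
        have h6 : p ≤ p ^ 2 := Nat.le_self_pow (by norm_num) p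
        omega
      have := single_le_sum (f := fun q : ℕ => ind (n ≠ 0 ∧ ((q ^ 2 : ℕ) : ℤ) ∣ n))
        (fun _ _ => ind_nonneg _) (mem_Ioc.2 ⟨hpy, hpX.trans (le_max_right y X)⟩)
      rw [ind_pos ⟨h.1, hpd⟩] at this
      linarith
  refine (sum_le_sum h1).trans ?_
  rw [sum_add_distrib, sum_comm, sum_comm (t := Icc 2 y)]
  have h2 : ∑ q ∈ Ioc y (max y X), ∑ n ∈ Bx X, ind (n ≠ 0 ∧ ((q ^ 2 : ℕ) : ℤ) ∣ n) ≤
      2 * X * (1 / y) := by
    calc _ ≤ ∑ q ∈ Ioc y (max y X), 2 * (X : ℝ) * ((q : ℝ) ^ 2)⁻¹ := by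
          refine sum_le_sum fun q hq => ?_
          have hq0 : 0 < q := lt_of_le_of_lt (Nat.zero_le _) (mem_Ioc.1 hq).1
          refine (card_mul_le (X := X) (pow_pos hq0 2)).trans (le_of_eq ?_)
          push_cast
          rw [div_eq_mul_inv]
      _ = 2 * (X : ℝ) * ∑ q ∈ Ioc y (max y X), ((q : ℝ) ^ 2)⁻¹ := by rw [mul_sum]
      _ ≤ 2 * X * (1 / y) := by
          apply mul_le_mul_of_nonneg_left _ (by positivity)
          have := sum_Ioc_inv_sq_le_sub (α := ℝ) hy0.ne' (le_max_left y X)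
          refine this.trans ?_
          have h3 : 0 ≤ ((max y X : ℕ) : ℝ)⁻¹ := by positivity
          rw [one_div]
          linarith
  have h3 : ∑ q ∈ Icc 2 y, ∑ n ∈ Bx X, ind (n ≠ 0 ∧ ((q ^ J : ℕ) : ℤ) ∣ n) ≤
      2 * X * (y / 2 ^ J) := by
    calc _ ≤ ∑ q ∈ Icc 2 y, 2 * (X : ℝ) / 2 ^ J := by
          refine sum_le_sum fun q hq => ?_
          have hq2 := (mem_Icc.1 hq).1
          refine (card_mul_le (X := X) (pow_pos (by omega : 0 < q) J)).trans ?_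
          apply div_le_div_of_nonneg_left (by positivity) (by positivity)
          push_cast
          apply pow_le_pow_left₀ (by norm_num)
          exact_mod_cast hq2
      _ = ((Icc 2 y).card : ℝ) * (2 * (X : ℝ) / 2 ^ J) := by rw [sum_const, nsmul_eq_mul]
      _ ≤ y * (2 * (X : ℝ) / 2 ^ J) := by
          apply mul_le_mul_of_nonneg_right _ (by positivity)
          rw [Nat.card_Icc]
          exact_mod_cast (by omega : y + 1 - 2 ≤ y)
      _ = _ := by ring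
  have h4 : 1 / (y : ℝ) ≤ ε / 4 := by
    rw [div_le_div_iff₀ hyr (by norm_num)]
    rw [div_lt_iff₀ hε] at hy
    linarith
  have h5 : (y : ℝ) / 2 ^ J ≤ ε / 4 := by
    rw [div_le_div_iff₀ (by positivity) (by norm_num)]
    rw [div_lt_iff₀ hε] at hJ
    linarith
  have h6 : 2 * (X : ℝ) * (1 / y) ≤ 2 * X * (ε / 4) := mul_le_mul_of_nonneg_left h4 (by positivity)
  have h7 : 2 * (X : ℝ) * (y / 2 ^ J) ≤ 2 * X * (ε / 4) := mul_le_mul_of_nonneg_left h5 (by positivity)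
  linarith

/-- the same for `b + 16 c` -/
lemma q2_tail_lin {δ : ℝ} {K : ℕ}
    (hK : ∀ X : ℕ, ∑ n ∈ Bx X, ind (n ≠ 0 ∧ K < q2 n) ≤ δ * X) (X : ℕ) {c : ℤ} (hc : c ∈ Bx X) :
    ∑ b ∈ Bx X, ind (b + 16 * c ≠ 0 ∧ K < q2 (b + 16 * c)) ≤ δ * (17 * X) := by
  classical
  have h1 := hK (17 * X)
  push_cast at h1
  refine le_trans ?_ h1
  have hc' := mem_Bx.1 hc
  have : ∑ b ∈ Bx X, ind (b + 16 * c ≠ 0 ∧ K < q2 (b + 16 * c)) =
      ∑ n ∈ (Bx X).image (fun b => b + 16 * c), ind (n ≠ 0 ∧ K < q2 n) := by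
    rw [sum_image]
    intro a _ b _ h
    exact add_right_cancel h
  rw [this]
  refine sum_le_sum_of_subset_of_nonneg ?_ fun _ _ _ => ind_nonneg _
  intro n hn
  obtain ⟨b, hb, rfl⟩ := mem_image.1 hn
  have := mem_Bx.1 hb
  rw [mem_Bx]
  push_cast
  constructor <;> omega

lemma Tame.not {m : ℕ} {R : ℤ → ℤ → Prop} (h : Tame m R) : Tame m (fun x y => ¬ R x y) := by
  intro α β γ δ N
  refine le_trans (le_of_eq ?_) (h α β γ δ N)
  unfold Vr
  refine sum_congr rfl fun t _ => ?_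
  have e : ∀ P : Prop, ind (¬ P) = 1 - ind P := by
    intro P
    by_cases hP : P
    · rw [ind_pos hP, ind_neg (fun h => h hP)]; ring
    · rw [ind_neg hP, ind_pos hP]; ring
  simp only [e]
  rw [← abs_neg]
  congr 1
  ring

lemma Tame.mono {m m' : ℕ} {R : ℤ → ℤ → Prop} (h : Tame m R) (hm : m ≤ m') : Tame m' R :=
  fun α β γ δ N => (h α β γ δ N).trans (by exact_mod_cast hm)

lemma Tame.congr {m : ℕ} {R R' : ℤ → ℤ → Prop} (h : Tame m R) (hR : ∀ x y, R' x y ↔ R x y) :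
    Tame m R' := by
  intro α β γ δ N
  refine le_trans (le_of_eq ?_) (h α β γ δ N)
  congr 1
  funext t
  exact ind_congr (hR _ _)

lemma tame_sign (s : ℤ) : Tame 1 (fun x y => (s < 0 ↔ x + 16 * y < 0)) := by
  have h0 : Tame 1 (fun x y => x + 16 * y < 0) := by
    refine ((PolyFn.fst.add (PolyFn.cmul 16 PolyFn.snd)).tame (-1)).congr fun x y => ?_
    omega
  by_cases hs : s < 0
  · exact h0.congr fun x y => by simp [hs]
  · exact h0.not.congr fun x y => by simp [hs]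

/-- the conditions without the quotients -/
def Fm (M : ℕ) (β γ : ℤ) (R : ℤ → ℤ → Prop) (b c : ℤ) : Prop :=
  b % 4 = 1 ∧ c ≠ 0 ∧ b + 16 * c ≠ 0 ∧ IsCoprime b c ∧ b % M = β ∧ c % M = γ ∧ R b c

/-- **the mean value of the root numbers is zero in every tame region of the box** -/
theorem boxA {M : ℕ} (hM : 0 < M) (m : ℕ) {ε : ℝ} (hε : 0 < ε) :
    ∃ X0 : ℕ, ∀ X : ℕ, X0 ≤ X → ∀ (β γ : ℤ) (R : ℤ → ℤ → Prop), Tame m R →
      |∑ b ∈ Bx X, ∑ c ∈ Bx X, ind (Fm M β γ R b c) * (w b c : ℝ)| ≤ ε * X ^ 2 := by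
  classical
  obtain ⟨K, hK0, hK⟩ := q2_tail (ε := ε / 100) (by positivity)
  have hKr : (0 : ℝ) < K := by exact_mod_cast hK0
  obtain ⟨ε', hε'⟩ : ∃ ε' : ℝ, ε' = ε / (4 * (K : ℝ) ^ 3) := ⟨_, rfl⟩
  have hε'0 : 0 < ε' := by rw [hε']; positivity
  have hcore : ∀ k l j : ℕ, ∃ X0 : ℕ, 0 < l → ∀ X : ℕ, X0 ≤ X → ∀ (β γ s : ℤ) (R : ℤ → ℤ → Prop),
      Tame (m + 1) R → (∀ b c, R b c → (s < 0 ↔ b + 16 * c < 0)) →
      |∑ b ∈ Bx X, ∑ c ∈ Bx X, ind (Cd k l j M β γ R b c) * (w b c : ℝ)| ≤ ε' * X ^ 2 := by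
    intro k l j
    by_cases hl : 0 < l
    · obtain ⟨X0, hX0⟩ := core (k := k) (l := l) (j := j) hl hM (m + 1) hε'0
      exact ⟨X0, fun _ => hX0⟩
    · exact ⟨0, fun h => absurd h hl⟩
  choose X1 hX1 using hcore
  refine ⟨∑ k ∈ Icc 1 K, ∑ l ∈ Icc 1 K, ∑ j ∈ Icc 1 K, X1 k l j, fun X hX β γ R hR => ?_⟩
  -- the bad pairs
  obtain ⟨Bad, hBad⟩ : ∃ Bad : ℤ → ℤ → Prop, Bad = fun b c => Fm M β γ R b c ∧
    ((b ≠ 0 ∧ K < q2 b) ∨ (b + 16 * c ≠ 0 ∧ K < q2 (b + 16 * c)) ∨ (c ≠ 0 ∧ K < q2 c)) :=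
    ⟨_, rfl⟩
  have hdec : ∀ b c : ℤ, ind (Fm M β γ R b c) =
      ∑ k ∈ Icc 1 K, ∑ l ∈ Icc 1 K, ∑ j ∈ Icc 1 K, ∑ s ∈ ({1, -1} : Finset ℤ),
        ind (Cd k l j M β γ (fun x y => R x y ∧ (s < 0 ↔ x + 16 * y < 0)) b c) + ind (Bad b c) := by
    intro b c
    by_cases hF : Fm M β γ R b c
    swap
    · have h1 : ∀ (k l j : ℕ) (s : ℤ),
          ind (Cd k l j M β γ (fun x y => R x y ∧ (s < 0 ↔ x + 16 * y < 0)) b c) = 0 := by
        intro k l j s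
        apply ind_neg
        rintro ⟨h1, h2, h3, h4, _, _, _, h8, h9, h10⟩
        exact hF ⟨h1, h2, h3, h4, h8, h9, h10.1⟩
      have h2 : ind (Bad b c) = 0 := ind_neg (by rw [hBad]; exact fun h => hF h.1)
      rw [ind_neg hF, h2]
      simp only [h1, sum_const_zero, add_zero]
    obtain ⟨f1, f2, f3, f4, f5, f6, f7⟩ := hF
    have hb0 : b ≠ 0 := by omega
    have hsg : ∀ k l j : ℕ, ∑ s ∈ ({1, -1} : Finset ℤ),
        ind (Cd k l j M β γ (fun x y => R x y ∧ (s < 0 ↔ x + 16 * y < 0)) b c) =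
        ind (q2 b = k ∧ q2 (b + 16 * c) = l ∧ q2 c = j) := by
      intro k l j
      rw [sum_pair (by norm_num)]
      by_cases hn : b + 16 * c < 0
      · have e1 : ind (Cd k l j M β γ (fun x y => R x y ∧ ((1 : ℤ) < 0 ↔ x + 16 * y < 0)) b c) = 0 := by
          apply ind_neg
          rintro ⟨_, _, _, _, _, _, _, _, _, h10⟩
          exact absurd (h10.2.2 hn) (by norm_num)
        rw [e1, zero_add]
        apply ind_congr
        constructor
        · rintro ⟨_, _, _, _, h5, h6, h7, _⟩; exact ⟨h5, h6, h7⟩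
        · rintro ⟨h5, h6, h7⟩
          exact ⟨f1, f2, f3, f4, h5, h6, h7, f5, f6, f7, fun _ => hn, fun _ => by norm_num⟩
      · have e1 : ind (Cd k l j M β γ (fun x y => R x y ∧ ((-1 : ℤ) < 0 ↔ x + 16 * y < 0)) b c) = 0 := by
          apply ind_neg
          rintro ⟨_, _, _, _, _, _, _, _, _, h10⟩
          exact hn (h10.2.1 (by norm_num))
        rw [e1, add_zero]
        apply ind_congr
        constructor
        · rintro ⟨_, _, _, _, h5, h6, h7, _⟩; exact ⟨h5, h6, h7⟩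
        · rintro ⟨h5, h6, h7⟩
          exact ⟨f1, f2, f3, f4, h5, h6, h7, f5, f6, f7, fun h => absurd h (by norm_num),
            fun h => absurd h hn⟩
    simp only [hsg]
    rw [ind_pos ⟨f1, f2, f3, f4, f5, f6, f7⟩]
    have e3 : ∑ k ∈ Icc 1 K, ∑ l ∈ Icc 1 K, ∑ j ∈ Icc 1 K,
        ind (q2 b = k ∧ q2 (b + 16 * c) = l ∧ q2 c = j) =
        ind (q2 b ≤ K) * (ind (q2 (b + 16 * c) ≤ K) * ind (q2 c ≤ K)) := by
      have one : ∀ n : ℤ, n ≠ 0 → ∑ k ∈ Icc 1 K, ind (q2 n = k) = ind (q2 n ≤ K) := by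
        intro n hn
        have hp := q2_pos hn
        by_cases hle : q2 n ≤ K
        · rw [ind_pos hle, sum_eq_single (q2 n)]
          · exact ind_pos rfl
          · intro k _ hne; exact ind_neg (fun h => hne h.symm)
          · intro h; exact absurd (mem_Icc.2 ⟨hp, hle⟩) h
        · rw [ind_neg hle]
          refine sum_eq_zero fun k hk => ind_neg fun h => ?_
          rw [h] at hle
          exact hle (mem_Icc.1 hk).2
      simp only [ind_and]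
      simp only [← mul_sum, ← sum_mul]
      rw [one b hb0, one _ f3, one c f2]
    rw [e3]
    by_cases g1 : q2 b ≤ K
    · by_cases g2 : q2 (b + 16 * c) ≤ K
      · by_cases g3 : q2 c ≤ K
        · rw [ind_pos g1, ind_pos g2, ind_pos g3]
          have : ind (Bad b c) = 0 := by
            apply ind_neg
            rw [hBad]
            rintro ⟨_, h | h | h⟩
            · omega
            · omega
            · omega
          rw [this]; norm_num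
        · have : ind (Bad b c) = 1 := by
            apply ind_pos
            rw [hBad]
            exact ⟨⟨f1, f2, f3, f4, f5, f6, f7⟩, Or.inr (Or.inr ⟨f2, by omega⟩)⟩
          rw [ind_neg g3, this]; norm_num
      · have : ind (Bad b c) = 1 := by
          apply ind_pos
          rw [hBad]
          exact ⟨⟨f1, f2, f3, f4, f5, f6, f7⟩, Or.inr (Or.inl ⟨f3, by omega⟩)⟩
        rw [ind_neg g2, this]; norm_num
    · have : ind (Bad b c) = 1 := by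
        apply ind_pos
        rw [hBad]
        exact ⟨⟨f1, f2, f3, f4, f5, f6, f7⟩, Or.inl ⟨hb0, by omega⟩⟩
      rw [ind_neg g1, this]; norm_num
  have hmain : ∑ b ∈ Bx X, ∑ c ∈ Bx X, ind (Fm M β γ R b c) * (w b c : ℝ) =
      ∑ k ∈ Icc 1 K, ∑ l ∈ Icc 1 K, ∑ j ∈ Icc 1 K, ∑ s ∈ ({1, -1} : Finset ℤ),
        ∑ b ∈ Bx X, ∑ c ∈ Bx X,
          ind (Cd k l j M β γ (fun x y => R x y ∧ (s < 0 ↔ x + 16 * y < 0)) b c) * (w b c : ℝ) +
      ∑ b ∈ Bx X, ∑ c ∈ Bx X, ind (Bad b c) * (w b c : ℝ) := by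
    have e1 : ∀ b c : ℤ, ind (Fm M β γ R b c) * (w b c : ℝ) =
        ∑ k ∈ Icc 1 K, ∑ l ∈ Icc 1 K, ∑ j ∈ Icc 1 K, ∑ s ∈ ({1, -1} : Finset ℤ),
          ind (Cd k l j M β γ (fun x y => R x y ∧ (s < 0 ↔ x + 16 * y < 0)) b c) * (w b c : ℝ) +
        ind (Bad b c) * (w b c : ℝ) := by
      intro b c
      rw [hdec b c, add_mul]
      simp only [sum_mul]
    simp only [e1, sum_add_distrib]
    congr 1
    -- exchange the sums
    have sw : ∀ (S : Finset ℕ) (f : ℕ → ℤ → ℤ → ℝ), ∑ b ∈ Bx X, ∑ c ∈ Bx X, ∑ k ∈ S, f k b c =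
        ∑ k ∈ S, ∑ b ∈ Bx X, ∑ c ∈ Bx X, f k b c := by
      intro S f
      rw [sum_comm]
      have : ∀ c ∈ Bx X, ∑ b ∈ Bx X, ∑ k ∈ S, f k b c = ∑ k ∈ S, ∑ b ∈ Bx X, f k b c :=
        fun c _ => sum_comm
      rw [sum_congr rfl this, sum_comm]
      exact sum_congr rfl fun k _ => sum_comm
    have sw' : ∀ (S : Finset ℤ) (f : ℤ → ℤ → ℤ → ℝ), ∑ b ∈ Bx X, ∑ c ∈ Bx X, ∑ k ∈ S, f k b c =
        ∑ k ∈ S, ∑ b ∈ Bx X, ∑ c ∈ Bx X, f k b c := by
      intro S f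
      rw [sum_comm]
      have : ∀ c ∈ Bx X, ∑ b ∈ Bx X, ∑ k ∈ S, f k b c = ∑ k ∈ S, ∑ b ∈ Bx X, f k b c :=
        fun c _ => sum_comm
      rw [sum_congr rfl this, sum_comm]
      exact sum_congr rfl fun k _ => sum_comm
    rw [sw]
    refine sum_congr rfl fun k _ => ?_
    rw [sw]
    refine sum_congr rfl fun l _ => ?_
    rw [sw]
    refine sum_congr rfl fun j _ => ?_
    rw [sw']
  rw [hmain]
  have hX1' : ∀ k ∈ Icc 1 K, ∀ l ∈ Icc 1 K, ∀ j ∈ Icc 1 K, X1 k l j ≤ X := by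
    intro k hk l hl j hj
    refine le_trans ?_ hX
    exact (single_le_sum (f := fun j => X1 k l j) (fun _ _ => Nat.zero_le _) hj).trans
      ((single_le_sum (f := fun l => ∑ j ∈ Icc 1 K, X1 k l j) (fun _ _ => Nat.zero_le _) hl).trans
      (single_le_sum (f := fun k => ∑ l ∈ Icc 1 K, ∑ j ∈ Icc 1 K, X1 k l j)
        (fun _ _ => Nat.zero_le _) hk))
  have hpart1 : |∑ k ∈ Icc 1 K, ∑ l ∈ Icc 1 K, ∑ j ∈ Icc 1 K, ∑ s ∈ ({1, -1} : Finset ℤ),
        ∑ b ∈ Bx X, ∑ c ∈ Bx X,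
          ind (Cd k l j M β γ (fun x y => R x y ∧ (s < 0 ↔ x + 16 * y < 0)) b c) * (w b c : ℝ)| ≤
      (K : ℝ) ^ 3 * (2 * (ε' * X ^ 2)) := by
    have hcard : ((Icc 1 K).card : ℝ) = K := by rw [Nat.card_Icc]; simp
    have hb : ∀ k ∈ Icc 1 K, ∀ l ∈ Icc 1 K, ∀ j ∈ Icc 1 K, |∑ s ∈ ({1, -1} : Finset ℤ),
        ∑ b ∈ Bx X, ∑ c ∈ Bx X,
          ind (Cd k l j M β γ (fun x y => R x y ∧ (s < 0 ↔ x + 16 * y < 0)) b c) * (w b c : ℝ)| ≤
        2 * (ε' * X ^ 2) := by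
      intro k hk l hl j hj
      refine (abs_sum_le_sum_abs _ _).trans ?_
      calc _ ≤ ∑ s ∈ ({1, -1} : Finset ℤ), ε' * (X : ℝ) ^ 2 := by
            refine sum_le_sum fun s _ => ?_
            exact hX1 k l j (mem_Icc.1 hl).1 X (hX1' k hk l hl j hj) β γ s _
              (hR.and (tame_sign s)) fun b c h => h.2
        _ = _ := by rw [sum_const, card_pair (by norm_num)]; simp
    refine (abs_sum_le_sum_abs _ _).trans ?_
    calc _ ≤ ∑ k ∈ Icc 1 K, (K : ℝ) ^ 2 * (2 * (ε' * (X : ℝ) ^ 2)) := by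
          refine sum_le_sum fun k hk => (abs_sum_le_sum_abs _ _).trans ?_
          calc _ ≤ ∑ l ∈ Icc 1 K, (K : ℝ) * (2 * (ε' * (X : ℝ) ^ 2)) := by
                refine sum_le_sum fun l hl => (abs_sum_le_sum_abs _ _).trans ?_
                calc _ ≤ ∑ j ∈ Icc 1 K, 2 * (ε' * (X : ℝ) ^ 2) :=
                      sum_le_sum fun j hj => hb k hk l hl j hj
                  _ = _ := by rw [sum_const, nsmul_eq_mul, hcard]
            _ = _ := by rw [sum_const, nsmul_eq_mul, hcard]; ring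
      _ = _ := by rw [sum_const, nsmul_eq_mul, hcard]; ring
  have hpart2 : |∑ b ∈ Bx X, ∑ c ∈ Bx X, ind (Bad b c) * (w b c : ℝ)| ≤ ε / 2 * X ^ 2 := by
    have hle : ∀ b ∈ Bx X, ∀ c ∈ Bx X, |ind (Bad b c) * (w b c : ℝ)| ≤
        ind (b ≠ 0 ∧ K < q2 b) + (ind (b + 16 * c ≠ 0 ∧ K < q2 (b + 16 * c)) +
          ind (c ≠ 0 ∧ K < q2 c)) := by
      intro b _ c _
      rw [abs_mul, abs_of_nonneg (ind_nonneg _)]
      calc _ ≤ ind (Bad b c) * 1 := mul_le_mul_of_nonneg_left (w_abs b c) (ind_nonneg _)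
        _ = ind (Bad b c) := mul_one _
        _ ≤ ind ((b ≠ 0 ∧ K < q2 b) ∨ (b + 16 * c ≠ 0 ∧ K < q2 (b + 16 * c)) ∨
            (c ≠ 0 ∧ K < q2 c)) := ind_le_of (by rw [hBad]; exact fun h => h.2)
        _ ≤ _ := (ind_or_le _ _).trans (add_le_add le_rfl (ind_or_le _ _))
    calc _ ≤ ∑ b ∈ Bx X, ∑ c ∈ Bx X, |ind (Bad b c) * (w b c : ℝ)| :=
          (abs_sum_le_sum_abs _ _).trans (sum_le_sum fun b _ => abs_sum_le_sum_abs _ _)
      _ ≤ ∑ b ∈ Bx X, ∑ c ∈ Bx X, (ind (b ≠ 0 ∧ K < q2 b) +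
          (ind (b + 16 * c ≠ 0 ∧ K < q2 (b + 16 * c)) + ind (c ≠ 0 ∧ K < q2 c))) :=
          sum_le_sum fun b hb => sum_le_sum fun c hc => hle b hb c hc
      _ = 2 * X * ∑ b ∈ Bx X, ind (b ≠ 0 ∧ K < q2 b) +
          (∑ c ∈ Bx X, ∑ b ∈ Bx X, ind (b + 16 * c ≠ 0 ∧ K < q2 (b + 16 * c)) +
            2 * X * ∑ c ∈ Bx X, ind (c ≠ 0 ∧ K < q2 c)) := by
          simp only [sum_add_distrib, sum_const, nsmul_eq_mul, card_Bx]
          rw [← mul_sum]
          congr 1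
          congr 1
          exact sum_comm
      _ ≤ 2 * X * (ε / 100 * X) + (2 * X * (ε / 100 * (17 * X)) + 2 * X * (ε / 100 * X)) := by
          have a1 := hK X
          have a2 : ∑ c ∈ Bx X, ∑ b ∈ Bx X, ind (b + 16 * c ≠ 0 ∧ K < q2 (b + 16 * c)) ≤
              2 * X * (ε / 100 * (17 * X)) := by
            calc _ ≤ ∑ c ∈ Bx X, ε / 100 * (17 * (X : ℝ)) :=
                  sum_le_sum fun c hc => q2_tail_lin hK X hc
              _ = _ := by rw [sum_const, nsmul_eq_mul, card_Bx]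
          gcongr
      _ ≤ _ := by nlinarith [mul_nonneg hε.le (sq_nonneg (X : ℝ))]
  calc _ ≤ _ := abs_add_le _ _
    _ ≤ (K : ℝ) ^ 3 * (2 * (ε' * X ^ 2)) + ε / 2 * X ^ 2 := add_le_add hpart1 hpart2
    _ = ε * X ^ 2 := by
        rw [hε']
        field_simp
        ring

end Pool.Agent.K1H81.RN
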