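import Mathlib

/-!
# Functions of bounded variation on the integers; regions given by polynomials (helper81)
-/

set_option autoImplicit false

namespace Pool.Agent.K1H81.RN

open Finset

/-- the variation on `[-N, N]` -/
noncomputable def Vr (φ : ℤ → ℝ) (N : ℕ) : ℝ := ∑ t ∈ Ico (-(N : ℤ)) N, |φ (t + 1) - φ t|

lemma Vr_nonneg (φ : ℤ → ℝ) (N : ℕ) : 0 ≤ Vr φ N := sum_nonneg fun _ _ => abs_nonneg _

lemma abel_aux (φ ψ : ℤ → ℝ) (A : ℤ) (K : ℕ) :
    ∑ t ∈ Ioc A (A + K), φ t * ψ t = φ (A + K) * ∑ s ∈ Ioc A (A + K), ψ s -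
      ∑ t ∈ Ico A (A + K), (φ (t + 1) - φ t) * ∑ s ∈ Ioc A t, ψ s := by
  induction K with
  | zero => simp
  | succ K ih =>
    have e1 : Ioc A (A + ((K + 1 : ℕ) : ℤ)) = insert (A + K + 1) (Ioc A (A + K)) := by
      ext x
      simp only [mem_insert, mem_Ioc]
      push_cast
      omega
    have e2 : Ico A (A + ((K + 1 : ℕ) : ℤ)) = insert (A + K) (Ico A (A + K)) := by
      ext x
      simp only [mem_insert, mem_Ico]
      push_cast
      omega
    have e3 : A + ((K + 1 : ℕ) : ℤ) = A + K + 1 := by push_cast; ring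
    rw [e1, e2, sum_insert (by simp), sum_insert (by simp), sum_insert (by simp), ih, e3]
    ring

/-- summation by parts -/
theorem abel {φ ψ : ℤ → ℝ} {N : ℕ} {m E : ℝ} (hφ : ∀ t, |φ t| ≤ 1) (hV : Vr φ N ≤ m)
    (hψ : ∀ A B : ℤ, -(N : ℤ) ≤ A → A ≤ B → B ≤ N → |∑ t ∈ Ioc A B, ψ t| ≤ E) :
    |∑ t ∈ Ioc (-(N : ℤ)) N, φ t * ψ t| ≤ (m + 1) * E := by
  have hE : 0 ≤ E := (abs_nonneg _).trans (hψ (-(N : ℤ)) (-(N : ℤ)) le_rfl le_rfl (by omega))
  have h1 := abel_aux φ ψ (-(N : ℤ)) (2 * N)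
  have e : (-(N : ℤ)) + ((2 * N : ℕ) : ℤ) = N := by push_cast; ring
  rw [e] at h1
  rw [h1]
  have h2 : |φ N * ∑ s ∈ Ioc (-(N : ℤ)) N, ψ s| ≤ E := by
    rw [abs_mul]
    calc _ ≤ 1 * E := mul_le_mul (hφ _) (hψ _ _ le_rfl (by omega) le_rfl) (abs_nonneg _) zero_le_one
      _ = E := one_mul E
  have h3 : |∑ t ∈ Ico (-(N : ℤ)) N, (φ (t + 1) - φ t) * ∑ s ∈ Ioc (-(N : ℤ)) t, ψ s| ≤ m * E := by
    refine (abs_sum_le_sum_abs _ _).trans ?_
    calc ∑ t ∈ Ico (-(N : ℤ)) N, |(φ (t + 1) - φ t) * ∑ s ∈ Ioc (-(N : ℤ)) t, ψ s| ≤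
        ∑ t ∈ Ico (-(N : ℤ)) N, |φ (t + 1) - φ t| * E := by
          refine sum_le_sum fun t ht => ?_
          rw [mem_Ico] at ht
          rw [abs_mul]
          exact mul_le_mul_of_nonneg_left (hψ _ _ le_rfl ht.1 ht.2.le) (abs_nonneg _)
      _ = Vr φ N * E := by rw [← sum_mul]; rfl
      _ ≤ m * E := mul_le_mul_of_nonneg_right hV hE
  calc _ ≤ _ := abs_sub _ _
    _ ≤ E + m * E := add_le_add h2 h3
    _ = (m + 1) * E := by ring

lemma Vr_mul {φ φ' : ℤ → ℝ} {N : ℕ} {m m' : ℝ} (h : ∀ t, |φ t| ≤ 1) (h' : ∀ t, |φ' t| ≤ 1)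
    (hV : Vr φ N ≤ m) (hV' : Vr φ' N ≤ m') : Vr (fun t => φ t * φ' t) N ≤ m + m' := by
  refine le_trans ?_ (add_le_add hV hV')
  unfold Vr
  rw [← sum_add_distrib]
  refine sum_le_sum fun t _ => ?_
  have e : φ (t + 1) * φ' (t + 1) - φ t * φ' t =
      (φ (t + 1) - φ t) * φ' (t + 1) + φ t * (φ' (t + 1) - φ' t) := by ring
  rw [e]
  refine (abs_add_le _ _).trans ?_
  rw [abs_mul, abs_mul]
  refine add_le_add ?_ ?_
  · calc _ ≤ |φ (t + 1) - φ t| * 1 := mul_le_mul_of_nonneg_left (h' _) (abs_nonneg _)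
      _ = _ := mul_one _
  · calc _ ≤ 1 * |φ' (t + 1) - φ' t| := mul_le_mul_of_nonneg_right (h _) (abs_nonneg _)
      _ = _ := one_mul _

/-- the indicator function -/
noncomputable def ind (P : Prop) : ℝ := by classical exact if P then 1 else 0

lemma ind_pos {P : Prop} (h : P) : ind P = 1 := if_pos h

lemma ind_neg {P : Prop} (h : ¬ P) : ind P = 0 := if_neg h

lemma ind_abs (P : Prop) : |ind P| ≤ 1 := by
  by_cases h : P
  · rw [ind_pos h]; simp
  · rw [ind_neg h]; simp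

lemma ind_and (P Q : Prop) : ind (P ∧ Q) = ind P * ind Q := by
  by_cases h : P
  · by_cases h' : Q
    · rw [ind_pos h, ind_pos h', ind_pos ⟨h, h'⟩, mul_one]
    · rw [ind_neg h', ind_neg fun x => h' x.2, mul_zero]
  · rw [ind_neg h, ind_neg fun x => h x.1, zero_mul]

lemma ind_congr {P Q : Prop} (h : P ↔ Q) : ind P = ind Q := by
  by_cases h' : P
  · rw [ind_pos h', ind_pos (h.1 h')]
  · rw [ind_neg h', ind_neg fun x => h' (h.2 x)]

lemma ind_zero_or_one (P : Prop) : ind P = 0 ∨ ind P = 1 := by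
  by_cases h : P
  · exact Or.inr (ind_pos h)
  · exact Or.inl (ind_neg h)

open Polynomial in
/-- a polynomial inequality changes its truth value at most degree many times -/
theorem Vr_poly (P : ℝ[X]) (Z : ℤ) (hint : ∀ t : ℤ, ∃ z : ℤ, P.eval (t : ℝ) = z) (N : ℕ) :
    Vr (fun t => ind (P.eval (t : ℝ) ≤ Z)) N ≤ P.natDegree := by
  classical
  obtain ⟨Q, hQ⟩ : ∃ Q : ℝ[X], Q = P - C ((Z : ℝ) + 1 / 2) := ⟨_, rfl⟩
  have hQe : ∀ x : ℝ, Q.eval x = P.eval x - ((Z : ℝ) + 1 / 2) := by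
    intro x; rw [hQ, eval_sub, eval_C]
  have hneg : ∀ t : ℤ, P.eval (t : ℝ) ≤ Z ↔ Q.eval (t : ℝ) < 0 := by
    intro t
    obtain ⟨z, hz⟩ := hint t
    rw [hQe, hz]
    constructor
    · intro h; linarith
    · intro h
      have h1 : (z : ℝ) < (Z : ℝ) + 1 := by linarith
      have h2 : z < Z + 1 := by exact_mod_cast h1
      have h3 : z ≤ Z := by omega
      exact_mod_cast h3
  have hpos : ∀ t : ℤ, ¬ P.eval (t : ℝ) ≤ Z ↔ 0 < Q.eval (t : ℝ) := by
    intro t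
    obtain ⟨z, hz⟩ := hint t
    rw [hQe, hz, not_le]
    constructor
    · intro h
      have h2 : Z < z := by exact_mod_cast h
      have h3 : Z + 1 ≤ z := by omega
      have h4 : (Z : ℝ) + 1 ≤ z := by exact_mod_cast h3
      linarith
    · intro h; linarith
  have hQ0 : Q ≠ 0 := by
    intro h0
    have h1 := hneg 0
    have h2 := hpos 0
    rw [h0, eval_zero] at h1 h2
    by_cases h : P.eval ((0 : ℤ) : ℝ) ≤ Z
    · exact lt_irrefl _ (h1.1 h)
    · exact lt_irrefl _ (h2.1 h)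
  obtain ⟨S, hS⟩ : ∃ S : Finset ℤ, S = (Ico (-(N : ℤ)) N).filter (fun t =>
    ¬ (P.eval (((t + 1 : ℤ)) : ℝ) ≤ Z ↔ P.eval (t : ℝ) ≤ Z)) := ⟨_, rfl⟩
  have hcard : Vr (fun t => ind (P.eval (t : ℝ) ≤ Z)) N ≤ S.card := by
    unfold Vr
    rw [hS, card_filter]
    push_cast
    refine sum_le_sum fun t _ => ?_
    by_cases h : (P.eval (((t + 1 : ℤ)) : ℝ) ≤ Z ↔ P.eval (t : ℝ) ≤ Z)
    · have h' := h
      push_cast at h'
      rw [ind_congr h', sub_self, abs_zero]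
      split_ifs <;> norm_num
    · have h' := h
      push_cast at h'
      rw [if_pos h']
      rcases ind_zero_or_one (P.eval ((t : ℝ) + 1) ≤ Z) with h1 | h1 <;>
        rcases ind_zero_or_one (P.eval (t : ℝ) ≤ Z) with h2 | h2 <;> rw [h1, h2] <;> norm_num
  refine hcard.trans ?_
  have hroot : ∀ t ∈ S, ∃ r : ℝ, (t : ℝ) < r ∧ r < t + 1 ∧ r ∈ Q.roots.toFinset := by
    intro t ht
    rw [hS, mem_filter] at ht
    have hc : ContinuousOn (fun x : ℝ => Q.eval x) (Set.Icc (t : ℝ) (t + 1)) :=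
      Q.continuous.continuousOn
    have hle : (t : ℝ) ≤ t + 1 := by linarith
    have hlast : ∀ r ∈ Set.Ioo (t : ℝ) (t + 1), Q.eval r = 0 →
        ∃ r : ℝ, (t : ℝ) < r ∧ r < t + 1 ∧ r ∈ Q.roots.toFinset := by
      intro r hr h0
      refine ⟨r, hr.1, hr.2, ?_⟩
      rw [Multiset.mem_toFinset, mem_roots hQ0]
      exact h0
    have e : ((t + 1 : ℤ) : ℝ) = (t : ℝ) + 1 := by push_cast; rfl
    by_cases h : P.eval (t : ℝ) ≤ Z
    · have h2 : ¬ P.eval (((t + 1 : ℤ)) : ℝ) ≤ Z := fun h' => ht.2 ⟨fun _ => h, fun _ => h'⟩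
      have a1 := (hneg t).1 h
      have a2 := (hpos (t + 1)).1 h2
      rw [e] at a2
      obtain ⟨r, hr, h0⟩ := intermediate_value_Ioo hle hc ⟨a1, a2⟩
      exact hlast r hr h0
    · have h2 : P.eval (((t + 1 : ℤ)) : ℝ) ≤ Z := by
        by_contra h'
        exact ht.2 ⟨fun x => absurd x h', fun x => absurd x h⟩
      have a1 := (hpos t).1 h
      have a2 := (hneg (t + 1)).1 h2
      rw [e] at a2
      obtain ⟨r, hr, h0⟩ := intermediate_value_Ioo' hle hc ⟨a2, a1⟩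
      exact hlast r hr h0
  choose! r hr1 hr2 hr3 using hroot
  have hinj : Set.InjOn r S := by
    intro s hs t ht hst
    have a1 := hr1 s hs
    have a2 := hr2 s hs
    have b1 := hr1 t ht
    have b2 := hr2 t ht
    rw [hst] at a1 a2
    have c1 : (s : ℝ) < (t : ℝ) + 1 := a1.trans b2
    have c2 : (t : ℝ) < (s : ℝ) + 1 := b1.trans a2
    have d1 : s < t + 1 := by exact_mod_cast c1
    have d2 : t < s + 1 := by exact_mod_cast c2
    omega
  have h1 : S.card ≤ Q.roots.toFinset.card := card_le_card_of_injOn r hr3 hinj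
  have h2 : Q.roots.toFinset.card ≤ P.natDegree := by
    refine (Multiset.toFinset_card_le _).trans ((card_roots' Q).trans ?_)
    rw [hQ, natDegree_sub_C]
  exact_mod_cast h1.trans h2

/-- a region of the plane whose sections by lines have few boundary points -/
def Tame (m : ℕ) (R : ℤ → ℤ → Prop) : Prop :=
  ∀ (α β γ δ : ℤ) (N : ℕ), Vr (fun t => ind (R (α + β * t) (γ + δ * t))) N ≤ m

lemma Tame.and {m m' : ℕ} {R R' : ℤ → ℤ → Prop} (h : Tame m R) (h' : Tame m' R') :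
    Tame (m + m') (fun x y => R x y ∧ R' x y) := by
  intro α β γ δ N
  simp only [ind_and]
  push_cast
  exact Vr_mul (fun _ => ind_abs _) (fun _ => ind_abs _) (h α β γ δ N) (h' α β γ δ N)

open Polynomial in
/-- polynomial functions of degree at most `D` -/
def PolyFn (D : ℕ) (f : ℤ → ℤ → ℤ) : Prop :=
  ∀ α β γ δ : ℤ, ∃ P : ℝ[X], P.natDegree ≤ D ∧
    ∀ t : ℤ, (f (α + β * t) (γ + δ * t) : ℝ) = P.eval (t : ℝ)

open Polynomial

lemma PolyFn.tame {D : ℕ} {f : ℤ → ℤ → ℤ} (h : PolyFn D f) (Z : ℤ) :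
    Tame D (fun x y => f x y ≤ Z) := by
  intro α β γ δ N
  obtain ⟨P, hP, hPe⟩ := h α β γ δ
  have e : (fun t : ℤ => ind (f (α + β * t) (γ + δ * t) ≤ Z)) =
      fun t : ℤ => ind (P.eval (t : ℝ) ≤ Z) := by
    funext t
    apply ind_congr
    rw [← hPe t]
    norm_cast
  rw [e]
  refine (Vr_poly P Z (fun t => ⟨_, (hPe t).symm⟩) N).trans ?_
  exact_mod_cast hP

lemma PolyFn.mono {D D' : ℕ} {f : ℤ → ℤ → ℤ} (h : PolyFn D f) (hD : D ≤ D') : PolyFn D' f := by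
  intro α β γ δ
  obtain ⟨P, hP, hPe⟩ := h α β γ δ
  exact ⟨P, hP.trans hD, hPe⟩

lemma PolyFn.fst : PolyFn 1 (fun x _ => x) := by
  intro α β γ δ
  refine ⟨C (β : ℝ) * X + C (α : ℝ), natDegree_linear_le, fun t => ?_⟩
  simp
  ring

lemma PolyFn.snd : PolyFn 1 (fun _ y => y) := by
  intro α β γ δ
  refine ⟨C (δ : ℝ) * X + C (γ : ℝ), natDegree_linear_le, fun t => ?_⟩
  simp
  ring

lemma PolyFn.const (c : ℤ) : PolyFn 0 (fun _ _ => c) := by
  intro α β γ δ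
  exact ⟨C (c : ℝ), (natDegree_C _).le, fun t => by simp⟩

lemma PolyFn.add {D : ℕ} {f g : ℤ → ℤ → ℤ} (hf : PolyFn D f) (hg : PolyFn D g) :
    PolyFn D (fun x y => f x y + g x y) := by
  intro α β γ δ
  obtain ⟨P, hP, hPe⟩ := hf α β γ δ
  obtain ⟨Q, hQ, hQe⟩ := hg α β γ δ
  refine ⟨P + Q, (natDegree_add_le _ _).trans (max_le hP hQ), fun t => ?_⟩
  push_cast
  rw [eval_add, hPe, hQe]

lemma PolyFn.mul {D D' : ℕ} {f g : ℤ → ℤ → ℤ} (hf : PolyFn D f) (hg : PolyFn D' g) :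
    PolyFn (D + D') (fun x y => f x y * g x y) := by
  intro α β γ δ
  obtain ⟨P, hP, hPe⟩ := hf α β γ δ
  obtain ⟨Q, hQ, hQe⟩ := hg α β γ δ
  refine ⟨P * Q, natDegree_mul_le.trans (add_le_add hP hQ), fun t => ?_⟩
  push_cast
  rw [eval_mul, hPe, hQe]

lemma PolyFn.cmul {D : ℕ} {f : ℤ → ℤ → ℤ} (c : ℤ) (hf : PolyFn D f) :
    PolyFn D (fun x y => c * f x y) := by
  have := (PolyFn.const c).mul hf
  rwa [zero_add] at this

lemma PolyFn.pow {D : ℕ} {f : ℤ → ℤ → ℤ} (hf : PolyFn D f) (n : ℕ) :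
    PolyFn (n * D) (fun x y => f x y ^ n) := by
  induction n with
  | zero => simpa using PolyFn.const 1
  | succ n ih =>
    have := ih.mul hf
    simp only [← pow_succ] at this
    rwa [← Nat.succ_mul] at this

end Pool.Agent.K1H81.RN
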